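import Pool.Agent.H7.SLP.H5S
import Pool.Agent.H81.SLP.Ctx
import Pool.Agent.H10.KAL.SVP
import Pool.Agent.H37.S3.PRE

/-!
# (H5) on families

The own sheets are polynomials `G ω` in base coordinates (the time in the slot `i₁`). The digits of
the shape are those of the coefficients of the sheet at the exact time, in the coordinates of the
cell of the position.
-/

set_option autoImplicit false

namespace Pool.SLP

open Finset Real MvPolynomial
open Pool.Agent.H49.Ent Pool.Agent.H32.Dense Pool.STK Pool.KAF Pool.KA Pool.KSAT Pool.K2S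
open Pool.PB Pool.SLO Pool.KAL

/-! ### Polynomials -/

/-- Mean value inequality along a segment. -/
theorem seg_lip {n : ℕ} (G : MvPolynomial (Fin n) ℝ) (M δ : ℝ) (hM : 0 ≤ M) (y y' : Fin n → ℝ)
    (hδ : ∀ i, |y' i - y i| ≤ δ) (h : ∀ s : ℝ, 0 ≤ s → s ≤ 1 → ∀ i,
      |eval (fun i => y i + s * (y' i - y i)) (pderiv i G)| ≤ M) :
    |eval y' G - eval y G| ≤ n * M * δ := by
  set f : Fin n → Polynomial ℝ := fun i =>
    Polynomial.C (y i) + Polynomial.X * Polynomial.C (y' i - y i) with hf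
  set g : Polynomial ℝ := MvPolynomial.aeval f G with hg
  have hev : ∀ (P : MvPolynomial (Fin n) ℝ) (t : ℝ),
      (MvPolynomial.aeval f P : Polynomial ℝ).eval t =
        MvPolynomial.eval (fun i => y i + t * (y' i - y i)) P := by
    intro P t
    induction P using MvPolynomial.induction_on with
    | C a => simp
    | add p q hp hq => simp only [map_add, Polynomial.eval_add, hp, hq]
    | mul_X p k hp =>
      rw [map_mul, map_mul, Polynomial.eval_mul, hp]
      simp [hf]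
  obtain ⟨c, hc, hc'⟩ := exists_hasDerivAt_eq_slope (fun t => g.eval t)
    (fun t => g.derivative.eval t) (show (0 : ℝ) < 1 by norm_num) g.continuous.continuousOn
    (fun t _ => g.hasDerivAt t)
  have e0 : g.eval 0 = MvPolynomial.eval y G := by
    rw [hg, hev]
    have : (fun i => y i + 0 * (y' i - y i)) = y := by
      funext i
      ring
    rw [this]
  have e1 : g.eval 1 = MvPolynomial.eval y' G := by
    rw [hg, hev]
    have : (fun i => y i + 1 * (y' i - y i)) = y' := by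
      funext i
      ring
    rw [this]
  have hc2 : MvPolynomial.eval y' G - MvPolynomial.eval y G = g.derivative.eval c := by
    rw [hc', ← e0, ← e1]
    simp
  rw [hc2, hg, Pool.KS3.der_line, Polynomial.eval_finsetSum]
  refine (Finset.abs_sum_le_sum_abs _ _).trans ?_
  calc ∑ i, |Polynomial.eval c (MvPolynomial.aeval f (MvPolynomial.pderiv i G) *
        Polynomial.derivative (f i))|
      ≤ ∑ _i : Fin n, M * δ := by
        refine Finset.sum_le_sum fun i _ => ?_
        rw [Polynomial.eval_mul, abs_mul, hev]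
        refine mul_le_mul (h c hc.1.le hc.2.le i) ?_ (abs_nonneg _) hM
        have : (Polynomial.derivative (f i)).eval c = y' i - y i := by
          simp [hf]
        rw [this]
        exact hδ i
    _ = n * M * δ := by
        rw [Finset.sum_const, Finset.card_univ, Fintype.card_fin, nsmul_eq_mul]
        ring

/-- The coefficients are bounded by the supremum on a unit cube near the origin. -/
theorem coef_cube (n K : ℕ) : ∃ C : ℝ, 1 ≤ C ∧ ∀ (D : MvPolynomial (Fin n) ℝ) (M : ℝ)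
    (v : Fin n → ℝ), D.totalDegree ≤ K → (∀ i, |v i| ≤ 3) →
    (∀ y : Fin n → ℝ, (∀ i, v i ≤ y i ∧ y i ≤ v i + 1) → |eval y D| ≤ M) →
      coefSum D ≤ C * M := by
  obtain ⟨K₁, hK₁, h⟩ := exists_Psi_le_sup (Fin n) K
  refine ⟨2 ^ K * (8 ^ K * K₁), ?_, fun D M v hD hv hM => ?_⟩
  · have h1 : (1 : ℝ) ≤ 2 ^ K := one_le_pow₀ (by norm_num)
    have h2 : (1 : ℝ) ≤ 8 ^ K := one_le_pow₀ (by norm_num)
    have h3 : (1 : ℝ) ≤ 8 ^ K * K₁ := by nlinarith
    nlinarith
  have h1 := h D (1 / 2) (fun i => v i + 1 / 2) M hD (by norm_num) (by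
    intro y hy
    refine hM y fun i => ?_
    have := abs_le.mp (hy i)
    constructor <;> linarith [this.1, this.2])
  have hΨ0 : 0 ≤ Psi D (1 / 2) (fun _ => 0) := Psi_nonneg _ _ _
  have hΨ1 : 0 ≤ Psi D (1 / 2) (fun i => v i + 1 / 2) := Psi_nonneg _ _ _
  have h2 := Psi_le_of_dist D (1 / 2) 7 (by norm_num) (by norm_num) (fun i => v i + 1 / 2)
    (fun _ => 0) (by
      intro i
      have := abs_le.mp (hv i)
      rw [abs_le]
      constructor <;> linarith [this.1, this.2])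
  have h3 := Psi_radius_le D (1 / 2) 2 (by norm_num) (fun _ => 0)
  have e1 : Psi D (1 / 2 * 2) (fun _ => 0) = coefSum D := by
    have e2 : (1 / 2 * 2 : ℝ) = 1 := by norm_num
    rw [e2]
    unfold Psi
    rw [shf_zero_one]
  rw [e1] at h3
  have e3 : (1 + 7 : ℝ) = 8 := by norm_num
  rw [e3] at h2
  have hpow : (2 : ℝ) ^ D.totalDegree ≤ 2 ^ K := pow_le_pow_right₀ (by norm_num) hD
  have hpow8 : (8 : ℝ) ^ D.totalDegree ≤ 8 ^ K := pow_le_pow_right₀ (by norm_num) hD
  calc coefSum D ≤ 2 ^ D.totalDegree * Psi D (1 / 2) (fun _ => 0) := h3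
    _ ≤ 2 ^ K * Psi D (1 / 2) (fun _ => 0) := mul_le_mul_of_nonneg_right hpow hΨ0
    _ ≤ 2 ^ K * (8 ^ D.totalDegree * Psi D (1 / 2) (fun i => v i + 1 / 2)) :=
        mul_le_mul_of_nonneg_left h2 (by positivity)
    _ ≤ 2 ^ K * (8 ^ K * Psi D (1 / 2) (fun i => v i + 1 / 2)) := by
        refine mul_le_mul_of_nonneg_left (mul_le_mul_of_nonneg_right hpow8 hΨ1) (by positivity)
    _ ≤ 2 ^ K * (8 ^ K * (K₁ * M)) := by
        refine mul_le_mul_of_nonneg_left (mul_le_mul_of_nonneg_left h1 ?_) ?_ <;> positivity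
    _ = _ := by ring

section fixed

variable {m : ℕ}

/-- The polynomial with the time fixed. -/
noncomputable def fixt (i₁ : Fin m) (t : ℝ) (G : MvPolynomial (Fin m) ℝ) :
    MvPolynomial (Fin m) ℝ := bind₁ (fun j => if j = i₁ then C t else X j) G

theorem eval_fixt (i₁ : Fin m) (t : ℝ) (G : MvPolynomial (Fin m) ℝ) (b : Fin m → ℝ) :
    eval b (fixt i₁ t G) = eval (Function.update b i₁ t) G := by
  unfold fixt
  rw [eval, eval₂Hom_bind₁]
  congr 1
  congr 1
  funext j
  by_cases hj : j = i₁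
  · subst hj
    rw [Function.update_self, if_pos rfl]
    exact eval_C t
  · rw [Function.update_of_ne hj, if_neg hj]
    exact eval_X j

theorem totalDegree_fixt_le (i₁ : Fin m) (t : ℝ) (G : MvPolynomial (Fin m) ℝ) :
    (fixt i₁ t G).totalDegree ≤ G.totalDegree := by
  refine totalDegree_bind₁_le _ (fun j => ?_) G
  split_ifs
  · rw [totalDegree_C]
    exact Nat.zero_le _
  · rw [totalDegree_X]

end fixed

section fam

variable {m J : ℕ}

/-- The own sheet at the exact time. -/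
noncomputable def gfn (F : Fam m J) (i₁ : Fin m) (G : F.Ω → MvPolynomial (Fin m) ℝ) (ω : F.Ω)
    (z : Fin m → ℝ) : ℝ := eval (Function.update z i₁ (F.t ω)) (G ω)

/-- The own sheet at the exact time in the coordinates of the cell. -/
noncomputable def cpl (F : Fam m J) (i₁ : Fin m) (a : ℕ) (G : F.Ω → MvPolynomial (Fin m) ℝ)
    (ω : F.Ω) : MvPolynomial (Fin m) ℝ :=
  shf (fixt i₁ (F.t ω) (G ω)) (1 / 2 ^ a) (tco i₁ a F.x ω)

theorem eval_cpl (F : Fam m J) (i₁ : Fin m) (a : ℕ) (G : F.Ω → MvPolynomial (Fin m) ℝ)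
    (ω : F.Ω) (u : Fin m → ℝ) :
    eval u (cpl F i₁ a G ω) = gfn F i₁ G ω (fun i => tco i₁ a F.x ω i + 1 / 2 ^ a * u i) := by
  unfold cpl gfn
  rw [eval_shf, eval_fixt]

theorem gfn_cpl (F : Fam m J) (i₁ : Fin m) (a : ℕ) (G : F.Ω → MvPolynomial (Fin m) ℝ)
    (ω : F.Ω) (z : Fin m → ℝ) :
    gfn F i₁ G ω z = eval (fun i => 2 ^ a * (z i - tco i₁ a F.x ω i)) (cpl F i₁ a G ω) := by
  rw [eval_cpl]
  congr 1
  funext i
  field_simp
  ring

theorem totalDegree_cpl_le (F : Fam m J) (i₁ : Fin m) (a : ℕ)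
    (G : F.Ω → MvPolynomial (Fin m) ℝ) (ω : F.Ω) :
    (cpl F i₁ a G ω).totalDegree ≤ (G ω).totalDegree :=
  (totalDegree_shf_le _ _ _).trans (totalDegree_fixt_le _ _ _)

open Classical in
/-- The digits of the shape of the own sheet on the cell, to `P + s`. -/
noncomputable def Sc (F : Fam m J) (i₁ : Fin m) (a P K : ℕ) (G : F.Ω → MvPolynomial (Fin m) ℝ)
    (s : ℕ) (ω : F.Ω) : (Fin m →₀ ℕ) → ℤ := fun al =>
  if al ∈ mons m K ∧ al ≠ 0 then hz (P + s) (cpl F i₁ a G ω) al else 0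

theorem hz_nest {P P' : ℕ} (h : P ≤ P') (G G' : MvPolynomial (Fin m) ℝ) (al : Fin m →₀ ℕ)
    (e : hz P' G al = hz P' G' al) : hz P G al = hz P G' al := by
  unfold hz at e ⊢
  refine Pool.OCT.floor_two_pow (P' - P) ?_
  have e1 : ∀ y : ℝ, (2 : ℝ) ^ (P' - P) * (2 ^ P * y) = 2 ^ P' * y := by
    intro y
    rw [← mul_assoc, ← pow_add, Nat.sub_add_cancel h]
  rw [e1, e1]
  exact e

theorem Sc_nest (F : Fam m J) (i₁ : Fin m) (a P K : ℕ) (G : F.Ω → MvPolynomial (Fin m) ℝ)
    {s s' : ℕ} (h : s ≤ s') {ω ω' : F.Ω}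
    (e : Sc F i₁ a P K G s' ω = Sc F i₁ a P K G s' ω') :
    Sc F i₁ a P K G s ω = Sc F i₁ a P K G s ω' := by
  funext al
  have h1 := congrFun e al
  unfold Sc at h1 ⊢
  by_cases h2 : al ∈ mons m K ∧ al ≠ 0
  · rw [if_pos h2, if_pos h2] at h1 ⊢
    exact hz_nest (by omega) _ _ al h1
  · rw [if_neg h2, if_neg h2]

/-- The digits determine the shape. -/
theorem Sc_shape (F : Fam m J) (i₁ : Fin m) (a P K : ℕ) (G : F.Ω → MvPolynomial (Fin m) ℝ)
    (s : ℕ) {ω ω' : F.Ω} (hG : (G ω).totalDegree ≤ K) (hG' : (G ω').totalDegree ≤ K)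
    (hc : tdg i₁ a F.x ω = tdg i₁ a F.x ω')
    (e : Sc F i₁ a P K G s ω = Sc F i₁ a P K G s ω') (z : Fin m → ℝ)
    (hz : ∀ i, |z i - tco i₁ a F.x ω i| ≤ 3 / 2 ^ a) :
    |(gfn F i₁ G ω z - gfn F i₁ G ω (tco i₁ a F.x ω)) -
      (gfn F i₁ G ω' z - gfn F i₁ G ω' (tco i₁ a F.x ω'))| ≤
        ((mons m K).card * 3 ^ K) / 2 ^ (P + s) := by
  classical
  have hco : tco i₁ a F.x ω = tco i₁ a F.x ω' := tco_eq i₁ F.x hc
  set u : Fin m → ℝ := fun i => 2 ^ a * (z i - tco i₁ a F.x ω i) with hu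
  have hu3 : ∀ i, |u i| ≤ 3 := by
    intro i
    have h0 : (0 : ℝ) < 2 ^ a := by positivity
    rw [hu]
    simp only
    rw [abs_mul, abs_of_pos h0]
    calc (2 : ℝ) ^ a * |z i - tco i₁ a F.x ω i| ≤ 2 ^ a * (3 / 2 ^ a) :=
          mul_le_mul_of_nonneg_left (hz i) h0.le
      _ = 3 := by field_simp
  have key : ∀ ω₁ : F.Ω, (G ω₁).totalDegree ≤ K → tco i₁ a F.x ω = tco i₁ a F.x ω₁ →
      gfn F i₁ G ω₁ z - gfn F i₁ G ω₁ (tco i₁ a F.x ω₁) =
        ∑ al ∈ (mons m K).filter (fun al => al ≠ 0), coeff al (cpl F i₁ a G ω₁) *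
          ∏ i, u i ^ al i := by
    intro ω₁ h1 h2
    have hd : (cpl F i₁ a G ω₁).totalDegree ≤ K := (totalDegree_cpl_le F i₁ a G ω₁).trans h1
    rw [gfn_cpl F i₁ a G ω₁ z, gfn_cpl F i₁ a G ω₁ (tco i₁ a F.x ω₁)]
    have e1 : (fun i => 2 ^ a * (z i - tco i₁ a F.x ω₁ i)) = u := by
      rw [hu, h2]
    have e2 : (fun i => 2 ^ a * (tco i₁ a F.x ω₁ i - tco i₁ a F.x ω₁ i)) =
        (fun _ : Fin m => (0 : ℝ)) := by
      funext i
      ring
    rw [e1, e2, eval_of_degree hd, eval_of_degree hd, ← Finset.sum_sub_distrib,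
      Finset.sum_filter]
    refine Finset.sum_congr rfl fun al _ => ?_
    by_cases h3 : al = 0
    · subst h3
      simp
    · rw [if_pos h3]
      have h4 : ∃ i, al i ≠ 0 := by
        by_contra hcon
        refine h3 (Finsupp.ext fun i => ?_)
        by_contra h5
        exact hcon ⟨i, h5⟩
      obtain ⟨i, hi⟩ := h4
      have h6 : ∏ j : Fin m, (0 : ℝ) ^ al j = 0 :=
        Finset.prod_eq_zero (Finset.mem_univ i) (zero_pow hi)
      rw [h6, mul_zero, sub_zero]
  rw [key ω hG rfl, key ω' hG' hco, ← Finset.sum_sub_distrib]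
  refine (Finset.abs_sum_le_sum_abs _ _).trans ?_
  have hterm : ∀ al ∈ (mons m K).filter (fun al => al ≠ 0),
      |coeff al (cpl F i₁ a G ω) * ∏ i, u i ^ al i -
        coeff al (cpl F i₁ a G ω') * ∏ i, u i ^ al i| ≤ 3 ^ K / 2 ^ (P + s) := by
    intro al hal
    rw [Finset.mem_filter] at hal
    have h1 := congrFun e al
    unfold Sc at h1
    rw [if_pos hal, if_pos hal] at h1
    unfold SLO.hz at h1
    have h2 := Pool.OCT.floor_eq_near h1
    have hpp : (0 : ℝ) < 2 ^ (P + s) := by positivity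
    rw [← mul_sub, abs_mul, abs_of_pos hpp] at h2
    have h3 : |coeff al (cpl F i₁ a G ω) - coeff al (cpl F i₁ a G ω')| ≤ 1 / 2 ^ (P + s) := by
      rw [le_div_iff₀ hpp, mul_comm]
      exact h2
    have h4 : |∏ i, u i ^ al i| ≤ 3 ^ K := by
      rw [Finset.abs_prod]
      have h5 : ∏ i, |u i ^ al i| ≤ ∏ i, (3 : ℝ) ^ al i := by
        refine Finset.prod_le_prod (fun i _ => abs_nonneg _) fun i _ => ?_
        rw [abs_pow]
        exact pow_le_pow_left₀ (abs_nonneg _) (hu3 i) _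
      refine h5.trans ?_
      rw [Finset.prod_pow_eq_pow_sum]
      refine pow_le_pow_right₀ (by norm_num) ?_
      have h6 := mem_mons.1 hal.1
      rw [Finsupp.sum_fintype _ _ (fun _ => rfl)] at h6
      exact h6
    rw [← sub_mul, abs_mul]
    calc |coeff al (cpl F i₁ a G ω) - coeff al (cpl F i₁ a G ω')| * |∏ i, u i ^ al i| ≤
        1 / 2 ^ (P + s) * 3 ^ K := mul_le_mul h3 h4 (abs_nonneg _) (by positivity)
      _ = 3 ^ K / 2 ^ (P + s) := by ring
  refine (Finset.sum_le_sum hterm).trans ?_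
  rw [Finset.sum_const, nsmul_eq_mul]
  have hcard : (((mons m K).filter (fun al => al ≠ 0)).card : ℝ) ≤ (mons m K).card := by
    exact_mod_cast Finset.card_filter_le _ _
  calc (((mons m K).filter (fun al => al ≠ 0)).card : ℝ) * (3 ^ K / 2 ^ (P + s)) ≤
      (mons m K).card * (3 ^ K / 2 ^ (P + s)) :=
        mul_le_mul_of_nonneg_right hcard (by positivity)
    _ = _ := by ring

end fam

end Pool.SLP
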