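import Pool.Agent.H7.SLP.H5M

/-!
# (H5) on families

`box_of_ctx`: the static box is a function of the context and the time, up to boundedly many
values. `h5_fam`: the rows of the height inside the context are not full.
-/

set_option autoImplicit false

namespace Pool.SLP

open Finset Real MvPolynomial
open Pool.Agent.H49.Ent Pool.Agent.H32.Dense Pool.STK Pool.KAF Pool.KA Pool.KSAT Pool.K2S
open Pool.PB Pool.SLO Pool.KAL

section fam

variable {m J : ℕ}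

theorem of_cond_pos {F : Fam m J} {A : F.Ω → Prop} {ω : F.Ω}
    (h : 0 < Pool.Agent.H49.Ent.cond F.p A True ω) : A ω := by
  have h1 := ((cond_pos_iff F.isLaw.nonneg A True ω).1 h).2
  rw [h1]
  trivial

/-- The label of the context is within `C0 / 2 ^ e` of the own sheet on the box, at the exact
time. -/
def NearB (F : Fam m J) (i₁ : Fin m) (a w q K P e : ℕ) (C0 : ℝ)
    (G : F.Ω → MvPolynomial (Fin m) ℝ)
    (H : ((Fin m → ℝ) × (Fin m → ℝ)) × F.ζ × ℕ → MvPolynomial (Fin m) ℝ) (ω : F.Ω) : Prop :=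
  ∀ b : Fin m → ℝ, (∀ j, 0 ≤ b j ∧ b j ≤ 1) → b i₁ = F.tw w ω →
    |eval b (plb F i₁ a w q ω (G ω)) - eval b (Rc F i₁ a w q K P H ω)| ≤ C0 / 2 ^ e

/-- Two samples with the same context, time and cell have close sheets. -/
theorem cpl_close (m K : ℕ) : ∃ C : ℝ, 1 ≤ C ∧ ∀ (J : ℕ) (F : Fam m J) (i₁ : Fin m)
    (a w q P e : ℕ) (C0 : ℝ) (G : F.Ω → MvPolynomial (Fin m) ℝ)
    (H : ((Fin m → ℝ) × (Fin m → ℝ)) × F.ζ × ℕ → MvPolynomial (Fin m) ℝ) (ω ω' : F.Ω),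
    w ≤ J → a ≤ w + q → (G ω).totalDegree ≤ K → (G ω').totalDegree ≤ K →
    NearB F i₁ a w q K P e C0 G H ω → NearB F i₁ a w q K P e C0 G H ω' →
    tdg i₁ a F.x ω = tdg i₁ a F.x ω' → ctx F i₁ a w q P H ω = ctx F i₁ a w q P H ω' →
    F.W ω = F.W ω' → ∀ al,
      |coeff al (cpl F i₁ a G ω) - coeff al (cpl F i₁ a G ω')| ≤ C * (2 * C0 / 2 ^ e) := by
  obtain ⟨C₁, hC₁, hcoef⟩ := coef_cube m K
  refine ⟨C₁, hC₁, ?_⟩
  intro J F i₁ a w q P e C0 G H ω ω' hw hq hG hG' hn hn' g1 g2 g3 al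
  have h0 : (0 : ℝ) < 2 ^ a := by positivity
  have g4 : tco i₁ a F.x ω = tco i₁ a F.x ω' := tco_eq i₁ F.x g1
  have t1 := (ctx_ext g2).1
  have t7 := (ctx_ext g2).2.2.2.2.2.2.1 K
  have t8 : F.T ω = F.T ω' := (Prod.ext_iff.1 g3).1
  have t9 : F.tw w ω = F.tw w ω' := by
    unfold Fam.tw Fam.t
    rw [t1, t8]
  obtain ⟨v, hv⟩ : ∃ v : Fin m → ℝ, v = fun j => if j = i₁ then 0 else
    2 ^ a * (cen i₁ J a w q (ctx F i₁ a w q P H ω) (F.W ω) j - tco i₁ a F.x ω j) := ⟨_, rfl⟩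
  have hv3 : ∀ i, |v i| ≤ 3 := by
    intro i
    rw [hv]
    by_cases hi : i = i₁
    · simp only [if_pos hi, abs_zero]
      norm_num
    · simp only [if_neg hi]
      have k1 := cen_tco F i₁ hw hq P H ω i
      rw [abs_mul, abs_of_pos h0]
      calc (2 : ℝ) ^ a * |cen i₁ J a w q (ctx F i₁ a w q P H ω) (F.W ω) i -
            tco i₁ a F.x ω i| ≤ 2 ^ a * (2 / 2 ^ a) := mul_le_mul_of_nonneg_left k1 h0.le
        _ = 2 := by field_simp
        _ ≤ 3 := by norm_num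
  have key : coefSum (cpl F i₁ a G ω - cpl F i₁ a G ω') ≤ C₁ * (2 * C0 / 2 ^ e) := by
    refine hcoef _ _ v ?_ hv3 ?_
    · refine (totalDegree_sub _ _).trans (max_le ?_ ?_)
      · exact (totalDegree_cpl_le F i₁ a G ω).trans hG
      · exact (totalDegree_cpl_le F i₁ a G ω').trans hG'
    · intro y hy
      rw [map_sub, eval_cell_box F i₁ a w q P G H ω y,
        eval_cell_box F i₁ a w q P G H ω' y, ← g2, ← g3, ← g4, ← t9]
      obtain ⟨bb, hbb⟩ : ∃ bb : Fin m → ℝ, bb = fun j => if j = i₁ then F.tw w ω else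
        y j - 2 ^ a * (cen i₁ J a w q (ctx F i₁ a w q P H ω) (F.W ω) j -
          tco i₁ a F.x ω j) := ⟨_, rfl⟩
      rw [← hbb]
      have hb1 : bb i₁ = F.tw w ω := by rw [hbb]; exact if_pos rfl
      have hb2 : ∀ j, 0 ≤ bb j ∧ bb j ≤ 1 := by
        intro j
        by_cases hj : j = i₁
        · rw [hj, hb1]
          have h6 := tw_mem' F hw ω
          exact ⟨h6.1, h6.2.le⟩
        · have h7 := hy j
          rw [hv] at h7
          simp only [if_neg hj] at h7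
          rw [hbb]
          simp only [if_neg hj]
          constructor <;> linarith [h7.1, h7.2]
      have k1 := hn bb hb2 hb1
      have k2 := hn' bb hb2 (hb1.trans t9)
      rw [← t7] at k2
      have e5 : 2 * C0 / 2 ^ e = C0 / 2 ^ e + C0 / 2 ^ e := by ring
      rw [e5]
      rw [abs_le] at k1 k2 ⊢
      constructor <;> linarith [k1.1, k1.2, k2.1, k2.2]
  have k3 := (abs_coeff_le (cpl F i₁ a G ω - cpl F i₁ a G ω') al).trans key
  rw [coeff_sub] at k3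
  exact k3

/-- The tangential cell given the context and the time. -/
theorem tdg_ctx {F : Fam m J} {p : F.Ω → ℝ} (hp : IsLaw p) (i₁ : Fin m) {a w q : ℕ} (hw : w ≤ J)
    (hq : a ≤ w + q) (P : ℕ)
    (H : ((Fin m → ℝ) × (Fin m → ℝ)) × F.ζ × ℕ → MvPolynomial (Fin m) ℝ) :
    CH p (tdg i₁ a F.x) (fun ω => (ctx F i₁ a w q P H ω, F.W ω)) ≤ m * Real.log 7 := by
  have h0 : (0 : ℝ) < 2 ^ a := by positivity
  refine (CH_le_vec hp.nonneg hp.sum_one _ _ (fun _ => 3) ?_).trans ?_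
  · intro ω ω' _ _ he i
    have k3 : ctx F i₁ a w q P H ω = ctx F i₁ a w q P H ω' := (Prod.ext_iff.1 he).1
    have k4 : F.W ω = F.W ω' := (Prod.ext_iff.1 he).2
    unfold tdg
    by_cases hi : i = i₁
    · rw [if_pos hi, if_pos hi]
      norm_num
    · rw [if_neg hi, if_neg hi]
      refine (Pool.OCT.floor_diff (L := 2) ?_).trans (by norm_num)
      have k1 := cen_near F i₁ hw hq P H ω i hi
      have k2 := cen_near F i₁ hw hq P H ω' i hi
      rw [k3, k4] at k1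
      rw [← mul_sub, abs_mul, abs_of_pos h0]
      have k5 : |F.x ω i - F.x ω' i| ≤ 2 / 2 ^ a := by
        rw [abs_le]
        constructor <;> linarith [k1.1, k1.2, k2.1, k2.2]
      calc (2 : ℝ) ^ a * |F.x ω i - F.x ω' i| ≤ 2 ^ a * (2 / 2 ^ a) :=
            mul_le_mul_of_nonneg_left k5 h0.le
        _ = 2 := by field_simp
  · rw [Ex_const hp.sum_one]
    have e : (2 : ℝ) * 3 + 1 = 7 := by norm_num
    rw [e]

theorem zero_mem_mons (K : ℕ) : (0 : Fin m →₀ ℕ) ∈ mons m K := by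
  rw [mem_mons, Finsupp.sum_zero_index]
  exact Nat.zero_le _

/-- The height of the own sheet over the corner is the coefficient of order zero. -/
theorem hgt_hz (F : Fam m J) (i₁ : Fin m) (a r : ℕ) (G : F.Ω → MvPolynomial (Fin m) ℝ)
    (ω : F.Ω) : ⌊(2 : ℝ) ^ r * gfn F i₁ G ω (tco i₁ a F.x ω)⌋ = hz r (cpl F i₁ a G ω) 0 := by
  have h1 : gfn F i₁ G ω (tco i₁ a F.x ω) = coeff 0 (cpl F i₁ a G ω) := by
    rw [gfn_cpl F i₁ a G ω (tco i₁ a F.x ω)]
    have e3 : (fun i => (2 : ℝ) ^ a * (tco i₁ a F.x ω i - tco i₁ a F.x ω i)) = 0 := by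
      funext i
      simp
    rw [e3, MvPolynomial.eval_zero, constantCoeff_eq]
  rw [h1]
  rfl

theorem sbx_ext {Ω τ : Type} {σ : ℕ → Type} (i₁ : Fin m) (a P : ℕ) (x : Ω → Fin m → ℝ)
    (G : Ω → (Fin m → ℝ) → ℝ) (W : Ω → τ) (S : ∀ r, Ω → σ r) (r : ℕ) {ω ω' : Ω}
    (h1 : W ω = W ω') (h2 : tdg i₁ a x ω = tdg i₁ a x ω')
    (h3 : ⌊(2 : ℝ) ^ (P + r) * G ω (tco i₁ a x ω)⌋ = ⌊(2 : ℝ) ^ (P + r) * G ω' (tco i₁ a x ω')⌋)
    (h4 : S r ω = S r ω') : sbx i₁ a P x G W S r ω = sbx i₁ a P x G W S r ω' :=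
  Prod.ext h1 (Prod.ext h2 (Prod.ext h3 h4))

theorem Sc_ext (F : Fam m J) (i₁ : Fin m) (a P K : ℕ) (G : F.Ω → MvPolynomial (Fin m) ℝ)
    (s : ℕ) {ω ω' : F.Ω} (h : ∀ al ∈ mons m K, hz (P + s) (cpl F i₁ a G ω) al =
      hz (P + s) (cpl F i₁ a G ω') al) :
    Sc F i₁ a P K G s ω = Sc F i₁ a P K G s ω' := by
  funext al
  unfold Sc
  by_cases h2 : al ∈ mons m K ∧ al ≠ 0
  · rw [if_pos h2, if_pos h2]
    exact h al h2.1
  · rw [if_neg h2, if_neg h2]

/-- The own static box. -/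
noncomputable def bxs (F : Fam m J) (i₁ : Fin m) (a e K : ℕ) (G : F.Ω → MvPolynomial (Fin m) ℝ)
    (r : ℕ) (ω : F.Ω) : (ℕ × F.ζ) × (Fin m → ℤ) × ℤ × ((Fin m →₀ ℕ) → ℤ) :=
  sbx i₁ a e F.x (gfn F i₁ G) F.W (Sc F i₁ a e K G) r ω

theorem bxs_of_hz (F : Fam m J) (i₁ : Fin m) (a e K : ℕ) (G : F.Ω → MvPolynomial (Fin m) ℝ)
    (r : ℕ) {ω ω' : F.Ω} (h1 : F.W ω = F.W ω') (h2 : tdg i₁ a F.x ω = tdg i₁ a F.x ω')
    (h : ∀ al ∈ mons m K, hz (e + r) (cpl F i₁ a G ω) al = hz (e + r) (cpl F i₁ a G ω') al) :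
    bxs F i₁ a e K G r ω = bxs F i₁ a e K G r ω' := by
  unfold bxs
  refine sbx_ext i₁ a e F.x (gfn F i₁ G) F.W (Sc F i₁ a e K G) r h1 h2 ?_ (Sc_ext F i₁ a e K G r h)
  rw [hgt_hz, hgt_hz]
  exact h 0 (zero_mem_mons K)

/-- **The static box is a function of the context and the time**, up to boundedly many values. -/
theorem box_of_ctx (m K : ℕ) : ∃ C : ℝ, 1 ≤ C ∧ ∀ (J : ℕ) (F : Fam m J) (i₁ : Fin m)
    (A : F.Ω → Prop) (a w q P e : ℕ) (C0 : ℝ) (G : F.Ω → MvPolynomial (Fin m) ℝ)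
    (H : ((Fin m → ℝ) × (Fin m → ℝ)) × F.ζ × ℕ → MvPolynomial (Fin m) ℝ),
    IsLaw (Pool.Agent.H49.Ent.cond F.p A True) → w ≤ J → a ≤ w + q → 0 ≤ C0 →
    (∀ ω, A ω → (G ω).totalDegree ≤ K) → (∀ ω, A ω → NearB F i₁ a w q K P e C0 G H ω) →
    CH (Pool.Agent.H49.Ent.cond F.p A True) (bxs F i₁ a e K G 0)
      (fun ω => (ctx F i₁ a w q P H ω, F.W ω)) ≤
        m * Real.log 7 + (mons m K).card * Real.log (2 * (C * C0 + 1) + 1) := by
  obtain ⟨C₁, hC₁, hcl⟩ := cpl_close m K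
  refine ⟨2 * C₁, by linarith, ?_⟩
  intro J F i₁ A a w q P e C0 G H hp hw hq hC0 hG hbox
  have hnn := hp.nonneg
  have hpp : (0 : ℝ) < 2 ^ (e + 0) := by positivity
  have c1 := CH_le_add hnn (bxs F i₁ a e K G 0) (tdg i₁ a F.x)
    (fun ω => (ctx F i₁ a w q P H ω, F.W ω))
  have c2 := tdg_ctx hp i₁ hw hq P H
  have c3 : CH (Pool.Agent.H49.Ent.cond F.p A True) (bxs F i₁ a e K G 0)
      (fun ω => (tdg i₁ a F.x ω, (ctx F i₁ a w q P H ω, F.W ω))) ≤
        (mons m K).card * Real.log (2 * (2 * C₁ * C0 + 1) + 1) := by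
    refine ch_mons hp (mons m K) (fun ω => hz (e + 0) (cpl F i₁ a G ω)) _ _ _ ?_ ?_
    · intro ω ω' hω hω' he al _
      have g1 : tdg i₁ a F.x ω = tdg i₁ a F.x ω' := (Prod.ext_iff.1 he).1
      have g2 : ctx F i₁ a w q P H ω = ctx F i₁ a w q P H ω' :=
        (Prod.ext_iff.1 (Prod.ext_iff.1 he).2).1
      have g3 : F.W ω = F.W ω' := (Prod.ext_iff.1 (Prod.ext_iff.1 he).2).2
      have hAω := of_cond_pos hω
      have hAω' := of_cond_pos hω'
      have k3 := hcl J F i₁ a w q P e C0 G H ω ω' hw hq (hG ω hAω) (hG ω' hAω') (hbox ω hAω)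
        (hbox ω' hAω') g1 g2 g3 al
      unfold SLO.hz
      refine Pool.OCT.floor_diff (L := 2 * C₁ * C0) ?_
      rw [← mul_sub, abs_mul, abs_of_pos hpp]
      refine (mul_le_mul_of_nonneg_left k3 hpp.le).trans (le_of_eq ?_)
      rw [Nat.add_zero]
      field_simp
    · intro ω ω' _ _ he hf
      exact bxs_of_hz F i₁ a e K G 0 (Prod.ext_iff.1 (Prod.ext_iff.1 he).2).2
        (Prod.ext_iff.1 he).1 hf
  linarith

/-- The own sheet at the exact time is Lipschitz on the cell. -/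
theorem gfn_lip (F : Fam m J) (i₁ : Fin m) {a : ℕ} {L : ℝ} (hL : 0 ≤ L)
    (G : F.Ω → MvPolynomial (Fin m) ℝ) (ω : F.Ω)
    (hgr : ∀ b : Fin m → ℝ, (∀ j, |b j - bp F i₁ ω j| ≤ 2 / 2 ^ a) →
      ∀ j, |eval b (pderiv j (G ω))| ≤ L) (z z' : Fin m → ℝ)
    (hz : ∀ i, |z i - tco i₁ a F.x ω i| ≤ 1 / 2 ^ a)
    (hz' : ∀ i, |z' i - tco i₁ a F.x ω i| ≤ 1 / 2 ^ a) (δ : ℝ) (hδ : ∀ i, |z i - z' i| ≤ δ) :
    |gfn F i₁ G ω z - gfn F i₁ G ω z'| ≤ m * L * δ := by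
  have h0 : (0 : ℝ) < 2 ^ a := by positivity
  have hnear : ∀ j, |tps i₁ F.x ω j - tco i₁ a F.x ω j| ≤ 1 / 2 ^ a := tps_tco i₁ a F.x ω
  have hδ0 : 0 ≤ δ := le_trans (abs_nonneg _) (hδ i₁)
  unfold gfn
  rw [abs_sub_comm]
  refine seg_lip (G ω) L δ hL _ _ ?_ ?_
  · intro i
    by_cases hi : i = i₁
    · subst hi
      rw [Function.update_self, Function.update_self, sub_self, abs_zero]
      exact hδ0
    · rw [Function.update_of_ne hi, Function.update_of_ne hi, abs_sub_comm]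
      exact hδ i
  · intro s hs0 hs1 i
    refine hgr _ ?_ i
    intro j
    by_cases hj : j = i₁
    · subst hj
      simp only [Function.update_self, bp, sub_self, mul_zero, add_zero, abs_zero]
      positivity
    · simp only [Function.update_of_ne hj, bp]
      have k1 := abs_le.1 (hz j)
      have k2 := abs_le.1 (hz' j)
      have k3 := abs_le.1 (hnear j)
      unfold tps at k3
      rw [if_neg hj] at k3
      have e1 : (2 : ℝ) / 2 ^ a = 1 / 2 ^ a + 1 / 2 ^ a := by ring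
      obtain ⟨δ₁, hδ₁⟩ : ∃ δ₁ : ℝ, δ₁ = 1 / 2 ^ a := ⟨_, rfl⟩
      rw [← hδ₁] at k1 k2 k3 e1
      rw [e1, abs_le]
      have a1 : -δ₁ + tco i₁ a F.x ω j ≤ z j + s * (z' j - z j) := by
        have b1 : 0 ≤ (1 - s) * (z j - tco i₁ a F.x ω j + δ₁) :=
          mul_nonneg (by linarith) (by linarith [k1.1])
        have b2 : 0 ≤ s * (z' j - tco i₁ a F.x ω j + δ₁) :=
          mul_nonneg hs0 (by linarith [k2.1])
        nlinarith
      have a2 : z j + s * (z' j - z j) ≤ tco i₁ a F.x ω j + δ₁ := by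
        have b1 : 0 ≤ (1 - s) * (tco i₁ a F.x ω j + δ₁ - z j) :=
          mul_nonneg (by linarith) (by linarith [k1.2])
        have b2 : 0 ≤ s * (tco i₁ a F.x ω j + δ₁ - z' j) :=
          mul_nonneg hs0 (by linarith [k2.2])
        nlinarith
      constructor <;> linarith [k3.1, k3.2]

/-- The own sheet passes through the sample. -/
theorem gfn_tps (F : Fam m J) (i₁ : Fin m) (G : F.Ω → MvPolynomial (Fin m) ℝ) (ω : F.Ω) :
    gfn F i₁ G ω (tps i₁ F.x ω) = eval (bp F i₁ ω) (G ω) := by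
  unfold gfn bp
  congr 2
  funext j
  by_cases hj : j = i₁
  · subst hj
    rw [Function.update_self, Function.update_self]
  · rw [Function.update_of_ne hj, Function.update_of_ne hj]
    unfold tps
    rw [if_neg hj]

/-- **(H5) on families.** The own sheets `G ω` have degree at most `K`, gradient at most `L` on the
ball around the sample, pass through the sample up to `2 ^ (-(e + r + h))`, and are within
`C0 / 2 ^ e` of the label of the context on the box, at the exact time. Inputs: the rows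
`(e + r, e + r + h]` are not full, the tangential digits are full given the static box, and the
digits of the shape to `e + X` given the static box to `e`. -/
theorem h5_fam (m K : ℕ) (L C0 : ℝ) (hL : 0 ≤ L) (hC0 : 0 ≤ C0) : ∃ C : ℝ, 0 ≤ C ∧
    ∀ (J : ℕ) (F : Fam m J) (i₁ : Fin m) (A : F.Ω → Prop) (a w q P e r h X : ℕ) (c d ε : ℝ)
      (G : F.Ω → MvPolynomial (Fin m) ℝ)
      (H : ((Fin m → ℝ) × (Fin m → ℝ)) × F.ζ × ℕ → MvPolynomial (Fin m) ℝ),
    IsLaw (Pool.Agent.H49.Ent.cond F.p A True) → w ≤ J → a ≤ w + q → a ≤ e + r → r + h ≤ X →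
    (∀ ω, A ω → (G ω).totalDegree ≤ K) →
    (∀ ω, A ω → ∀ b : Fin m → ℝ, (∀ j, |b j - bp F i₁ ω j| ≤ 2 / 2 ^ a) →
      ∀ j, |eval b (pderiv j (G ω))| ≤ L) →
    (∀ ω, A ω → |F.x ω i₁ - eval (bp F i₁ ω) (G ω)| ≤ 1 / 2 ^ (e + r + h)) →
    (∀ ω, A ω → NearB F i₁ a w q K P e C0 G H ω) →
    CH (Pool.Agent.H49.Ent.cond F.p A True) (F.X (e + r + h))
      (fun ω => (F.X (e + r) ω, F.W ω)) ≤ (m - c) * (h * Real.log 2) →
    ((m : ℝ) - 1) * (((e + r + h : ℕ) - (a : ℝ)) * Real.log 2) - d ≤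
      CH (Pool.Agent.H49.Ent.cond F.p A True) (tdg i₁ (e + r + h) F.x)
        (bxs F i₁ a e K G (r + h)) →
    CH (Pool.Agent.H49.Ent.cond F.p A True) (Sc F i₁ a e K G X) (bxs F i₁ a e K G 0) ≤ ε →
    CH (Pool.Agent.H49.Ent.cond F.p A True)
      (fun ω => ⌊(2 : ℝ) ^ (r + h) *
        nub e i₁ (plb F i₁ a w q ω (G ω)) (Rc F i₁ a w q K P H ω) (F.tw w ω)⌋)
      (fun ω => (⌊(2 : ℝ) ^ r *
        nub e i₁ (plb F i₁ a w q ω (G ω)) (Rc F i₁ a w q K P H ω) (F.tw w ω)⌋,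
          ctx F i₁ a w q P H ω, F.W ω)) ≤
      (1 - c) * (h * Real.log 2) + d + 2 * ε + C := by
  obtain ⟨C₁, hC₁, hbc⟩ := box_of_ctx m K
  obtain ⟨C₂, hC₂⟩ : ∃ C₂ : ℝ, C₂ = (mons m K).card * 3 ^ K := ⟨_, rfl⟩
  have hC₂0 : 0 ≤ C₂ := by rw [hC₂]; positivity
  refine ⟨m * Real.log 7 + (mons m K).card * Real.log (2 * (C₁ * C0 + 1) + 1) +
    (m + 3) * Real.log (2 * (m * L + C₂ + 4) + 1), ?_, ?_⟩
  · have l1 : 0 ≤ Real.log 7 := Real.log_nonneg (by norm_num)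
    have l2 : 0 ≤ Real.log (2 * (C₁ * C0 + 1) + 1) := by
      refine Real.log_nonneg ?_
      have : 0 ≤ C₁ * C0 := mul_nonneg (by linarith) hC0
      linarith
    have l3 : 0 ≤ Real.log (2 * (m * L + C₂ + 4) + 1) := by
      refine Real.log_nonneg ?_
      have : 0 ≤ (m : ℝ) * L := mul_nonneg (by positivity) hL
      linarith
    positivity
  intro J F i₁ A a w q P e r h X c d ε G H hp hw hq haP hrX hG hgr hx hbox hrow hfull hFR
  have hb := hbc J F i₁ A a w q P e C0 G H hp hw hq hC0 hG hbox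
  have h0 : (0 : ℝ) < 2 ^ a := by positivity
  have h12 : (1 : ℝ) / 2 ^ a ≤ 3 / 2 ^ a := div_le_div_of_nonneg_right (by norm_num) h0.le
  have h23 : (2 : ℝ) / 2 ^ a ≤ 3 / 2 ^ a := div_le_div_of_nonneg_right (by norm_num) h0.le
  have key := h5_sheet hp i₁ F.x (gfn F i₁ G) F.W (Sc F i₁ a e K G) (ctx F i₁ a w q P H)
    (rce i₁ J w K P) (cen i₁ J a w q) a e r h X (L := m * L) (C := C₂) (ρ := 3 / 2 ^ a)
    (c := c) (d := d) (e := ε) (e₀ := m * Real.log 7 +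
      (mons m K).card * Real.log (2 * (C₁ * C0 + 1) + 1))
    (mul_nonneg (by positivity) hL) hC₂0 haP hrX h12
    (fun ω hω => gfn_lip F i₁ hL G ω (hgr ω (of_cond_pos hω)))
    (by
      intro s _ ω ω' hω hω' _ hc hs z hz
      rw [hC₂]
      exact Sc_shape F i₁ a e K G s (hG ω (of_cond_pos hω)) (hG ω' (of_cond_pos hω')) hc hs z hz)
    (fun s s' hs _ ω ω' _ _ he => Sc_nest F i₁ a e K G hs he)
    (by
      intro ω hω
      rw [gfn_tps]
      exact hx ω (of_cond_pos hω))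
    (fun ω _ j => (cen_tco F i₁ hw hq P H ω j).trans h23)
    hrow hfull hFR hb
  simp only [nub_eq F i₁ a w q K P e G H]
  linarith

end fam

end Pool.SLP
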