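import Pool.Agent.H81.OC.Chains

/-!
# (H5): accounting in one static box, and the choice of the context

`x`, `x'` are the coarse and the fine position, `w`, `w'` their tangential digits, `B`, `B'` the
coarse and the fine static box (with the time `t`), `n`, `n'` the coarse and the fine height inside
the context `b`. If the rows of the position are not full, if the tangential digits are full given
the fine box and if the boxes are functions of the position, resp. of the context and the height, up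
to small entropy, the rows of the height inside the context are not full.
-/

set_option autoImplicit false

namespace Pool.SLP

open Finset Real
open Pool.Agent.H49.Ent Pool.Agent.H32.Dense Pool.STK Pool.KAF

variable {Ω : Type} [Fintype Ω] {p : Ω → ℝ}

/-- **Accounting of one block in one static box.** `k₁` is the number of nats of the tangential
digits between the box and the coarse position, `k₂` of those up to the fine position, `q` bounds
the entropy of the fine position given the coarse one. -/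
theorem h5_acc {τ β X₁ X₂ W₁ W₂ B₁ B₂ N₁ N₂ : Type} (hp : ∀ ω, 0 ≤ p ω) (t : Ω → τ) (b : Ω → β)
    (x : Ω → X₁) (x' : Ω → X₂) (w : Ω → W₁) (w' : Ω → W₂) (B : Ω → B₁) (B' : Ω → B₂)
    (n : Ω → N₁) (n' : Ω → N₂) {k₁ k₂ q d e₁ e₂ e₃ e₄ : ℝ}
    (hxw : Det p x' w') (hBt : Det p B t) (hBB : Det p B' B)
    (h1 : CH p x' (fun ω => (x ω, t ω)) ≤ q)
    (h2 : k₂ - d ≤ CH p w' B')
    (h3 : CH p w B ≤ k₁)
    (h4 : CH p x (fun ω => (w ω, B ω)) ≤ e₁)
    (h5 : CH p B' (fun ω => (x' ω, B ω)) ≤ e₂)
    (h6 : CH p B (fun ω => (n ω, b ω, t ω)) ≤ e₃)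
    (h7 : CH p n' (fun ω => (B' ω, b ω, t ω)) ≤ e₄) :
    CH p n' (fun ω => (n ω, b ω, t ω)) ≤ q - (k₂ - k₁) + d + e₁ + e₂ + e₃ + e₄ := by
  -- the fine box given the coarse one
  have a1 : CH p B' B ≤ q - (k₂ - k₁) + d + e₁ + e₂ := by
    have c1 := CH_chain hp w' B' B
    have c2 : CH p w' B' ≤ CH p w' (fun ω => (B' ω, B ω)) := by
      refine CH_mono_cond hp ?_
      intro ω ω' h h' e
      exact Prod.ext e (hBB ω ω' h h' e)
    have c3 : CH p (fun ω => (w' ω, B' ω)) B ≤ CH p (fun ω => (x' ω, B' ω)) B := by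
      refine CH_mono_left hp ?_
      intro ω ω' h h' e
      have e1 := Prod.ext_iff.1 e
      have e2 := Prod.ext_iff.1 e1.1
      exact Prod.ext (hxw ω ω' h h' e2.1) e2.2
    have c4 := CH_le_add hp (fun ω => (x' ω, B' ω)) w B
    have c5 := CH_le_add hp (fun ω => (x' ω, B' ω)) x (fun ω => (w ω, B ω))
    have c6 := CH_le_add hp (fun ω => (x' ω, B' ω)) x' (fun ω => (x ω, (w ω, B ω)))
    have c7 : CH p x' (fun ω => (x ω, (w ω, B ω))) ≤ CH p x' (fun ω => (x ω, t ω)) := by
      refine CH_mono_cond hp ?_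
      intro ω ω' h h' e
      have e1 := Prod.ext_iff.1 e
      have e2 := Prod.ext_iff.1 e1.2
      exact Prod.ext e1.1 (hBt ω ω' h h' e2.2)
    have c8 : CH p (fun ω => (x' ω, B' ω)) (fun ω => (x' ω, (x ω, (w ω, B ω)))) ≤
        CH p B' (fun ω => (x' ω, B ω)) := by
      have d1 : CH p (fun ω => (x' ω, B' ω)) (fun ω => (x' ω, (x ω, (w ω, B ω)))) ≤
          CH p B' (fun ω => (x' ω, (x ω, (w ω, B ω)))) := by
        refine CH_mono_left hp ?_
        intro ω ω' _ _ e
        have e1 := Prod.ext_iff.1 e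
        have e2 := Prod.ext_iff.1 e1.2
        exact Prod.ext e2.1 e1.1
      refine d1.trans (CH_mono_cond hp ?_)
      intro ω ω' _ _ e
      have e1 := Prod.ext_iff.1 e
      have e2 := Prod.ext_iff.1 e1.2
      have e3 := Prod.ext_iff.1 e2.2
      exact Prod.ext e1.1 e3.2
    linarith
  -- the fine height given the coarse height and the context
  have b1 := CH_le_add hp n' B (fun ω => (n ω, b ω, t ω))
  have b2 := CH_le_add hp n' B' (fun ω => (B ω, (n ω, b ω, t ω)))
  have b3 : CH p B' (fun ω => (B ω, (n ω, b ω, t ω))) ≤ CH p B' B := by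
    refine CH_mono_cond hp ?_
    intro ω ω' _ _ e
    exact (Prod.ext_iff.1 e).1
  have b4 : CH p n' (fun ω => (B' ω, (B ω, (n ω, b ω, t ω)))) ≤
      CH p n' (fun ω => (B' ω, b ω, t ω)) := by
    refine CH_mono_cond hp ?_
    intro ω ω' _ _ e
    have e1 := Prod.ext_iff.1 e
    have e2 := Prod.ext_iff.1 e1.2
    exact Prod.ext e1.1 (Prod.ext_iff.1 e2.2).2
  linarith

open Classical in
/-- **Choice of the context.** If on every event of probability at least `δ` the entropy of the
blocks given the context is less than `h`, then for all contexts outside a set of probability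
`δ * card R / π₀` this holds on every event of conditional probability at least `π₀`. -/
theorem h5_ctx {β R S T : Type} [Fintype R] [Nonempty R] (hp : IsLaw p) (b : Ω → β)
    (Y : R → Ω → S) (C : R → Ω → T) (h δ π₀ : ℝ) (hπ : 0 < π₀) (hδ : 0 < δ)
    (H : ∀ E : Set Ω, δ ≤ Pr p E → ∀ r, CH (rs p E) (Y r) (fun ω => (C r ω, b ω)) < h) :
    Pr p {ω | ∃ (r : R) (E : Set Ω), π₀ ≤ Pr (Pool.Agent.H49.Ent.cond p b (b ω)) E ∧
      h ≤ CH (rs (Pool.Agent.H49.Ent.cond p b (b ω)) E) (Y r) (C r)} ≤
        δ * Fintype.card R / π₀ := by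
  by_contra hcon
  rw [not_le] at hcon
  have hR : (0 : ℝ) < Fintype.card R := by exact_mod_cast Fintype.card_pos
  obtain ⟨good, hgood⟩ : ∃ good : Set β, good = {z | ∃ (r : R) (E : Set Ω),
    π₀ ≤ Pr (Pool.Agent.H49.Ent.cond p b z) E ∧
      h ≤ CH (rs (Pool.Agent.H49.Ent.cond p b z) E) (Y r) (C r)} := ⟨_, rfl⟩
  have key : ∀ z, ∃ (r : R) (E : Set Ω), z ∈ good →
      π₀ ≤ Pr (Pool.Agent.H49.Ent.cond p b z) E ∧
        h ≤ CH (rs (Pool.Agent.H49.Ent.cond p b z) E) (Y r) (C r) := by
    intro z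
    by_cases hz : z ∈ good
    · have h1 := hz
      rw [hgood] at h1
      obtain ⟨r, E, h2⟩ := h1
      exact ⟨r, E, fun _ => h2⟩
    · exact ⟨Classical.arbitrary R, ∅, fun h => absurd h hz⟩
  choose r E hrE using key
  have hβ : 0 < δ * Fintype.card R / π₀ := by positivity
  obtain ⟨r₀, A, h1, h2⟩ := Pool.OCH.uni hp b good E r Y C h π₀ (δ * Fintype.card R / π₀) hπ hβ
    (fun z hz _ => hrE z hz) (by
      have e : {ω | b ω ∈ good} = {ω | ∃ (r : R) (E : Set Ω),
          π₀ ≤ Pr (Pool.Agent.H49.Ent.cond p b (b ω)) E ∧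
          h ≤ CH (rs (Pool.Agent.H49.Ent.cond p b (b ω)) E) (Y r) (C r)} := by
        rw [hgood]
        rfl
      rw [e]
      exact hcon.le)
  have h3 : π₀ * (δ * Fintype.card R / π₀) / Fintype.card R = δ := by
    field_simp
  rw [h3] at h1
  exact absurd h2 (not_le.2 (H A h1 r₀))

end Pool.SLP
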