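import Pool.Agent.H7.SLP.H5N
import Pool.Agent.H81.SLP.Ctx3

/-!
# The digits of the shape in the context

`box_of_ctx'`: the static box is a function of the context and the time up to boundedly many
values, for any law. `shd_of_box`: the digits of the shape over the label of the context are
governed by the digits of the shape given the static box.
-/

set_option autoImplicit false

namespace Pool.SLP

open Finset Real MvPolynomial
open Pool.Agent.H49.Ent Pool.Agent.H32.Dense Pool.STK Pool.KAF Pool.KA Pool.KSAT Pool.K2S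
open Pool.PB Pool.SLO Pool.KAL

/-- Entropy of a vector of integers indexed by a finite type. -/
theorem ch_fin {ι Ω T : Type} [Fintype ι] [Fintype Ω] {p : Ω → ℝ} (hp : IsLaw p)
    (X : Ω → ι → ℤ) (W : Ω → T) (L : ℝ)
    (hX : ∀ ω ω', 0 < p ω → 0 < p ω' → W ω = W ω' → ∀ i,
      |((X ω i - X ω' i : ℤ) : ℝ)| ≤ L) : CH p X W ≤ Fintype.card ι * Real.log (2 * L + 1) := by
  classical
  obtain ⟨e⟩ : Nonempty (Fin (Fintype.card ι) ≃ ι) := ⟨(Fintype.equivFin ι).symm⟩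
  have h1 := CH_le_vec hp.nonneg hp.sum_one (fun ω (k : Fin (Fintype.card ι)) => X ω (e k)) W
    (fun _ => L) (fun ω ω' h h' hw k => hX ω ω' h h' hw _)
  rw [Ex_const hp.sum_one] at h1
  refine le_trans (CH_mono_left hp.nonneg ?_) h1
  intro ω ω' _ _ he
  funext i
  have e2 := congrFun (Prod.ext_iff.1 he).1 (e.symm i)
  simp only [Equiv.apply_symm_apply] at e2
  exact e2

section fam

variable {m J : ℕ}

/-- **The static box is a function of the context and the time**, up to boundedly many values,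
for any law. -/
theorem box_of_ctx' (m K : ℕ) : ∃ C : ℝ, 1 ≤ C ∧ ∀ (J : ℕ) (F : Fam m J) (i₁ : Fin m)
    (p : F.Ω → ℝ) (a w q P e : ℕ) (C0 : ℝ) (G : F.Ω → MvPolynomial (Fin m) ℝ)
    (H : ((Fin m → ℝ) × (Fin m → ℝ)) × F.ζ × ℕ → MvPolynomial (Fin m) ℝ),
    IsLaw p → w ≤ J → a ≤ w + q → 0 ≤ C0 →
    (∀ ω, 0 < p ω → (G ω).totalDegree ≤ K) →
    (∀ ω, 0 < p ω → NearB F i₁ a w q K P e C0 G H ω) →
    CH p (bxs F i₁ a e K G 0) (fun ω => (ctx F i₁ a w q P H ω, F.W ω)) ≤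
        m * Real.log 7 + (mons m K).card * Real.log (2 * (C * C0 + 1) + 1) := by
  obtain ⟨C₁, hC₁, hcl⟩ := cpl_close m K
  refine ⟨2 * C₁, by linarith, ?_⟩
  intro J F i₁ p a w q P e C0 G H hp hw hq hC0 hG hbox
  have hnn := hp.nonneg
  have hpp : (0 : ℝ) < 2 ^ (e + 0) := by positivity
  have c1 := CH_le_add hnn (bxs F i₁ a e K G 0) (tdg i₁ a F.x)
    (fun ω => (ctx F i₁ a w q P H ω, F.W ω))
  have c2 := tdg_ctx hp i₁ hw hq P H
  have c3 : CH p (bxs F i₁ a e K G 0)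
      (fun ω => (tdg i₁ a F.x ω, (ctx F i₁ a w q P H ω, F.W ω))) ≤
        (mons m K).card * Real.log (2 * (2 * C₁ * C0 + 1) + 1) := by
    refine ch_mons hp (mons m K) (fun ω => hz (e + 0) (cpl F i₁ a G ω)) _ _ _ ?_ ?_
    · intro ω ω' hω hω' he al _
      have g1 : tdg i₁ a F.x ω = tdg i₁ a F.x ω' := (Prod.ext_iff.1 he).1
      have g2 : ctx F i₁ a w q P H ω = ctx F i₁ a w q P H ω' :=
        (Prod.ext_iff.1 (Prod.ext_iff.1 he).2).1
      have g3 : F.W ω = F.W ω' := (Prod.ext_iff.1 (Prod.ext_iff.1 he).2).2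
      have k3 := hcl J F i₁ a w q P e C0 G H ω ω' hw hq (hG ω hω) (hG ω' hω') (hbox ω hω)
        (hbox ω' hω') g1 g2 g3 al
      unfold SLO.hz
      refine Pool.OCT.floor_diff (L := 2 * C₁ * C0) ?_
      rw [← mul_sub, abs_mul, abs_of_pos hpp]
      refine (mul_le_mul_of_nonneg_left k3 hpp.le).trans (le_of_eq ?_)
      rw [Nat.add_zero]
      field_simp
    · intro ω ω' _ _ he hf
      exact bxs_of_hz F i₁ a e K G 0 (Prod.ext_iff.1 (Prod.ext_iff.1 he).2).2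
        (Prod.ext_iff.1 he).1 hf
  linarith

end fam

section shape

variable {k J : ℕ}

/-- Two samples with the same context, time, cell and digits of the shape have close shapes over
the label of the context. -/
theorem shw_close (k K : ℕ) : ∃ C : ℝ, 1 ≤ C ∧ ∀ (J : ℕ) (F : Fam (k + 1) J) (i₁ : Fin (k + 1))
    (a w q P e X : ℕ) (G : F.Ω → MvPolynomial (Fin (k + 1)) ℝ)
    (H : ((Fin (k + 1) → ℝ) × (Fin (k + 1) → ℝ)) × F.ζ × ℕ → MvPolynomial (Fin (k + 1)) ℝ)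
    (ω ω' : F.Ω), w ≤ J → a ≤ w + q → (G ω).totalDegree ≤ K → (G ω').totalDegree ≤ K →
    tdg i₁ a F.x ω = tdg i₁ a F.x ω' → Sc F i₁ a e K G X ω = Sc F i₁ a e K G X ω' →
    ctx F i₁ a w q P H ω = ctx F i₁ a w q P H ω' → F.W ω = F.W ω' → ∀ al : Pool.M5.Mon k K,
      |shw F i₁ a w q K P e H G ω al - shw F i₁ a w q K P e H G ω' al| ≤ C / 2 ^ X := by
  classical
  obtain ⟨C₁, hC₁, hcoef⟩ := coef_cube k K
  obtain ⟨N, hN⟩ : ∃ N : ℝ, N = ((mons (k + 1) K).card * 3 ^ K : ℝ) := ⟨_, rfl⟩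
  have hN0 : 0 ≤ N := by rw [hN]; positivity
  refine ⟨C₁ * N + 1, by nlinarith, ?_⟩
  intro J F i₁ a w q P e X G H ω ω' hw hq hG hG' g1 gS g2 g3 al
  have h0 : (0 : ℝ) < 2 ^ a := by positivity
  have g4 : tco i₁ a F.x ω = tco i₁ a F.x ω' := tco_eq i₁ F.x g1
  have t1 := (ctx_ext g2).1
  have t7 := (ctx_ext g2).2.2.2.2.2.2.1 K
  have t8 : F.T ω = F.T ω' := (Prod.ext_iff.1 g3).1
  have t9 : F.tw w ω = F.tw w ω' := by
    unfold Fam.tw Fam.t
    rw [t1, t8]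
  obtain ⟨D, hD⟩ : ∃ D : MvPolynomial (Fin k) ℝ, D = sect i₁ (F.tw w ω)
      (plb F i₁ a w q ω (G ω) - plb F i₁ a w q ω' (G ω')) := ⟨_, rfl⟩
  obtain ⟨δ, hδ⟩ : ∃ δ : ℝ, δ = gfn F i₁ G ω (tco i₁ a F.x ω) -
      gfn F i₁ G ω' (tco i₁ a F.x ω) := ⟨_, rfl⟩
  have hal0 : (Finsupp.equivFunOnFinite.symm (al : Fin k → ℕ) : Fin k →₀ ℕ) ≠ 0 := by
    intro hcon
    have h1 := (Finset.mem_filter.1 al.2).2.1
    have h2 : (al : Fin k → ℕ) = 0 := by
      funext i
      have := DFunLike.congr_fun hcon i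
      simpa using this
    rw [h2] at h1
    simp at h1
  have hdif : shw F i₁ a w q K P e H G ω al - shw F i₁ a w q K P e H G ω' al =
      2 ^ e * coeff (Finsupp.equivFunOnFinite.symm (al : Fin k → ℕ)) (D - C δ) := by
    rw [coeff_sub, coeff_C, if_neg (Ne.symm hal0), sub_zero, hD]
    unfold shw shc
    rw [← t7, ← t9, ← mul_sub, ← coeff_sub]
    congr 2
    unfold sect
    rw [← map_sub]
    congr 1
    ring
  have hdeg : (D - C δ).totalDegree ≤ K := by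
    refine (totalDegree_sub _ _).trans (max_le ?_ ?_)
    · rw [hD]
      refine (totalDegree_sect_le _ _ _).trans ((totalDegree_sub _ _).trans (max_le ?_ ?_))
      · exact (totalDegree_pull_le _ _ _ _ _ _).trans hG
      · exact (totalDegree_pull_le _ _ _ _ _ _).trans hG'
    · rw [totalDegree_C]
      exact Nat.zero_le _
  have hcube : coefSum (D - C δ) ≤ C₁ * (N / 2 ^ (e + X)) := by
    refine hcoef _ _ (fun _ => 0) hdeg (fun _ => by simp) ?_
    intro z hz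
    obtain ⟨b, hb⟩ : ∃ b : Fin (k + 1) → ℝ,
      b = Fin.insertNth (α := fun _ => ℝ) i₁ (F.tw w ω) z := ⟨_, rfl⟩
    have hb1 : b i₁ = F.tw w ω := by
      rw [hb]
      exact Fin.insertNth_apply_same _ _ _
    have hb2 : ∀ j, j ≠ i₁ → 0 ≤ b j ∧ b j ≤ 1 := by
      intro j
      rw [hb]
      refine Fin.succAboveCases (α := fun j => j ≠ i₁ → 0 ≤ Fin.insertNth (α := fun _ => ℝ) i₁
        (F.tw w ω) z j ∧ Fin.insertNth (α := fun _ => ℝ) i₁ (F.tw w ω) z j ≤ 1) i₁ ?_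
        (fun j => ?_) j
      · exact fun h => absurd rfl h
      · intro _
        rw [Fin.insertNth_apply_succAbove]
        have := hz j
        simp only [zero_add] at this
        exact this
    obtain ⟨y, hy⟩ : ∃ y : Fin (k + 1) → ℝ, y = fun j => if j = i₁ then 0 else b j +
      2 ^ a * (cen i₁ J a w q (ctx F i₁ a w q P H ω) (F.W ω) j - tco i₁ a F.x ω j) := ⟨_, rfl⟩
    have hy3 : ∀ j, |y j| ≤ 3 := by
      intro j
      rw [hy]
      by_cases hj : j = i₁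
      · simp only [if_pos hj, abs_zero]
        norm_num
      · simp only [if_neg hj]
        have k1 := cen_tco F i₁ hw hq P H ω j
        have k2 := hb2 j hj
        have k3 : |(2 : ℝ) ^ a * (cen i₁ J a w q (ctx F i₁ a w q P H ω) (F.W ω) j -
            tco i₁ a F.x ω j)| ≤ 2 := by
          rw [abs_mul, abs_of_pos h0]
          calc (2 : ℝ) ^ a * |cen i₁ J a w q (ctx F i₁ a w q P H ω) (F.W ω) j -
                tco i₁ a F.x ω j| ≤ 2 ^ a * (2 / 2 ^ a) := mul_le_mul_of_nonneg_left k1 h0.le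
            _ = 2 := by field_simp
        rw [abs_le] at k3 ⊢
        constructor <;> linarith [k3.1, k3.2, k2.1, k2.2]
    have hbb : (fun j => if j = i₁ then F.tw w ω else
        y j - 2 ^ a * (cen i₁ J a w q (ctx F i₁ a w q P H ω) (F.W ω) j -
          tco i₁ a F.x ω j)) = b := by
      funext j
      by_cases hj : j = i₁
      · rw [if_pos hj, hj, hb1]
      · rw [if_neg hj, hy]
        simp only [if_neg hj]
        ring
    have e1 : eval b (plb F i₁ a w q ω (G ω)) =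
        gfn F i₁ G ω (fun i => tco i₁ a F.x ω i + 1 / 2 ^ a * y i) := by
      rw [← eval_cpl, eval_cell_box F i₁ a w q P G H ω y, hbb]
    have e2 : eval b (plb F i₁ a w q ω' (G ω')) =
        gfn F i₁ G ω' (fun i => tco i₁ a F.x ω i + 1 / 2 ^ a * y i) := by
      rw [g4, ← eval_cpl, eval_cell_box F i₁ a w q P G H ω' y, ← g2, ← g3, ← g4, ← t9, hbb]
    have k := Sc_shape F i₁ a e K G X hG hG' g1 gS
      (fun i => tco i₁ a F.x ω i + 1 / 2 ^ a * y i) (by
        intro i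
        have e3 : tco i₁ a F.x ω i + 1 / 2 ^ a * y i - tco i₁ a F.x ω i = 1 / 2 ^ a * y i := by
          ring
        rw [e3, abs_mul, abs_of_pos (by positivity : (0 : ℝ) < 1 / 2 ^ a)]
        calc 1 / 2 ^ a * |y i| ≤ 1 / 2 ^ a * 3 :=
              mul_le_mul_of_nonneg_left (hy3 i) (by positivity)
          _ = 3 / 2 ^ a := by ring)
    rw [← hN] at k
    rw [hD, map_sub, eval_sect, ← hb, map_sub, e1, e2, eval_C, hδ]
    obtain ⟨A1, hA1⟩ : ∃ A1 : ℝ, A1 = gfn F i₁ G ω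
      (fun i => tco i₁ a F.x ω i + 1 / 2 ^ a * y i) := ⟨_, rfl⟩
    obtain ⟨A2, hA2⟩ : ∃ A2 : ℝ, A2 = gfn F i₁ G ω'
      (fun i => tco i₁ a F.x ω i + 1 / 2 ^ a * y i) := ⟨_, rfl⟩
    rw [← hA1, ← hA2] at k ⊢
    have e4 : A1 - A2 - (gfn F i₁ G ω (tco i₁ a F.x ω) - gfn F i₁ G ω' (tco i₁ a F.x ω)) =
        A1 - gfn F i₁ G ω (tco i₁ a F.x ω) - (A2 - gfn F i₁ G ω' (tco i₁ a F.x ω)) := by
      ring
    rw [← g4] at k
    rw [e4]
    exact k
  have h2 := (abs_coeff_le (D - C δ) (Finsupp.equivFunOnFinite.symm (al : Fin k → ℕ))).trans hcube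
  rw [hdif, abs_mul, abs_of_pos (by positivity : (0 : ℝ) < 2 ^ e)]
  calc (2 : ℝ) ^ e * |coeff (Finsupp.equivFunOnFinite.symm (al : Fin k → ℕ)) (D - C δ)| ≤
      2 ^ e * (C₁ * (N / 2 ^ (e + X))) := mul_le_mul_of_nonneg_left h2 (by positivity)
    _ = C₁ * N / 2 ^ X := by
        rw [pow_add]
        field_simp
    _ ≤ (C₁ * N + 1) / 2 ^ X := div_le_div_of_nonneg_right (by linarith) (by positivity)

/-- **The digits of the shape in the context** from the digits of the shape given the static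
box. -/
theorem shd_of_box (k K : ℕ) (C0 : ℝ) (hC0 : 0 ≤ C0) : ∃ C : ℝ, 0 ≤ C ∧ ∀ (J : ℕ)
    (F : Fam (k + 1) J) (i₁ : Fin (k + 1)) (p : F.Ω → ℝ) (a w q P e X : ℕ)
    (G : F.Ω → MvPolynomial (Fin (k + 1)) ℝ)
    (H : ((Fin (k + 1) → ℝ) × (Fin (k + 1) → ℝ)) × F.ζ × ℕ → MvPolynomial (Fin (k + 1)) ℝ),
    IsLaw p → w ≤ J → a ≤ w + q → (∀ ω, 0 < p ω → (G ω).totalDegree ≤ K) →
    (∀ ω, 0 < p ω → NearB F i₁ a w q K P e C0 G H ω) →
    CH p (shd F i₁ a w q K P e X H G) (fun ω => (ctx F i₁ a w q P H ω, F.W ω)) ≤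
      CH p (Sc F i₁ a e K G X) (bxs F i₁ a e K G 0) + C := by
  obtain ⟨C₁, hC₁, hbx⟩ := box_of_ctx' (k + 1) K
  obtain ⟨C₂, hC₂, hsh⟩ := shw_close k K
  have hl7 : 0 ≤ Real.log 7 := Real.log_nonneg (by norm_num)
  have hl1 : 0 ≤ Real.log (2 * (C₁ * C0 + 1) + 1) := Real.log_nonneg (by nlinarith)
  have hl2 : 0 ≤ Real.log (2 * (C₂ + 1) + 1) := Real.log_nonneg (by linarith)
  refine ⟨((k + 1 : ℕ) * Real.log 7 + (mons (k + 1) K).card * Real.log (2 * (C₁ * C0 + 1) + 1)) +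
    Fintype.card (Pool.M5.Mon k K) * Real.log (2 * (C₂ + 1) + 1), by positivity, ?_⟩
  intro J F i₁ p a w q P e X G H hp hw hq hG hbox
  have hnn := hp.nonneg
  have c1 := CH_le_add hnn (shd F i₁ a w q K P e X H G) (bxs F i₁ a e K G 0)
    (fun ω => (ctx F i₁ a w q P H ω, F.W ω))
  have c2 := CH_le_add hnn (shd F i₁ a w q K P e X H G) (Sc F i₁ a e K G X)
    (fun ω => (bxs F i₁ a e K G 0 ω, (ctx F i₁ a w q P H ω, F.W ω)))
  have c3 : CH p (Sc F i₁ a e K G X)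
      (fun ω => (bxs F i₁ a e K G 0 ω, (ctx F i₁ a w q P H ω, F.W ω))) ≤
      CH p (Sc F i₁ a e K G X) (bxs F i₁ a e K G 0) :=
    CH_mono_cond hnn (fun ω ω' _ _ h => (Prod.ext_iff.mp h).1)
  have c4 := hbx J F i₁ p a w q P e C0 G H hp hw hq hC0 hG hbox
  have c5 : CH p (shd F i₁ a w q K P e X H G) (fun ω => (Sc F i₁ a e K G X ω,
      (bxs F i₁ a e K G 0 ω, (ctx F i₁ a w q P H ω, F.W ω)))) ≤
      Fintype.card (Pool.M5.Mon k K) * Real.log (2 * (C₂ + 1) + 1) := by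
    refine ch_fin hp _ _ _ ?_
    intro ω ω' hω hω' he al
    have g0 := (Prod.ext_iff.1 he).1
    have g1 : bxs F i₁ a e K G 0 ω = bxs F i₁ a e K G 0 ω' :=
      (Prod.ext_iff.1 (Prod.ext_iff.1 he).2).1
    have g2 : ctx F i₁ a w q P H ω = ctx F i₁ a w q P H ω' :=
      (Prod.ext_iff.1 (Prod.ext_iff.1 (Prod.ext_iff.1 he).2).2).1
    have g3 : F.W ω = F.W ω' :=
      (Prod.ext_iff.1 (Prod.ext_iff.1 (Prod.ext_iff.1 he).2).2).2
    have g4 : tdg i₁ a F.x ω = tdg i₁ a F.x ω' :=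
      (Prod.ext_iff.1 (Prod.ext_iff.1 g1).2).1
    have k1 := hsh J F i₁ a w q P e X G H ω ω' hw hq (hG ω hω) (hG ω' hω') g4 g0 g2 g3 al
    unfold shd
    refine Pool.OCT.floor_diff (L := C₂) ?_
    rw [← mul_sub, abs_mul, abs_of_pos (by positivity : (0 : ℝ) < 2 ^ X)]
    calc (2 : ℝ) ^ X * |shw F i₁ a w q K P e H G ω al - shw F i₁ a w q K P e H G ω' al| ≤
        2 ^ X * (C₂ / 2 ^ X) := mul_le_mul_of_nonneg_left k1 (by positivity)
      _ = C₂ := by field_simp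
  linarith

end shape

end Pool.SLP
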