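import Pool.Agent.H7.SLP.H5L

/-!
# (H5) on families: the static box as a function of the context
-/

set_option autoImplicit false

namespace Pool.SLP

open Finset Real MvPolynomial
open Pool.Agent.H49.Ent Pool.Agent.H32.Dense Pool.STK Pool.KAF Pool.KA Pool.KSAT Pool.K2S
open Pool.PB Pool.SLO Pool.KAL

section fam

variable {m J : ℕ}

/-- Entropy of a variable which is determined by finitely many integers of bounded range. -/
theorem ch_mons {Ω S T : Type} [Fintype Ω] {p : Ω → ℝ} (hp : IsLaw p) (M : Finset (Fin m →₀ ℕ))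
    (X : Ω → (Fin m →₀ ℕ) → ℤ) (Y : Ω → S) (W : Ω → T) (L : ℝ)
    (hX : ∀ ω ω', 0 < p ω → 0 < p ω' → W ω = W ω' → ∀ al ∈ M,
      |((X ω al - X ω' al : ℤ) : ℝ)| ≤ L)
    (hY : ∀ ω ω', 0 < p ω → 0 < p ω' → W ω = W ω' → (∀ al ∈ M, X ω al = X ω' al) →
      Y ω = Y ω') : CH p Y W ≤ M.card * Real.log (2 * L + 1) := by
  classical
  obtain ⟨e⟩ : Nonempty (Fin M.card ≃ {al // al ∈ M}) :=
    ⟨(Fintype.equivFinOfCardEq (by simp)).symm⟩
  have h1 := CH_le_vec hp.nonneg hp.sum_one (fun ω (k : Fin M.card) => X ω (e k).1) W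
    (fun _ => L) (fun ω ω' h h' hw k => hX ω ω' h h' hw _ (e k).2)
  rw [Ex_const hp.sum_one] at h1
  refine le_trans ?_ h1
  have h2 := CH_le_add hp.nonneg Y (fun ω (k : Fin M.card) => X ω (e k).1) W
  have h3 : CH p Y (fun ω => ((fun k : Fin M.card => X ω (e k).1), W ω)) ≤ 0 := by
    refine le_of_eq (CH_eq_zero hp.nonneg ?_)
    intro ω ω' hω hω' he
    have e1 := Prod.ext_iff.1 he
    refine hY ω ω' hω hω' e1.2 fun al hal => ?_
    have e2 := congrFun e1.1 (e.symm ⟨al, hal⟩)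
    simp only [Equiv.apply_symm_apply] at e2
    exact e2
  linarith

/-- The centre of the box of the context at the time of the sample, as a function of the context
and of the time. -/
noncomputable def cen (i₁ : Fin m) (J a w q : ℕ) {ζ : Type}
    (b : ((ℕ × ((Fin m → ℤ) × (Fin m → ℤ))) × ((Fin m →₀ ℕ) → ℤ)) × ζ) (W : ℕ × ζ) :
    Fin m → ℝ := fun j =>
  if j = i₁ then 0 else (b.1.1.2.1 j : ℝ) / 2 ^ a + (b.1.1.2.2 j : ℝ) / 2 ^ q *
    ((2 ^ w * ((W.1 : ℝ) / 2 ^ J) - b.1.1.1) / 2 ^ w)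

/-- The height of the rounded label over the centre of the box. -/
noncomputable def rce (i₁ : Fin m) (J w K P : ℕ) {ζ : Type}
    (b : ((ℕ × ((Fin m → ℤ) × (Fin m → ℤ))) × ((Fin m →₀ ℕ) → ℤ)) × ζ) (W : ℕ × ζ) : ℝ :=
  eval (pnt i₁ 0 0 (2 ^ w * ((W.1 : ℝ) / 2 ^ J) - b.1.1.1)) (rdz K P b.1.2)

theorem cen_eq (F : Fam m J) (i₁ : Fin m) (a w q P : ℕ)
    (H : ((Fin m → ℝ) × (Fin m → ℝ)) × F.ζ × ℕ → MvPolynomial (Fin m) ℝ) (ω : F.Ω) (j : Fin m) :
    cen i₁ J a w q (ctx F i₁ a w q P H ω) (F.W ω) j =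
      if j = i₁ then 0 else cw F i₁ a w ω j + dq F i₁ q ω j * (F.tw w ω / 2 ^ w) := by
  unfold cen
  by_cases hj : j = i₁
  · rw [if_pos hj, if_pos hj]
  · rw [if_neg hj, if_neg hj, cw_eq, dq_eq]
    simp only [if_neg hj]
    rfl

theorem tw_mem' (F : Fam m J) {w : ℕ} (hw : w ≤ J) (ω : F.Ω) :
    0 ≤ F.tw w ω ∧ F.tw w ω < 1 := T1_real F hw ω

/-- The position relative to the centre of the box. -/
theorem cen_near (F : Fam m J) (i₁ : Fin m) {a w q : ℕ} (hw : w ≤ J) (hq : a ≤ w + q) (P : ℕ)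
    (H : ((Fin m → ℝ) × (Fin m → ℝ)) × F.ζ × ℕ → MvPolynomial (Fin m) ℝ) (ω : F.Ω) (j : Fin m)
    (hj : ¬ j = i₁) :
    0 ≤ F.x ω j - cen i₁ J a w q (ctx F i₁ a w q P H ω) (F.W ω) j ∧
      F.x ω j - cen i₁ J a w q (ctx F i₁ a w q P H ω) (F.W ω) j ≤ 2 / 2 ^ a := by
  have h1 := congrFun (sb_pb F i₁ a w q ω) j
  unfold sb bp at h1
  rw [if_neg hj, Function.update_of_ne hj] at h1
  rw [cen_eq, if_neg hj]
  have h2 : pb F i₁ a w q ω i₁ = F.tw w ω := by
    unfold pb pnt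
    rw [if_pos rfl]
  have h3 : pb F i₁ a w q ω j = yb F i₁ a w ω j + F.tw w ω * omb F i₁ a w q ω j := by
    unfold pb pnt
    rw [if_neg hj]
  have h4 := yb_mem F i₁ a w ω j
  have h5 := omb_mem F i₁ a w q ω j
  have h6 := tw_mem' F hw ω
  have h7 : (2 : ℝ) ^ a / (2 ^ w * 2 ^ q) ≤ 1 := by
    rw [div_le_one (by positivity), ← pow_add]
    exact pow_le_pow_right₀ (by norm_num) hq
  have h8 : F.tw w ω * omb F i₁ a w q ω j ≤ 1 * 1 :=
    mul_le_mul h6.2.le (h5.2.trans h7) h5.1 (by norm_num)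
  have h9 : 0 ≤ F.tw w ω * omb F i₁ a w q ω j := mul_nonneg h6.1 h5.1
  rw [h2, h3] at h1
  have h0 : (0 : ℝ) < 2 ^ a := by positivity
  rw [← h1]
  have e : cw F i₁ a w ω j + dq F i₁ q ω j * (F.tw w ω / 2 ^ w) +
      (yb F i₁ a w ω j + F.tw w ω * omb F i₁ a w q ω j) / 2 ^ a -
      (cw F i₁ a w ω j + dq F i₁ q ω j * (F.tw w ω / 2 ^ w)) =
      (yb F i₁ a w ω j + F.tw w ω * omb F i₁ a w q ω j) / 2 ^ a := by ring
  rw [e]
  constructor
  · exact div_nonneg (by linarith) h0.le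
  · exact div_le_div_of_nonneg_right (by linarith) h0.le

/-- The corner of the cell and the centre of the box. -/
theorem cen_tco (F : Fam m J) (i₁ : Fin m) {a w q : ℕ} (hw : w ≤ J) (hq : a ≤ w + q) (P : ℕ)
    (H : ((Fin m → ℝ) × (Fin m → ℝ)) × F.ζ × ℕ → MvPolynomial (Fin m) ℝ) (ω : F.Ω)
    (j : Fin m) :
    |cen i₁ J a w q (ctx F i₁ a w q P H ω) (F.W ω) j - tco i₁ a F.x ω j| ≤ 2 / 2 ^ a := by
  have h0 : (0 : ℝ) < 2 ^ a := by positivity
  by_cases hj : j = i₁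
  · rw [cen_eq, if_pos hj]
    unfold tco tdg
    rw [if_pos hj, Int.cast_zero, zero_div, sub_zero, abs_zero]
    positivity
  · have h1 := cen_near F i₁ hw hq P H ω j hj
    have h2 : 0 ≤ F.x ω j - tco i₁ a F.x ω j ∧ F.x ω j - tco i₁ a F.x ω j ≤ 1 / 2 ^ a := by
      unfold tco tdg
      rw [if_neg hj]
      have a1 := Int.floor_le ((2 : ℝ) ^ a * F.x ω j)
      have a2 := Int.lt_floor_add_one ((2 : ℝ) ^ a * F.x ω j)
      have e : F.x ω j - (⌊(2 : ℝ) ^ a * F.x ω j⌋ : ℝ) / 2 ^ a =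
          (2 ^ a * F.x ω j - (⌊(2 : ℝ) ^ a * F.x ω j⌋ : ℝ)) / 2 ^ a := by
        field_simp
      rw [e]
      constructor
      · exact div_nonneg (by linarith) h0.le
      · exact div_le_div_of_nonneg_right (by linarith) h0.le
    have h3 : (1 : ℝ) / 2 ^ a ≤ 2 / 2 ^ a := div_le_div_of_nonneg_right (by norm_num) h0.le
    rw [abs_le]
    constructor <;> linarith [h1.1, h1.2, h2.1, h2.2]

theorem t_split (F : Fam m J) (w : ℕ) (ω : F.Ω) :
    (F.T1 w ω : ℝ) / 2 ^ w + F.tw w ω / 2 ^ w = F.t ω := by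
  unfold Fam.tw
  field_simp
  ring

/-- The height over the centre. -/
theorem nub_eq (F : Fam m J) (i₁ : Fin m) (a w q K P e : ℕ) (G : F.Ω → MvPolynomial (Fin m) ℝ)
    (H : ((Fin m → ℝ) × (Fin m → ℝ)) × F.ζ × ℕ → MvPolynomial (Fin m) ℝ) (ω : F.Ω) :
    nub e i₁ (plb F i₁ a w q ω (G ω)) (Rc F i₁ a w q K P H ω) (F.tw w ω) =
      2 ^ e * (gfn F i₁ G ω (cen i₁ J a w q (ctx F i₁ a w q P H ω) (F.W ω)) -
        rce i₁ J w K P (ctx F i₁ a w q P H ω) (F.W ω)) := by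
  have key : eval (pnt i₁ 0 0 (F.tw w ω)) (plb F i₁ a w q ω (G ω)) =
      gfn F i₁ G ω (cen i₁ J a w q (ctx F i₁ a w q P H ω) (F.W ω)) := by
    unfold plb gfn
    rw [eval_pull]
    congr 2
    funext j
    by_cases hj : j = i₁
    · subst hj
      rw [Function.update_self]
      unfold sb pnt
      rw [if_pos rfl, if_pos rfl]
      unfold cw
      rw [if_pos rfl]
      exact t_split F w ω
    · rw [Function.update_of_ne hj, cen_eq, if_neg hj]
      unfold sb pnt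
      rw [if_neg hj, if_pos rfl, if_neg hj]
      simp only [Pi.zero_apply, mul_zero, add_zero, zero_div]
  unfold nub
  rw [key]
  rfl

/-- A point of the box of the context in the coordinates of the cell. -/
theorem eval_cell_box (F : Fam m J) (i₁ : Fin m) (a w q P : ℕ) (G : F.Ω → MvPolynomial (Fin m) ℝ)
    (H : ((Fin m → ℝ) × (Fin m → ℝ)) × F.ζ × ℕ → MvPolynomial (Fin m) ℝ) (ω : F.Ω)
    (y : Fin m → ℝ) :
    eval y (cpl F i₁ a G ω) = eval (fun j => if j = i₁ then F.tw w ω else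
      y j - 2 ^ a * (cen i₁ J a w q (ctx F i₁ a w q P H ω) (F.W ω) j - tco i₁ a F.x ω j))
        (plb F i₁ a w q ω (G ω)) := by
  rw [eval_cpl]
  unfold plb gfn
  rw [eval_pull]
  congr 2
  funext j
  have h0 : (0 : ℝ) < 2 ^ a := by positivity
  by_cases hj : j = i₁
  · subst hj
    rw [Function.update_self]
    unfold sb
    simp only [if_true]
    unfold cw
    rw [if_pos rfl]
    exact (t_split F w ω).symm
  · rw [Function.update_of_ne hj]
    unfold sb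
    simp only [if_neg hj, if_true]
    rw [cen_eq, if_neg hj]
    field_simp
    ring

end fam

end Pool.SLP
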