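import Mathlib

/-!
# Unisolvent points, and their stability
-/

set_option autoImplicit false

namespace Pool.SLP

open Finset

/-- Linearly independent functions have a unisolvent set of points. -/
theorem uni_pts {σ ι : Type} [Fintype ι] [DecidableEq ι] (f : ι → σ → ℝ)
    (hf : ∀ c : ι → ℝ, (∀ x, ∑ i, c i * f i x = 0) → c = 0) :
    ∃ x : ι → σ, (Matrix.of fun j i => f i (x j)).det ≠ 0 := by
  set v : σ → (ι → ℝ) := fun x i => f i x with hv
  have hspan : Submodule.span ℝ (Set.range v) = ⊤ := by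
    by_contra hne
    obtain ⟨φ, hφ, hle⟩ := Submodule.exists_le_ker_of_lt_top _ (lt_top_iff_ne_top.2 hne)
    apply hφ
    have h1 : ∀ w : ι → ℝ, φ w = ∑ i, φ (Pi.single i 1) * w i := by
      intro w
      conv_lhs => rw [pi_eq_sum_univ' w]
      rw [map_sum]
      refine Finset.sum_congr rfl fun i _ => ?_
      rw [map_smul, smul_eq_mul, mul_comm]
    have h2 : (fun i => φ (Pi.single i 1)) = 0 := by
      apply hf
      intro x
      have h3 : φ (v x) = 0 := hle (Submodule.subset_span ⟨x, rfl⟩)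
      rw [h1] at h3
      exact h3
    apply LinearMap.ext
    intro w
    rw [h1 w]
    have h4 : ∀ i, φ (Pi.single i 1) = 0 := fun i => congrFun h2 i
    simp [h4]
  obtain ⟨κ, a, -, hsp, hli⟩ := exists_linearIndependent' ℝ v
  have hb : ⊤ ≤ Submodule.span ℝ (Set.range (v ∘ a)) := by rw [hsp, hspan]
  let b := Module.Basis.mk hli hb
  let e : ι ≃ κ := (Pi.basisFun ℝ ι).indexEquiv b
  refine ⟨a ∘ e, ?_⟩
  have h5 : LinearIndependent ℝ (fun j => v (a (e j))) := hli.comp e e.injective
  have h6 : LinearIndependent ℝ (Matrix.of fun j i => f i ((a ∘ e) j)).row := h5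
  rw [Matrix.linearIndependent_rows_iff_isUnit] at h6
  exact ((Matrix.isUnit_iff_isUnit_det _).1 h6).ne_zero

/-- Stability of the bounded invertibility. -/
theorem uni_stab {ι κ : Type} [Fintype ι] [DecidableEq ι] [Fintype κ]
    (f : ι → (κ → ℝ) → ℝ) (hf : ∀ i, Continuous (f i)) (x0 : ι → κ → ℝ)
    (h0 : (Matrix.of fun j i => f i (x0 j)).det ≠ 0) :
    ∃ η A : ℝ, 0 < η ∧ 0 ≤ A ∧ ∀ x : ι → κ → ℝ, (∀ j l, |x j l - x0 j l| ≤ η) →
      ∃ N : ι → ι → ℝ, (∀ i j, |N i j| ≤ A) ∧
        (∀ v : ι → ℝ, ∀ i, ∑ j, f j (x i) * ∑ l, N j l * v l = v i) ∧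
        (∀ v : ι → ℝ, ∀ i, ∑ j, N i j * ∑ l, f l (x j) * v l = v i) := by
  set G : (ι → κ → ℝ) → Matrix ι ι ℝ := fun x => Matrix.of fun j i => f i (x j) with hG
  have hGc : Continuous G := by
    refine continuous_pi fun j => continuous_pi fun i => ?_
    exact (hf i).comp (continuous_apply j)
  have hdet : Continuous fun x => (G x).det := hGc.matrix_det
  have hadj : Continuous fun x => (G x).adjugate := hGc.matrix_adjugate
  set d : ℝ := |(G x0).det| with hd
  have hdpos : 0 < d := abs_pos.2 h0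
  have hev : ∀ᶠ x in nhds x0, d / 2 < |(G x).det| ∧
      ∀ i j, |(G x).adjugate i j| < |(G x0).adjugate i j| + 1 := by
    refine Filter.Eventually.and ?_ ?_
    · exact (hdet.abs.tendsto x0).eventually_const_lt (by rw [← hd]; linarith)
    · rw [Filter.eventually_all]
      intro i
      rw [Filter.eventually_all]
      intro j
      have h1 : Continuous fun x => |(G x).adjugate i j| :=
        ((continuous_apply j).comp ((continuous_apply i).comp hadj)).abs
      exact (h1.tendsto x0).eventually_lt_const (by linarith)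
  obtain ⟨η, hη, hball⟩ := Metric.eventually_nhds_iff.1 hev
  set S : ℝ := ∑ i, ∑ j, (|(G x0).adjugate i j| + 1) with hS
  have hSb : ∀ i j, |(G x0).adjugate i j| + 1 ≤ S := by
    intro i j
    have h1 : |(G x0).adjugate i j| + 1 ≤ ∑ j, (|(G x0).adjugate i j| + 1) :=
      Finset.single_le_sum (f := fun j => |(G x0).adjugate i j| + 1)
        (fun _ _ => by positivity) (Finset.mem_univ j)
    have h2 : ∑ j, (|(G x0).adjugate i j| + 1) ≤ S :=
      Finset.single_le_sum (f := fun i => ∑ j, (|(G x0).adjugate i j| + 1))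
        (fun _ _ => Finset.sum_nonneg fun _ _ => by positivity) (Finset.mem_univ i)
    exact h1.trans h2
  have hS0 : 0 ≤ S := Finset.sum_nonneg fun _ _ => Finset.sum_nonneg fun _ _ => by positivity
  refine ⟨η / 2, S / (d / 2), by positivity, by positivity, fun x hx => ?_⟩
  have hdist : dist x x0 < η := by
    refine lt_of_le_of_lt ((dist_pi_le_iff (by positivity)).2 fun j =>
      (dist_pi_le_iff (by positivity)).2 fun l => ?_) (half_lt_self hη)
    rw [Real.dist_eq]
    exact hx j l
  obtain ⟨h1, h2⟩ := hball hdist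
  have hne : (G x).det ≠ 0 := by
    intro h
    rw [h, abs_zero] at h1
    linarith
  have hu : IsUnit (G x).det := isUnit_iff_ne_zero.2 hne
  obtain ⟨N, hN⟩ : ∃ N : Matrix ι ι ℝ, N = (G x)⁻¹ := ⟨_, rfl⟩
  refine ⟨fun i j => N i j, fun i j => ?_, fun v i => ?_, fun v i => ?_⟩
  · show |N i j| ≤ _
    rw [hN, Matrix.inv_def, Ring.inverse_eq_inv', Matrix.smul_apply, smul_eq_mul, abs_mul, abs_inv,
      mul_comm, ← div_eq_mul_inv]
    have h3 := (h2 i j).le.trans (hSb i j)
    exact div_le_div₀ hS0 h3 (by positivity) h1.le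
  · have h3 : (G x).mulVec (N.mulVec v) = v := by
      rw [Matrix.mulVec_mulVec, hN, Matrix.mul_nonsing_inv _ hu, Matrix.one_mulVec]
    exact congrFun h3 i
  · have h3 : N.mulVec ((G x).mulVec v) = v := by
      rw [Matrix.mulVec_mulVec, hN, Matrix.nonsing_inv_mul _ hu, Matrix.one_mulVec]
    exact congrFun h3 i

end Pool.SLP
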