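import Pool.Agent.H7.SLP.TAY
import Pool.Agent.H7.SLP.UNI

/-!
# The finite core of the slope law for germs of degree `K`

At a critical window the next digits of the germs are polynomials `R t` of degree at most `K` in
the position, at every typical time `t`. If the lines of the context are dense in position and
`R t (y + t * om)` is, for every line, within `ε` of a polynomial of degree at most `K` in `t`, then
near every typical time the `R t` are fitted by one polynomial of total degree at most `K` in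
`(t, Y)`, up to `C * (max |t| |Y| ^ (K + 1) + ε)`.
-/

set_option autoImplicit false

namespace Pool.SLP

open Finset Polynomial

/-- Product of bounded polynomials. -/
theorem CB.mul {D₁ D₂ : ℕ} {B₁ B₂ : ℝ} {p q : ℝ[X]} (hp : CB D₁ B₁ p) (hq : CB D₂ B₂ q) :
    CB (D₁ + D₂) ((D₁ + 1) * (B₁ * B₂)) (p * q) := by
  refine ⟨le_trans Polynomial.natDegree_mul_le (add_le_add hp.1 hq.1), fun n => ?_⟩
  rw [Polynomial.coeff_mul, Finset.Nat.sum_antidiagonal_eq_sum_range_succ_mk]
  refine le_trans (Finset.abs_sum_le_sum_abs _ _) ?_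
  have hB : 0 ≤ B₁ * B₂ := mul_nonneg hp.nonneg hq.nonneg
  have h1 : ∀ i ∈ range n.succ, |p.coeff i * q.coeff (n - i)| ≤
      if i ∈ range (D₁ + 1) then B₁ * B₂ else 0 := by
    intro i _
    split_ifs with h
    · rw [abs_mul]
      exact mul_le_mul (hp.2 i) (hq.2 _) (abs_nonneg _) hp.nonneg
    · have h2 : p.coeff i = 0 := by
        apply Polynomial.coeff_eq_zero_of_natDegree_lt
        have := hp.1
        simp only [Finset.mem_range] at h
        omega
      rw [h2, zero_mul, abs_zero]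
  refine le_trans (Finset.sum_le_sum h1) ?_
  rw [← Finset.sum_filter, Finset.sum_const, nsmul_eq_mul]
  refine mul_le_mul_of_nonneg_right ?_ hB
  have h3 : (Finset.filter (fun i => i ∈ range (D₁ + 1)) (range n.succ)).card ≤ D₁ + 1 := by
    refine le_trans (Finset.card_le_card ?_) (Finset.card_range (D₁ + 1)).le
    intro i hi
    exact (Finset.mem_filter.1 hi).2
  exact_mod_cast h3

theorem CB.one : CB 0 1 (1 : ℝ[X]) := by
  refine ⟨by simp, fun i => ?_⟩
  rw [Polynomial.coeff_one]
  split_ifs <;> simp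

/-- Linear functions. -/
theorem CB.lin {a b : ℝ} (ha : |a| ≤ 1) (hb : |b| ≤ 1) :
    CB 1 1 (Polynomial.C a + Polynomial.C b * Polynomial.X : ℝ[X]) := by
  refine ⟨?_, fun i => ?_⟩
  · refine le_trans (Polynomial.natDegree_add_le _ _) (max_le (by simp) ?_)
    refine le_trans (Polynomial.natDegree_C_mul_le _ _) ?_
    simp
  · rw [Polynomial.coeff_add, Polynomial.coeff_C, Polynomial.coeff_C_mul, Polynomial.coeff_X]
    rcases i with _ | i
    · simpa using ha
    · rcases i with _ | i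
      · simpa using hb
      · simp

theorem CB.pow_lin {a b : ℝ} (ha : |a| ≤ 1) (hb : |b| ≤ 1) (n : ℕ) :
    CB n (2 ^ n) ((Polynomial.C a + Polynomial.C b * Polynomial.X : ℝ[X]) ^ n) := by
  induction n with
  | zero => simpa using CB.one
  | succ n ih =>
    have h := (CB.lin ha hb).mul ih
    rw [← pow_succ'] at h
    refine h.mono (by omega) ?_
    rw [pow_succ']
    norm_num

/-- The monomial with exponent `al`. -/
def mon {k : ℕ} (al : Fin k → ℕ) (Y : Fin k → ℝ) : ℝ := ∏ l, Y l ^ al l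

/-- The restriction of a monomial to the line `y + t * om`. -/
noncomputable def mpol {k : ℕ} (al : Fin k → ℕ) (y om : Fin k → ℝ) : ℝ[X] :=
  ∏ l, (Polynomial.C (y l) + Polynomial.C (om l) * Polynomial.X) ^ al l

theorem mpol_eval {k : ℕ} (al : Fin k → ℕ) (y om : Fin k → ℝ) (t : ℝ) :
    (mpol al y om).eval t = mon al fun l => y l + t * om l := by
  unfold mpol mon
  rw [Polynomial.eval_prod]
  refine Finset.prod_congr rfl fun l _ => ?_
  simp only [Polynomial.eval_pow, Polynomial.eval_add, Polynomial.eval_C, Polynomial.eval_mul,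
    Polynomial.eval_X]
  rw [mul_comm]

theorem mpol_coeff_zero {k : ℕ} (al : Fin k → ℕ) (y om : Fin k → ℝ) :
    (mpol al y om).coeff 0 = mon al y := by
  rw [Polynomial.coeff_zero_eq_eval_zero, mpol_eval]
  simp

/-- Bounds of the restricted monomials. -/
theorem mpol_CB {k : ℕ} (al : Fin k → ℕ) :
    ∃ B : ℝ, 0 ≤ B ∧ ∀ y om : Fin k → ℝ, (∀ l, |y l| ≤ 1) → (∀ l, |om l| ≤ 1) →
      CB (∑ l, al l) B (mpol al y om) := by
  have h : ∀ s : Finset (Fin k), ∃ B : ℝ, 0 ≤ B ∧ ∀ y om : Fin k → ℝ, (∀ l, |y l| ≤ 1) →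
      (∀ l, |om l| ≤ 1) → CB (∑ l ∈ s, al l) B
        (∏ l ∈ s, (Polynomial.C (y l) + Polynomial.C (om l) * Polynomial.X) ^ al l) := by
    intro s
    induction s using Finset.induction_on with
    | empty =>
      refine ⟨1, zero_le_one, fun y om _ _ => ?_⟩
      simpa using CB.one
    | insert l s hl ih =>
      obtain ⟨B, hB, h⟩ := ih
      refine ⟨((al l : ℕ) + 1) * (2 ^ (al l) * B), by positivity, fun y om hy hom => ?_⟩
      rw [Finset.prod_insert hl, Finset.sum_insert hl]
      exact (CB.pow_lin (hy l) (hom l) (al l)).mul (h y om hy hom)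
  exact h univ

/-- Exponents of total degree at most `K`. -/
abbrev Ix (k K : ℕ) : Type := {al : Fin k → Fin (K + 1) // ∑ l, (al l : ℕ) ≤ K}

/-- The exponent of an index. -/
def ex {k K : ℕ} (al : Ix k K) : Fin k → ℕ := fun l => (al.1 l : ℕ)

/-- The total degree of an index. -/
def dg {k K : ℕ} (al : Ix k K) : ℕ := ∑ l, ex al l

theorem dg_le {k K : ℕ} (al : Ix k K) : dg al ≤ K := al.2

theorem mon_continuous {k : ℕ} (al : Fin k → ℕ) : Continuous (mon al) := by
  unfold mon
  exact continuous_finsetProd _ fun l _ => (continuous_apply l).pow _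

/-- A polynomial vanishing on the cube is zero. -/
theorem mon_indep {k K : ℕ} (c : Ix k K → ℝ)
    (h : ∀ x : {x : Fin k → ℝ // ∀ l, |x l| ≤ 1}, ∑ al, c al * mon (ex al) x.1 = 0) : c = 0 := by
  classical
  set p : MvPolynomial (Fin k) ℝ := ∑ al : Ix k K,
    MvPolynomial.monomial (Finsupp.equivFunOnFinite.symm (ex al)) (c al) with hp
  have hev : ∀ x : Fin k → ℝ, MvPolynomial.eval x p = ∑ al, c al * mon (ex al) x := by
    intro x
    rw [hp, map_sum]
    refine Finset.sum_congr rfl fun al _ => ?_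
    rw [MvPolynomial.eval_monomial]
    congr 1
    rw [Finsupp.prod_fintype _ _ (fun i => pow_zero _)]
    rfl
  have h0 : p = 0 := by
    refine MvPolynomial.funext_set (fun _ : Fin k => Set.Icc (-1 : ℝ) 1)
      (fun _ => Set.Icc_infinite (by norm_num)) fun x hx => ?_
    rw [hev, map_zero]
    refine h ⟨x, fun l => ?_⟩
    have := hx l (Set.mem_univ l)
    exact abs_le.2 ⟨this.1, this.2⟩
  funext al
  have h1 : MvPolynomial.coeff (Finsupp.equivFunOnFinite.symm (ex al)) p = c al := by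
    rw [hp, MvPolynomial.coeff_sum]
    rw [Finset.sum_eq_single al]
    · rw [MvPolynomial.coeff_monomial, if_pos rfl]
    · intro be _ hne
      rw [MvPolynomial.coeff_monomial, if_neg]
      intro h2
      apply hne
      have h3 : ex be = ex al := Finsupp.equivFunOnFinite.symm.injective h2
      apply Subtype.ext
      funext l
      exact Fin.ext (congrFun h3 l)
    · intro h2
      exact absurd (Finset.mem_univ al) h2
  rw [h0] at h1
  simpa using h1.symm

/-- **Slope law, finite core.** `k` position variables, germs of degree `≤ K`. -/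
theorem slk (k K : ℕ) (B : ℝ) (hB : 0 ≤ B) :
    ∃ η C δ : ℝ, 0 < η ∧ 0 ≤ C ∧ 0 < δ ∧ δ ≤ 1 ∧
      ∀ (ζ : Type) (y om : ζ → Fin k → ℝ) (p : ζ → ℝ[X]),
      (∀ z l, |y z l| ≤ 1) → (∀ z l, |om z l| ≤ 1) → (∀ z, CB K B (p z)) →
      (∀ Y : Fin k → ℝ, (∀ l, |Y l| ≤ 1) → ∃ z, ∀ l, |y z l - Y l| ≤ η) →
      ∃ r : Ix k K → ℕ → ℝ, (∀ al m, |r al m| ≤ C) ∧
        ∀ t : ℝ, |t| ≤ δ → ∀ (s : Ix k K → ℝ) (ε : ℝ), 0 ≤ ε →
          (∀ z, |∑ al, s al * mon (ex al) (fun l => y z l + t * om z l) - (p z).eval t| ≤ ε) →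
          ∀ (Y : Fin k → ℝ) (ρ : ℝ), (∀ l, |Y l| ≤ ρ) → |t| ≤ ρ → ρ ≤ 1 →
            |∑ al, s al * mon (ex al) Y -
              ∑ al, (∑ m ∈ range (K + 1 - dg al), r al m * t ^ m) * mon (ex al) Y| ≤
                C * (ρ ^ (K + 1) + ε) := by
  classical
  obtain ⟨x0, hx0⟩ := uni_pts (σ := {x : Fin k → ℝ // ∀ l, |x l| ≤ 1})
    (fun (al : Ix k K) x => mon (ex al) x.1) (mon_indep (k := k) (K := K))
  obtain ⟨η, A, hη, hA, hst⟩ := uni_stab (fun al : Ix k K => mon (ex al))
    (fun al => mon_continuous (ex al)) (fun j => (x0 j).1) hx0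
  obtain ⟨BM, hBM, hMB⟩ : ∃ BM : ℝ, 0 ≤ BM ∧ ∀ (al : Ix k K) (y om : Fin k → ℝ),
      (∀ l, |y l| ≤ 1) → (∀ l, |om l| ≤ 1) → CB K BM (mpol (ex al) y om) := by
    choose B0 hB0 hB1 using fun al : Ix k K => mpol_CB (ex al)
    refine ⟨∑ al, B0 al, Finset.sum_nonneg fun al _ => hB0 al, fun al y om hy hom => ?_⟩
    exact (hB1 al y om hy hom).mono al.2
      (Finset.single_le_sum (f := B0) (fun _ _ => hB0 _) (Finset.mem_univ al))
  obtain ⟨C0, δ, hC0, hδ0, hδ1, htay⟩ := tay (ι := Ix k K) K BM B A hBM hB hA (K + 1)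
  set ca : ℝ := (Fintype.card (Ix k K) : ℝ) with hca
  have hca0 : 0 ≤ ca := by rw [hca]; positivity
  refine ⟨η, C0 + ca * (C0 * (K + 2)), δ, hη, by positivity, hδ0, hδ1,
    fun ζ y om p hy hom hp hdense => ?_⟩
  choose z hz using fun j : Ix k K => hdense (x0 j).1 (x0 j).2
  obtain ⟨N, hNb, hNr, hNl⟩ := hst (fun j => y (z j)) hz
  obtain ⟨r, hrb, hr⟩ := htay (fun j al => mpol (ex al) (y (z j)) (om (z j))) (fun j => p (z j)) N
    (fun j al => hMB al _ _ (hy _) (hom _)) (fun j => hp (z j)) hNb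
    (fun v i => by
      simp only [mpol_coeff_zero]
      exact hNr v i)
    (fun v i => by
      simp only [mpol_coeff_zero]
      exact hNl v i)
  refine ⟨r, fun al m => le_trans (hrb al m) (by
    have : 0 ≤ ca * (C0 * (K + 2)) := by positivity
    linarith), fun t ht s ε hε hs Y ρ hY htρ hρ1 => ?_⟩
  have hρ0 : 0 ≤ ρ := (abs_nonneg t).trans htρ
  have h1 := hr t ht s ε (fun j => by
    have h2 := hs (z j)
    have h3 : ∑ al, (mpol (ex al) (y (z j)) (om (z j))).eval t * s al =
        ∑ al, s al * mon (ex al) (fun l => y (z j) l + t * om (z j) l) := by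
      refine Finset.sum_congr rfl fun al _ => ?_
      rw [mpol_eval, mul_comm]
    rw [h3]
    exact h2)
  have hmon : ∀ al : Ix k K, |mon (ex al) Y| ≤ ρ ^ dg al := by
    intro al
    unfold mon dg
    rw [Finset.abs_prod, ← Finset.prod_pow_eq_pow_sum]
    refine Finset.prod_le_prod (fun _ _ => abs_nonneg _) fun l _ => ?_
    rw [abs_pow]
    exact pow_le_pow_left₀ (abs_nonneg _) (hY l) _
  rw [← Finset.sum_sub_distrib]
  refine le_trans (Finset.abs_sum_le_sum_abs _ _) ?_
  have hterm : ∀ al ∈ univ, |s al * mon (ex al) Y -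
      (∑ m ∈ range (K + 1 - dg al), r al m * t ^ m) * mon (ex al) Y| ≤
      C0 * (K + 2) * (ρ ^ (K + 1) + ε) := by
    intro al _
    rw [← sub_mul, abs_mul]
    have hd : dg al ≤ K := dg_le al
    have h4 : |s al - ∑ m ∈ range (K + 1 - dg al), r al m * t ^ m| ≤
        C0 * (ρ ^ (K + 1) + ε) + K * (C0 * ρ ^ (K + 1 - dg al)) := by
      have h5 : ∑ m ∈ range (K + 1), r al m * t ^ m =
          ∑ m ∈ range (K + 1 - dg al), r al m * t ^ m +
            ∑ m ∈ Finset.Ico (K + 1 - dg al) (K + 1), r al m * t ^ m := by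
        rw [Finset.range_eq_Ico, Finset.range_eq_Ico]
        exact (Finset.sum_Ico_consecutive _ (Nat.zero_le _) (by omega)).symm
      have h6 : |∑ m ∈ Finset.Ico (K + 1 - dg al) (K + 1), r al m * t ^ m| ≤
          K * (C0 * ρ ^ (K + 1 - dg al)) := by
        refine le_trans (Finset.abs_sum_le_sum_abs _ _) ?_
        have h7 : ∀ m ∈ Finset.Ico (K + 1 - dg al) (K + 1), |r al m * t ^ m| ≤
            C0 * ρ ^ (K + 1 - dg al) := by
          intro m hm
          rw [Finset.mem_Ico] at hm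
          rw [abs_mul, abs_pow]
          refine mul_le_mul (hrb al m) ?_ (by positivity) hC0
          calc |t| ^ m ≤ ρ ^ m := pow_le_pow_left₀ (abs_nonneg _) htρ _
            _ ≤ ρ ^ (K + 1 - dg al) := pow_le_pow_of_le_one hρ0 hρ1 hm.1
        refine le_trans (Finset.sum_le_sum h7) ?_
        rw [Finset.sum_const, Nat.card_Ico, nsmul_eq_mul]
        refine mul_le_mul_of_nonneg_right ?_ (by positivity)
        have : K + 1 - (K + 1 - dg al) ≤ K := by omega
        exact_mod_cast this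
      have h8 : s al - ∑ m ∈ range (K + 1 - dg al), r al m * t ^ m =
          (s al - ∑ m ∈ range (K + 1), r al m * t ^ m) +
            ∑ m ∈ Finset.Ico (K + 1 - dg al) (K + 1), r al m * t ^ m := by
        rw [h5]
        ring
      rw [h8]
      refine le_trans (abs_add_le _ _) (add_le_add (le_trans (h1 al) ?_) h6)
      exact mul_le_mul_of_nonneg_left (add_le_add
        (pow_le_pow_left₀ (abs_nonneg _) htρ _) le_rfl) hC0
    have hpd : ρ ^ (K + 1 - dg al) * ρ ^ dg al = ρ ^ (K + 1) := by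
      rw [← pow_add]
      congr 1
      omega
    have hd1 : ρ ^ dg al ≤ 1 := pow_le_one₀ hρ0 hρ1
    have hE : 0 ≤ ρ ^ (K + 1) + ε := by positivity
    calc |s al - ∑ m ∈ range (K + 1 - dg al), r al m * t ^ m| * |mon (ex al) Y|
        ≤ (C0 * (ρ ^ (K + 1) + ε) + K * (C0 * ρ ^ (K + 1 - dg al))) * ρ ^ dg al :=
          mul_le_mul h4 (hmon al) (abs_nonneg _) (by positivity)
      _ = C0 * (ρ ^ (K + 1) + ε) * ρ ^ dg al + K * C0 * (ρ ^ (K + 1 - dg al) * ρ ^ dg al) := by
          ring
      _ ≤ C0 * (ρ ^ (K + 1) + ε) * 1 + K * C0 * ρ ^ (K + 1) := by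
          rw [hpd]
          exact add_le_add (mul_le_mul_of_nonneg_left hd1 (by positivity)) le_rfl
      _ ≤ C0 * (K + 2) * (ρ ^ (K + 1) + ε) := by
          have h9 : 0 ≤ (K : ℝ) * C0 * ε := by positivity
          have h10 : 0 ≤ C0 * (ρ ^ (K + 1) + ε) := by positivity
          nlinarith
  refine le_trans (Finset.sum_le_sum hterm) ?_
  rw [Finset.sum_const, nsmul_eq_mul, Finset.card_univ, ← hca]
  have h11 : 0 ≤ C0 * (ρ ^ (K + 1) + ε) := by positivity
  nlinarith

end Pool.SLP
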