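import Pool.Agent.H7.SLP.H5N
import Pool.Agent.H50.K2.Piece
import Pool.Agent.H20.KA.TRC
import Pool.Agent.H81.SLP.Ctx3

/-!
# (H5) for all blocks and all events

`rows_win`: blocks of rows in a window of blocks which are not full. `h5_all`: the hypothesis (H5)
of the average form, for all blocks and all events of probability at least `π₀`.
-/

set_option autoImplicit false

namespace Pool.SLP

open Finset Real MvPolynomial
open Pool.Agent.H49.Ent Pool.Agent.H32.Dense Pool.STK Pool.KAF Pool.KA Pool.KSAT Pool.K2S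
open Pool.PB Pool.SLO Pool.KAL

section rows

variable {Ω S : Type} [Fintype Ω] {m : ℕ} {p : Ω → ℝ}

theorem fl_nest {a b : ℕ} (h : a ≤ b) (x : Fin m → ℝ) (x' : Fin m → ℝ)
    (e : Pool.STK.fl b x = Pool.STK.fl b x') : Pool.STK.fl a x = Pool.STK.fl a x' := by
  funext i
  have h1 := congrFun e i
  rw [fl_apx] at h1 ⊢
  rw [fl_apx] at h1 ⊢
  refine Pool.OCT.floor_two_pow (b - a) ?_
  have e1 : ∀ y : ℝ, (2 : ℝ) ^ (b - a) * (2 ^ a * y) = 2 ^ b * y := by
    intro y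
    rw [← mul_assoc, ← pow_add, Nat.sub_add_cancel h]
  rw [e1, e1]
  exact h1

/-- Rows are subadditive. -/
theorem row_add (hp : IsLaw p) (x : Ω → Fin m → ℝ) (W : Ω → S) {a b c : ℕ} :
    CH p (fun ω => Pool.STK.fl c (x ω)) (fun ω => (Pool.STK.fl a (x ω), W ω)) ≤
      CH p (fun ω => Pool.STK.fl b (x ω)) (fun ω => (Pool.STK.fl a (x ω), W ω)) +
        CH p (fun ω => Pool.STK.fl c (x ω)) (fun ω => (Pool.STK.fl b (x ω), W ω)) := by
  have h1 := CH_le_add hp.nonneg (fun ω => Pool.STK.fl c (x ω)) (fun ω => Pool.STK.fl b (x ω))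
    (fun ω => (Pool.STK.fl a (x ω), W ω))
  have h2 : CH p (fun ω => Pool.STK.fl c (x ω)) (fun ω => (Pool.STK.fl b (x ω),
      (Pool.STK.fl a (x ω), W ω))) ≤
      CH p (fun ω => Pool.STK.fl c (x ω)) (fun ω => (Pool.STK.fl b (x ω), W ω)) := by
    refine CH_mono_cond hp.nonneg ?_
    intro ω ω' _ _ he
    have e1 := Prod.ext_iff.1 he
    exact Prod.ext e1.1 (Prod.ext_iff.1 e1.2).2
  linarith

theorem row_le (hp : IsLaw p) (x : Ω → Fin m → ℝ) (W : Ω → S) {a b : ℕ} (hab : a ≤ b) :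
    CH p (fun ω => Pool.STK.fl b (x ω)) (fun ω => (Pool.STK.fl a (x ω), W ω)) ≤
      m * (((b : ℝ) - a) * Real.log 2) := by
  have h := Pool.KA.TRC.CH_floor hp x W a (b - a)
  rw [Nat.add_sub_cancel' hab, Nat.cast_sub hab] at h
  exact h

/-- Consecutive blocks. -/
theorem row_blocks (hp : IsLaw p) (x : Ω → Fin m → ℝ) (W : Ω → S) (R U : ℕ) {q : ℝ} (n : ℕ)
    (l₀ : ℕ) (hb : ∀ l, l₀ ≤ l → l < l₀ + n →
      CH p (fun ω => Pool.STK.fl (R + (l + 1) * U) (x ω))
        (fun ω => (Pool.STK.fl (R + l * U) (x ω), W ω)) ≤ q) :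
    CH p (fun ω => Pool.STK.fl (R + (l₀ + n) * U) (x ω))
      (fun ω => (Pool.STK.fl (R + l₀ * U) (x ω), W ω)) ≤ n * q := by
  induction n with
  | zero =>
    have h := row_le hp x W (a := R + l₀ * U) (b := R + (l₀ + 0) * U) le_rfl
    simp only [Nat.cast_zero, zero_mul]
    rw [Nat.add_zero] at h ⊢
    rw [sub_self, zero_mul, mul_zero] at h
    exact h
  | succ n ih =>
    have h1 := ih (fun l h h' => hb l h (by omega))
    have h2 := hb (l₀ + n) (by omega) (by omega)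
    have h3 := row_add hp x W (a := R + l₀ * U) (b := R + (l₀ + n) * U)
      (c := R + (l₀ + (n + 1)) * U)
    have e : l₀ + (n + 1) = l₀ + n + 1 := by omega
    rw [e] at h3 ⊢
    push_cast
    linarith

/-- **Blocks in a window of blocks which are not full.** -/
theorem rows_win (hp : IsLaw p) (x : Ω → Fin m → ℝ) (W : Ω → S) (R U n : ℕ) {c d : ℝ}
    (hU : 0 < U) (hcm : c ≤ m) (hd : 0 ≤ d)
    (hb : ∀ l < n, CH p (fun ω => Pool.STK.fl (R + (l + 1) * U) (x ω))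
        (fun ω => (Pool.STK.fl (R + l * U) (x ω), W ω)) ≤ (m - c) * (U * Real.log 2) + d)
    {a b : ℕ} (ha : R ≤ a) (hab : a ≤ b) (hbn : b ≤ R + n * U) :
    CH p (fun ω => Pool.STK.fl b (x ω)) (fun ω => (Pool.STK.fl a (x ω), W ω)) ≤
      (m - c) * (((b : ℝ) - a) * Real.log 2) + n * d + 2 * m * (U * Real.log 2) := by
  have hl2 : 0 < Real.log 2 := Real.log_pos (by norm_num)
  have hm : (0 : ℝ) ≤ m := by positivity
  have hU' : (0 : ℝ) < U := by exact_mod_cast hU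
  have hab' : (a : ℝ) ≤ b := by exact_mod_cast hab
  have hba : 0 ≤ ((b : ℝ) - a) * Real.log 2 := mul_nonneg (by linarith) hl2.le
  have hnd : 0 ≤ (n : ℝ) * d := mul_nonneg (by positivity) hd
  -- the first and the last full block
  obtain ⟨l₁, hl₁⟩ : ∃ l₁, l₁ = (a - R) / U + 1 := ⟨_, rfl⟩
  obtain ⟨l₂, hl₂⟩ : ∃ l₂, l₂ = (b - R) / U := ⟨_, rfl⟩
  have d1 := Nat.div_add_mod (a - R) U
  have d2 := Nat.mod_lt (a - R) hU
  have d3 := Nat.div_add_mod (b - R) U
  have d4 := Nat.mod_lt (b - R) hU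
  have k1 : a ≤ R + l₁ * U := by
    have : l₁ * U = U * ((a - R) / U) + U := by rw [hl₁]; ring
    omega
  have k2 : R + l₁ * U ≤ a + U := by
    have : l₁ * U = U * ((a - R) / U) + U := by rw [hl₁]; ring
    omega
  have k3 : R + l₂ * U ≤ b := by
    have : l₂ * U = U * ((b - R) / U) := by rw [hl₂]; ring
    omega
  have k4 : b ≤ R + l₂ * U + U := by
    have : l₂ * U = U * ((b - R) / U) := by rw [hl₂]; ring
    omega
  have k2' : ((R + l₁ * U : ℕ) : ℝ) ≤ a + U := by exact_mod_cast k2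
  have k4' : (b : ℝ) ≤ (R + l₂ * U : ℕ) + U := by exact_mod_cast k4
  by_cases hl : l₁ ≤ l₂
  · have hl₂n : l₂ ≤ n := by
      rw [hl₂]
      refine Nat.le_of_mul_le_mul_left ?_ hU
      have : U * n = n * U := Nat.mul_comm _ _
      omega
    have s1 := row_add hp x W (a := a) (b := R + l₁ * U) (c := b)
    have s2 := row_add hp x W (a := R + l₁ * U) (b := R + l₂ * U) (c := b)
    have s3 := row_le hp x W (a := a) (b := R + l₁ * U) k1
    have s4 := row_le hp x W (a := R + l₂ * U) (b := b) k3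
    have s5 := row_blocks hp x W R U (q := (m - c) * (U * Real.log 2) + d) (l₂ - l₁) l₁
      (fun l _ h' => hb l (by omega))
    rw [Nat.add_sub_cancel' hl, Nat.cast_sub hl] at s5
    have e1 : (m : ℝ) * ((((R + l₁ * U : ℕ) : ℝ) - a) * Real.log 2) ≤
        m * (U * Real.log 2) := by
      refine mul_le_mul_of_nonneg_left (mul_le_mul_of_nonneg_right ?_ hl2.le) hm
      linarith
    have e2 : (m : ℝ) * (((b : ℝ) - (R + l₂ * U : ℕ)) * Real.log 2) ≤
        m * (U * Real.log 2) := by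
      refine mul_le_mul_of_nonneg_left (mul_le_mul_of_nonneg_right ?_ hl2.le) hm
      linarith
    have e3 : ((l₂ : ℝ) - l₁) * ((m - c) * (U * Real.log 2) + d) ≤
        (m - c) * (((b : ℝ) - a) * Real.log 2) + n * d := by
      have f1 : ((l₂ : ℝ) - l₁) * U ≤ (b : ℝ) - a := by
        have g1 : ((R + l₂ * U : ℕ) : ℝ) ≤ b := by exact_mod_cast k3
        have g2 : (a : ℝ) ≤ (R + l₁ * U : ℕ) := by exact_mod_cast k1
        push_cast at g1 g2
        linarith
      have f2 : ((l₂ : ℝ) - l₁) ≤ n := by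
        have g1 : (l₂ : ℝ) ≤ n := by exact_mod_cast hl₂n
        have g2 : (0 : ℝ) ≤ l₁ := by positivity
        linarith
      have f3 : ((l₂ : ℝ) - l₁) * d ≤ n * d := mul_le_mul_of_nonneg_right f2 hd
      have f4 : (m - c) * ((((l₂ : ℝ) - l₁) * U) * Real.log 2) ≤
          (m - c) * (((b : ℝ) - a) * Real.log 2) :=
        mul_le_mul_of_nonneg_left (mul_le_mul_of_nonneg_right f1 hl2.le) (by linarith)
      nlinarith
    linarith
  · have s1 := row_le hp x W hab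
    have f1 : (b : ℝ) - a ≤ 2 * U := by
      have g1 : l₂ + 1 ≤ l₁ := by omega
      have g2 : (l₂ + 1) * U ≤ l₁ * U := Nat.mul_le_mul_right _ g1
      have g3 : b ≤ a + U := by
        have : (l₂ + 1) * U = l₂ * U + U := by ring
        omega
      have g4 : (b : ℝ) ≤ a + U := by exact_mod_cast g3
      linarith
    have f2 : (m : ℝ) * (((b : ℝ) - a) * Real.log 2) ≤ m * (2 * U * Real.log 2) :=
      mul_le_mul_of_nonneg_left (mul_le_mul_of_nonneg_right f1 hl2.le) hm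
    have f3 : 0 ≤ (m - c) * (((b : ℝ) - a) * Real.log 2) := mul_nonneg (by linarith) hba
    linarith

end rows

section fam

variable {m J : ℕ}

/-- **(H5) for all blocks and all events**, average form. `T` determines the time and the side
information. -/
theorem h5_all (m K : ℕ) (L C0 : ℝ) (hL : 0 ≤ L) (hC0 : 0 ≤ C0) : ∃ C : ℝ, 0 ≤ C ∧
    ∀ (J : ℕ) (F : Fam m J) (i₁ : Fin m) (A : F.Ω → Prop) (a w q P e X : ℕ) (c d₁ d ε κ π₀ : ℝ)
      (G : F.Ω → MvPolynomial (Fin m) ℝ)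
      (H : ((Fin m → ℝ) × (Fin m → ℝ)) × F.ζ × ℕ → MvPolynomial (Fin m) ℝ) (Tau : Type)
      (T : F.Ω → Tau),
    IsLaw (Pool.Agent.H49.Ent.cond F.p A True) → w ≤ J → a ≤ w + q → a ≤ e → 0 < π₀ →
    (∀ ω, A ω → (G ω).totalDegree ≤ K) →
    (∀ ω, A ω → ∀ b : Fin m → ℝ, (∀ j, |b j - bp F i₁ ω j| ≤ 2 / 2 ^ a) →
      ∀ j, |eval b (pderiv j (G ω))| ≤ L) →
    (∀ ω, A ω → |F.x ω i₁ - eval (bp F i₁ ω) (G ω)| ≤ 1 / 2 ^ (e + X)) →
    (∀ ω, A ω → NearB F i₁ a w q K P e C0 G H ω) →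
    (∀ ω ω', A ω → A ω' → T ω = T ω' → F.W ω = F.W ω') →
    (∀ E : F.Ω → Prop, Sub E A → π₀ * Pe F.p A ≤ Pe F.p E →
      (∀ r h : ℕ, r + h ≤ X → CH (Pool.Agent.H49.Ent.cond F.p E True) (F.X (e + r + h))
        (fun ω => (F.X (e + r) ω, F.W ω)) ≤ (m - c) * (h * Real.log 2) + d₁) ∧
      (∀ s ≤ X, ((m : ℝ) - 1) * (((e + s : ℕ) - (a : ℝ)) * Real.log 2) - d ≤
        CH (Pool.Agent.H49.Ent.cond F.p E True) (tdg i₁ (e + s) F.x) (bxs F i₁ a e K G s)) ∧
      CH (Pool.Agent.H49.Ent.cond F.p E True) (Sc F i₁ a e K G X) (bxs F i₁ a e K G 0) ≤ ε) →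
    ∀ j : ℕ, (j + 1) * ⌊κ * X⌋₊ ≤ X → ∀ E : Set F.Ω,
      π₀ ≤ Pr (Pool.Agent.H49.Ent.cond F.p A True) E →
      CH (rs (Pool.Agent.H49.Ent.cond F.p A True) E)
        (fun ω => ⌊(2 : ℝ) ^ ((j + 1) * ⌊κ * X⌋₊) *
          nub e i₁ (plb F i₁ a w q ω (G ω)) (Rc F i₁ a w q K P H ω) (F.tw w ω)⌋)
        (fun ω => ((⌊(2 : ℝ) ^ (j * ⌊κ * X⌋₊) *
          nub e i₁ (plb F i₁ a w q ω (G ω)) (Rc F i₁ a w q K P H ω) (F.tw w ω)⌋, T ω),
            ctx F i₁ a w q P H ω)) ≤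
        (1 - c) * (⌊κ * X⌋₊ * Real.log 2) + d₁ + d + 2 * ε + C := by
  obtain ⟨C, hC, hfam⟩ := h5_fam m K L C0 hL hC0
  refine ⟨C, hC, ?_⟩
  intro J F i₁ A a w q P e X c d₁ d ε κ π₀ G H Tau T hp hw hq hae hπ hG hgr hx hbox hT hE
    j hj E hPE
  have hA : 0 < Pe F.p A := by
    by_contra hcon
    have h1 : Pe F.p A = 0 := le_antisymm (not_lt.1 hcon) (Pe_nonneg F.isLaw A)
    have h2 := hp.sum_one
    have h3 : ∀ ω, Pool.Agent.H49.Ent.cond F.p A True ω = 0 := by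
      intro ω
      unfold Pool.Agent.H49.Ent.cond
      split_ifs
      · have h4 : law F.p A True = 0 := h1
        rw [h4, div_zero]
      · rfl
    rw [Finset.sum_congr rfl (fun ω _ => h3 ω), Finset.sum_const_zero] at h2
    exact absurd h2 (by norm_num)
  obtain ⟨B, hB⟩ : ∃ B : F.Ω → Prop, B = fun ω => A ω ∧ ω ∈ E := ⟨_, rfl⟩
  have hrs : rs (Pool.Agent.H49.Ent.cond F.p A True) E =
      Pool.Agent.H49.Ent.cond F.p B True := by
    unfold rs
    rw [hB]
    exact Pool.K2S.Piece.cond_inter hA.ne'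
  have hsub : Sub B A := by
    intro ω hω
    rw [hB] at hω
    exact hω.1
  have hPB : π₀ * Pe F.p A ≤ Pe F.p B := by
    have h1 : Pe (Pool.Agent.H49.Ent.cond F.p A True) (fun ω => ω ∈ E) =
        Pe F.p (fun ω => A ω ∧ ω ∈ E) / Pe F.p A := Pe_cond _
    have h2 : π₀ ≤ Pe (Pool.Agent.H49.Ent.cond F.p A True) (fun ω => ω ∈ E) := hPE
    rw [h1, le_div_iff₀ hA] at h2
    rw [hB]
    exact h2
  have hB0 : 0 < Pe F.p B := lt_of_lt_of_le (mul_pos hπ hA) hPB
  have hpB : IsLaw (Pool.Agent.H49.Ent.cond F.p B True) := Pool.K2S.isLaw_cond F.isLaw hB0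
  obtain ⟨hr, hmk, hfr⟩ := hE B hsub hPB
  obtain ⟨h, hh⟩ : ∃ h, h = ⌊κ * X⌋₊ := ⟨_, rfl⟩
  rw [← hh] at hj ⊢
  have hjh : j * h + h = (j + 1) * h := by ring
  have key := hfam J F i₁ B a w q P e (j * h) h X (c - d₁ / (h * Real.log 2)) d ε G H hpB hw hq
    (by omega) (by omega) (fun ω hω => hG ω (hsub ω hω)) (fun ω hω => hgr ω (hsub ω hω))
    (by
      intro ω hω
      refine (hx ω (hsub ω hω)).trans ?_
      exact one_div_le_one_div_of_le (by positivity)
        (pow_le_pow_right₀ (by norm_num) (by omega)))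
    (fun ω hω => hbox ω (hsub ω hω))
  rw [hrs]
  by_cases h0 : h = 0
  · -- an empty block
    have e1 : (j + 1) * h = j * h := by rw [h0]; ring
    rw [e1]
    have z : CH (Pool.Agent.H49.Ent.cond F.p B True)
        (fun ω => ⌊(2 : ℝ) ^ (j * h) *
          nub e i₁ (plb F i₁ a w q ω (G ω)) (Rc F i₁ a w q K P H ω) (F.tw w ω)⌋)
        (fun ω => ((⌊(2 : ℝ) ^ (j * h) *
          nub e i₁ (plb F i₁ a w q ω (G ω)) (Rc F i₁ a w q K P H ω) (F.tw w ω)⌋, T ω),
            ctx F i₁ a w q P H ω)) = 0 := by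
      refine CH_eq_zero hpB.nonneg ?_
      intro ω ω' _ _ he
      exact (Prod.ext_iff.1 (Prod.ext_iff.1 he).1).1
    rw [z, h0]
    have g1 := hr 0 0 (Nat.zero_le _)
    have g2 := CH_nonneg hpB.nonneg (F.X (e + 0 + 0)) (fun ω => (F.X (e + 0) ω, F.W ω))
    have g3 := hmk 0 (Nat.zero_le _)
    have g4 := tdg_ch hpB i₁ F.x (a := a) (r := e + 0) (by omega) (bxs F i₁ a e K G 0)
      (fun ω ω' _ _ he => (Prod.ext_iff.1 (Prod.ext_iff.1 he).2).1)
    have g5 := CH_nonneg hpB.nonneg (Sc F i₁ a e K G X) (bxs F i₁ a e K G 0)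
    simp only [Nat.cast_zero, zero_mul, mul_zero] at g1 ⊢
    linarith
  · have hh0 : (0 : ℝ) < h := by exact_mod_cast Nat.pos_of_ne_zero h0
    have hl2 : 0 < Real.log 2 := Real.log_pos (by norm_num)
    have e2 : (m - (c - d₁ / (h * Real.log 2))) * (h * Real.log 2) =
        (m - c) * (h * Real.log 2) + d₁ := by
      field_simp
      ring
    have e3 : (1 - (c - d₁ / (h * Real.log 2))) * (h * Real.log 2) =
        (1 - c) * (h * Real.log 2) + d₁ := by
      field_simp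
      ring
    have r1 := hr (j * h) h (by omega)
    have r2 := hmk (j * h + h) (by omega)
    have e4 : e + (j * h + h) = e + j * h + h := by omega
    rw [e4] at r2
    have k1 := key (by rw [e2]; exact r1) r2 hfr
    rw [e3, hjh] at k1
    refine le_trans (CH_mono_cond hpB.nonneg ?_) k1
    intro ω ω' hω hω' he
    have f1 := Prod.ext_iff.1 he
    have f2 := Prod.ext_iff.1 f1.1
    exact Prod.ext f2.1 (Prod.ext f1.2 (hT ω ω' (hsub ω (of_cond_pos hω))
      (hsub ω' (of_cond_pos hω')) f2.2))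

end fam

end Pool.SLP
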