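import Pool.Agent.H7.SLP.H5P
import Pool.Agent.H70.OC.H5

/-!
# (H5) for curved sheets

`x` is a random point in dimension `m`, `i₁` the normal coordinate, `G ω` the own sheet of the
sample (a function of the tangential coordinates, the value in the slot `i₁` being `0`). The static
box contains the time with the side information `W`, the tangential position to `a` digits, the
height of the sheet over the corner of the cell and its shape over the cell, to `P + r` digits.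
`S r` are the digits of the shape to `P + r`. The height inside the context `b` is the height of
the own sheet over a reference height which is a function of the context and the time.
-/

set_option autoImplicit false

namespace Pool.SLP

open Finset Real
open Pool.Agent.H49.Ent Pool.Agent.H32.Dense Pool.STK Pool.KAF

variable {Ω : Type} [Fintype Ω] {m : ℕ}

theorem fl_apx (j : ℕ) (y : Fin m → ℝ) (i : Fin m) : Pool.STK.fl j y i = ⌊(2 : ℝ) ^ j * y i⌋ := rfl

/-- The tangential digits. -/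
noncomputable def tdg (i₁ : Fin m) (r : ℕ) (x : Ω → Fin m → ℝ) (ω : Ω) : Fin m → ℤ :=
  fun i => if i = i₁ then 0 else ⌊(2 : ℝ) ^ r * x ω i⌋

/-- The tangential position. -/
noncomputable def tps (i₁ : Fin m) (x : Ω → Fin m → ℝ) (ω : Ω) : Fin m → ℝ :=
  fun i => if i = i₁ then 0 else x ω i

/-- The corner of the cell of the tangential position. -/
noncomputable def tco (i₁ : Fin m) (a : ℕ) (x : Ω → Fin m → ℝ) (ω : Ω) : Fin m → ℝ :=
  fun i => (tdg i₁ a x ω i : ℝ) / 2 ^ a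

/-- The static box. -/
noncomputable def sbx {τ : Type} {σ : ℕ → Type} (i₁ : Fin m) (a P : ℕ) (x : Ω → Fin m → ℝ)
    (G : Ω → (Fin m → ℝ) → ℝ) (W : Ω → τ) (S : ∀ r, Ω → σ r) (r : ℕ) (ω : Ω) :
    τ × (Fin m → ℤ) × ℤ × σ r :=
  (W ω, tdg i₁ a x ω, ⌊(2 : ℝ) ^ (P + r) * G ω (tco i₁ a x ω)⌋, S r ω)

omit [Fintype Ω] in
theorem tdg_mono (i₁ : Fin m) {r r' : ℕ} (h : r ≤ r') (x : Ω → Fin m → ℝ) {ω ω' : Ω}
    (e : tdg i₁ r' x ω = tdg i₁ r' x ω') : tdg i₁ r x ω = tdg i₁ r x ω' := by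
  funext i
  have h1 := congrFun e i
  unfold tdg at h1 ⊢
  by_cases hi : i = i₁
  · rw [if_pos hi, if_pos hi]
  · rw [if_neg hi, if_neg hi] at h1 ⊢
    refine Pool.OCT.floor_two_pow (r' - r) ?_
    have e1 : ∀ y : ℝ, (2 : ℝ) ^ (r' - r) * (2 ^ r * y) = 2 ^ r' * y := by
      intro y
      rw [← mul_assoc, ← pow_add, Nat.sub_add_cancel h]
    rw [e1, e1]
    exact h1

omit [Fintype Ω] in
theorem tdg_of_fl (i₁ : Fin m) {r : ℕ} (x : Ω → Fin m → ℝ) {ω ω' : Ω}
    (e : Pool.STK.fl r (x ω) = Pool.STK.fl r (x ω')) : tdg i₁ r x ω = tdg i₁ r x ω' := by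
  funext i
  unfold tdg
  by_cases hi : i = i₁
  · rw [if_pos hi, if_pos hi]
  · rw [if_neg hi, if_neg hi]
    exact congrFun e i

omit [Fintype Ω] in
theorem tco_eq (i₁ : Fin m) {a : ℕ} (x : Ω → Fin m → ℝ) {ω ω' : Ω}
    (e : tdg i₁ a x ω = tdg i₁ a x ω') : tco i₁ a x ω = tco i₁ a x ω' := by
  funext i
  unfold tco
  rw [e]

omit [Fintype Ω] in
/-- The tangential position is in its cell. -/
theorem tps_tco (i₁ : Fin m) (a : ℕ) (x : Ω → Fin m → ℝ) (ω : Ω) (i : Fin m) :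
    |tps i₁ x ω i - tco i₁ a x ω i| ≤ 1 / 2 ^ a := by
  unfold tps tco tdg
  by_cases hi : i = i₁
  · rw [if_pos hi, if_pos hi, Int.cast_zero, zero_div, sub_zero, abs_zero]
    positivity
  · rw [if_neg hi, if_neg hi]
    have h1 := Int.floor_le ((2 : ℝ) ^ a * x ω i)
    have h2 := Int.lt_floor_add_one ((2 : ℝ) ^ a * x ω i)
    have h0 : (0 : ℝ) < 2 ^ a := by positivity
    have e : x ω i - (⌊(2 : ℝ) ^ a * x ω i⌋ : ℝ) / 2 ^ a =
        (2 ^ a * x ω i - (⌊(2 : ℝ) ^ a * x ω i⌋ : ℝ)) / 2 ^ a := by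
      field_simp
    rw [e, abs_div, abs_of_pos h0]
    refine div_le_div_of_nonneg_right ?_ h0.le
    rw [abs_le]
    constructor <;> linarith

/-- **Entropy of the tangential digits in a cell.** -/
theorem tdg_ch {B : Type} {p : Ω → ℝ} (hp : IsLaw p) (i₁ : Fin m) (x : Ω → Fin m → ℝ) {a r : ℕ}
    (h : a ≤ r) (b : Ω → B) (hb : Det p b (tdg i₁ a x)) :
    CH p (tdg i₁ r x) b ≤ ((m : ℝ) - 1) * (((r : ℝ) - a) * Real.log 2) := by
  classical
  set s := r - a with hs
  set F : B → Finset (Fin m → ℤ) := fun g =>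
    if h : ∃ ω, 0 < p ω ∧ b ω = g then
      Fintype.piFinset fun i => if i = i₁ then {0} else
        Finset.Ico (2 ^ s * tdg i₁ a x h.choose i) (2 ^ s * (tdg i₁ a x h.choose i + 1))
    else ∅ with hF
  have hm : 1 ≤ m := Nat.succ_le_of_lt (lt_of_le_of_lt (Nat.zero_le _) i₁.2)
  have h1 := CH_le_card hp.nonneg hp.sum_one (tdg i₁ r x) b F (by
    intro ω hω
    have hex : ∃ ω', 0 < p ω' ∧ b ω' = b ω := ⟨ω, hω, rfl⟩
    simp only [hF]
    rw [dif_pos hex]
    have h2 := hex.choose_spec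
    have h3 : tdg i₁ a x hex.choose = tdg i₁ a x ω := hb _ _ h2.1 hω h2.2
    rw [h3, Fintype.mem_piFinset]
    intro i
    by_cases hi : i = i₁
    · rw [if_pos hi, Finset.mem_singleton]
      unfold tdg
      rw [if_pos hi]
    · rw [if_neg hi, Finset.mem_Ico]
      unfold tdg
      rw [if_neg hi, if_neg hi]
      have h4 := Int.floor_le ((2 : ℝ) ^ a * x ω i)
      have h5 := Int.lt_floor_add_one ((2 : ℝ) ^ a * x ω i)
      have e1 : (2 : ℝ) ^ r * x ω i = 2 ^ s * (2 ^ a * x ω i) := by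
        rw [← mul_assoc, ← pow_add, hs, Nat.sub_add_cancel h]
      have h0 : (0 : ℝ) < 2 ^ s := by positivity
      constructor
      · rw [Int.le_floor, e1]
        push_cast
        exact mul_le_mul_of_nonneg_left h4 h0.le
      · rw [Int.floor_lt, e1]
        push_cast
        exact mul_lt_mul_of_pos_left h5 h0)
  refine h1.trans ?_
  have h2 : Ex p (fun _ => ((m : ℝ) - 1) * (((r : ℝ) - a) * Real.log 2)) =
      ((m : ℝ) - 1) * (((r : ℝ) - a) * Real.log 2) := Ex_const hp.sum_one _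
  rw [← h2]
  refine Ex_mono hp.nonneg fun ω hω => ?_
  have hex : ∃ ω', 0 < p ω' ∧ b ω' = b ω := ⟨ω, hω, rfl⟩
  simp only [hF]
  rw [dif_pos hex, Fintype.card_piFinset]
  have e0 : ∀ i : Fin m, (((if i = i₁ then ({0} : Finset ℤ) else
      Finset.Ico (2 ^ s * tdg i₁ a x hex.choose i)
        (2 ^ s * (tdg i₁ a x hex.choose i + 1))).card : ℕ) : ℝ) =
      if i = i₁ then 1 else 2 ^ s := by
    intro i
    by_cases hi : i = i₁
    · rw [if_pos hi, if_pos hi, Finset.card_singleton, Nat.cast_one]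
    · rw [if_neg hi, if_neg hi, Int.card_Ico]
      have e1 : (2 ^ s * (tdg i₁ a x hex.choose i + 1) - 2 ^ s * tdg i₁ a x hex.choose i : ℤ) =
          2 ^ s := by ring
      rw [e1]
      have : (((2 : ℤ) ^ s).toNat : ℤ) = 2 ^ s := Int.toNat_of_nonneg (by positivity)
      have h3 : ((((2 : ℤ) ^ s).toNat : ℤ) : ℝ) = ((2 ^ s : ℤ) : ℝ) := by rw [this]
      push_cast at h3
      exact_mod_cast h3
  rw [Nat.cast_prod]
  simp only [e0]
  have e2 : ∏ i : Fin m, (if i = i₁ then (1 : ℝ) else 2 ^ s) = (2 ^ s) ^ (m - 1) := by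
    rw [← Finset.mul_prod_erase univ _ (Finset.mem_univ i₁), if_pos rfl, one_mul]
    rw [Finset.prod_congr rfl (fun i hi => if_neg (Finset.ne_of_mem_erase hi)),
      Finset.prod_const, Finset.card_erase_of_mem (Finset.mem_univ _), Finset.card_univ,
      Fintype.card_fin]
  rw [e2, Real.log_pow, Real.log_pow]
  refine le_of_eq ?_
  rw [hs, Nat.cast_sub h, Nat.cast_sub hm]
  push_cast
  ring

/-- **(H5) for curved sheets.** The height is measured over the point `c₀` of the box, which is a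
function of the context and the time. -/
theorem h5_sheet {τ β : Type} {σ : ℕ → Type} {p : Ω → ℝ} (hp : IsLaw p) (i₁ : Fin m)
    (x : Ω → Fin m → ℝ) (G : Ω → (Fin m → ℝ) → ℝ) (W : Ω → τ) (S : ∀ r, Ω → σ r) (b : Ω → β)
    (f : β → τ → ℝ) (c₀ : β → τ → Fin m → ℝ) (a P r h X : ℕ) {L C ρ c d e e₀ : ℝ} (hL : 0 ≤ L)
    (hC : 0 ≤ C) (haP : a ≤ P + r) (hrX : r + h ≤ X) (hρ : 1 / 2 ^ a ≤ ρ)
    (hLip : ∀ ω, 0 < p ω → ∀ z z' : Fin m → ℝ, (∀ i, |z i - tco i₁ a x ω i| ≤ 1 / 2 ^ a) →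
      (∀ i, |z' i - tco i₁ a x ω i| ≤ 1 / 2 ^ a) → ∀ δ : ℝ, (∀ i, |z i - z' i| ≤ δ) →
      |G ω z - G ω z'| ≤ L * δ)
    (hS : ∀ s ≤ X, ∀ ω ω', 0 < p ω → 0 < p ω' → W ω = W ω' → tdg i₁ a x ω = tdg i₁ a x ω' →
      S s ω = S s ω' → ∀ z : Fin m → ℝ, (∀ i, |z i - tco i₁ a x ω i| ≤ ρ) →
      |(G ω z - G ω (tco i₁ a x ω)) - (G ω' z - G ω' (tco i₁ a x ω'))| ≤ C / 2 ^ (P + s))
    (hSd : ∀ s s', s ≤ s' → s' ≤ X → Det p (S s') (S s))
    (hx : ∀ ω, 0 < p ω → |x ω i₁ - G ω (tps i₁ x ω)| ≤ 1 / 2 ^ (P + r + h))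
    (hc₀ : ∀ ω, 0 < p ω → ∀ i, |c₀ (b ω) (W ω) i - tco i₁ a x ω i| ≤ ρ)
    (hrow : CH p (fun ω => Pool.STK.fl (P + r + h) (x ω))
      (fun ω => (Pool.STK.fl (P + r) (x ω), W ω)) ≤ (m - c) * (h * Real.log 2))
    (hfull : ((m : ℝ) - 1) * (((P + r + h : ℕ) - (a : ℝ)) * Real.log 2) - d ≤
      CH p (tdg i₁ (P + r + h) x) (sbx i₁ a P x G W S (r + h)))
    (hFR : CH p (S X) (sbx i₁ a P x G W S 0) ≤ e)
    (hb : CH p (sbx i₁ a P x G W S 0) (fun ω => (b ω, W ω)) ≤ e₀) :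
    CH p (fun ω => ⌊(2 : ℝ) ^ (r + h) * (2 ^ P * (G ω (c₀ (b ω) (W ω)) - f (b ω) (W ω)))⌋)
        (fun ω => (⌊(2 : ℝ) ^ r * (2 ^ P * (G ω (c₀ (b ω) (W ω)) - f (b ω) (W ω)))⌋,
          b ω, W ω)) ≤
      (1 - c) * (h * Real.log 2) + d + 2 * e + e₀ +
        (m + 3) * Real.log (2 * (L + C + 4) + 1) := by
  classical
  have hnn := hp.nonneg
  obtain ⟨N, hN⟩ : ∃ N : Ω → ℝ, N = fun ω => 2 ^ P * (G ω (c₀ (b ω) (W ω)) - f (b ω) (W ω)) :=
    ⟨_, rfl⟩
  -- floors of the height of the sheet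
  obtain ⟨Hg, hHg⟩ : ∃ Hg : ℕ → Ω → ℤ, Hg = fun s ω => ⌊(2 : ℝ) ^ (P + s) * G ω (tco i₁ a x ω)⌋ :=
    ⟨_, rfl⟩
  have hsb : ∀ s ω ω', sbx i₁ a P x G W S s ω = sbx i₁ a P x G W S s ω' →
      W ω = W ω' ∧ tdg i₁ a x ω = tdg i₁ a x ω' ∧ Hg s ω = Hg s ω' ∧ S s ω = S s ω' := by
    intro s ω ω' he
    have h1 := Prod.ext_iff.1 he
    have h2 := Prod.ext_iff.1 h1.2
    have h3 := Prod.ext_iff.1 h2.2
    rw [hHg]
    exact ⟨h1.1, h2.1, h3.1, h3.2⟩
  have hsb' : ∀ s ω ω', W ω = W ω' → tdg i₁ a x ω = tdg i₁ a x ω' → Hg s ω = Hg s ω' →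
      S s ω = S s ω' → sbx i₁ a P x G W S s ω = sbx i₁ a P x G W S s ω' := by
    intro s ω ω' h1 h2 h3 h4
    rw [hHg] at h3
    exact Prod.ext h1 (Prod.ext h2 (Prod.ext h3 h4))
  have hHgm : ∀ s s', s ≤ s' → ∀ ω ω', Hg s' ω = Hg s' ω' → Hg s ω = Hg s ω' := by
    intro s s' hs ω ω' he
    rw [hHg] at he ⊢
    refine Pool.OCT.floor_two_pow (s' - s) ?_
    have e1 : ∀ y : ℝ, (2 : ℝ) ^ (s' - s) * (2 ^ (P + s) * y) = 2 ^ (P + s') * y := by
      intro y
      rw [← mul_assoc, ← pow_add]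
      congr 2
      omega
    simp only [e1]
    exact he
  have hBB : ∀ s s', s ≤ s' → s' ≤ X →
      Det p (sbx i₁ a P x G W S s') (sbx i₁ a P x G W S s) := by
    intro s s' hs hs' ω ω' hω hω' he
    obtain ⟨h1, h2, h3, h4⟩ := hsb s' ω ω' he
    exact hsb' s ω ω' h1 h2 (hHgm s s' hs ω ω' h3) (hSd s s' hs hs' ω ω' hω hω' h4)
  -- (4) the coarse position
  have h4 : CH p (fun ω => Pool.STK.fl (P + r) (x ω))
      (fun ω => (tdg i₁ (P + r) x ω, sbx i₁ a P x G W S r ω)) ≤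
      m * Real.log (2 * (L + C + 4) + 1) := by
    refine (CH_le_vec hnn hp.sum_one _ _ (fun _ => L + C + 4) ?_).trans ?_
    · intro ω ω' hω hω' he i
      have e1 := Prod.ext_iff.1 he
      obtain ⟨g1, g2, g3, g4⟩ := hsb r ω ω' e1.2
      have g5 : tdg i₁ (P + r) x ω = tdg i₁ (P + r) x ω' := e1.1
      by_cases hi : i = i₁
      · rw [hi, fl_apx, fl_apx]
        refine (Pool.OCT.floor_diff (L := L + C + 3) ?_).trans (by linarith)
        have hpp : (0 : ℝ) < 2 ^ (P + r) := by positivity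
        have hle : (1 : ℝ) / 2 ^ (P + r + h) ≤ 1 / 2 ^ (P + r) :=
          one_div_le_one_div_of_le hpp (pow_le_pow_right₀ (by norm_num) (by omega))
        have k1 := (hx ω hω).trans hle
        have k2 := (hx ω' hω').trans hle
        have k3 : ∀ j, |tps i₁ x ω j - tps i₁ x ω' j| ≤ 1 / 2 ^ (P + r) := by
          intro j
          unfold tps
          by_cases hj : j = i₁
          · rw [if_pos hj, if_pos hj, sub_self, abs_zero]
            positivity
          · rw [if_neg hj, if_neg hj]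
            have q1 := congrFun g5 j
            unfold tdg at q1
            rw [if_neg hj, if_neg hj] at q1
            have q2 := Pool.OCT.floor_eq_near q1
            rw [← mul_sub, abs_mul, abs_of_pos hpp] at q2
            rw [le_div_iff₀ hpp, mul_comm]
            exact q2
        have q3 := tps_tco i₁ a x ω
        have q4 := tps_tco i₁ a x ω'
        have q5 : tco i₁ a x ω = tco i₁ a x ω' := tco_eq i₁ x g2
        have k4 := hLip ω' hω' (tps i₁ x ω) (tps i₁ x ω') (by rw [← q5]; exact q3) q4 _ k3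
        have k5 := hS r (by omega) ω ω' hω hω' g1 g2 g4 (tps i₁ x ω) (fun j => (q3 j).trans hρ)
        have k6 : |(2 : ℝ) ^ (P + r) * G ω (tco i₁ a x ω) -
            2 ^ (P + r) * G ω' (tco i₁ a x ω')| ≤ 1 := by
          rw [hHg] at g3
          exact Pool.OCT.floor_eq_near g3
        rw [← mul_sub, abs_mul, abs_of_pos hpp] at k6 ⊢
        have k7 : |G ω (tco i₁ a x ω) - G ω' (tco i₁ a x ω')| ≤ 1 / 2 ^ (P + r) := by
          rw [le_div_iff₀ hpp, mul_comm]
          exact k6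
        have k8 : |x ω i₁ - x ω' i₁| ≤ (L + C + 3) / 2 ^ (P + r) := by
          have e5 : (L + C + 3) / 2 ^ (P + r) = 1 / 2 ^ (P + r) + 1 / 2 ^ (P + r) +
              1 / 2 ^ (P + r) + C / 2 ^ (P + r) + L * (1 / 2 ^ (P + r)) := by
            field_simp
            ring
          rw [e5]
          rw [abs_le] at k1 k2 k4 k5 k7 ⊢
          constructor <;> linarith [k1.1, k1.2, k2.1, k2.2, k4.1, k4.2, k5.1, k5.2, k7.1, k7.2]
        calc (2 : ℝ) ^ (P + r) * |x ω i₁ - x ω' i₁| ≤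
            2 ^ (P + r) * ((L + C + 3) / 2 ^ (P + r)) := mul_le_mul_of_nonneg_left k8 hpp.le
          _ = L + C + 3 := by field_simp
      · have q1 := congrFun g5 i
        unfold tdg at q1
        rw [if_neg hi, if_neg hi] at q1
        rw [fl_apx, fl_apx, q1, sub_self]
        simp only [Int.cast_zero, abs_zero]
        linarith
    · rw [Ex_const hp.sum_one]
  -- the fine height given the shape and the fine position
  have h5a : CH p (Hg (r + h)) (fun ω => (S (r + h) ω,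
      (Pool.STK.fl (P + r + h) (x ω), sbx i₁ a P x G W S r ω))) ≤
      Real.log (2 * (L + C + 4) + 1) := by
    refine (CH_le_int hnn hp.sum_one _ _ (fun _ => L + C + 4) ?_).trans ?_
    · intro ω ω' hω hω' he
      have e1 := Prod.ext_iff.1 he
      have e2 := Prod.ext_iff.1 e1.2
      obtain ⟨g1, g2, g3, g4⟩ := hsb r ω ω' e2.2
      have g5 : Pool.STK.fl (P + r + h) (x ω) = Pool.STK.fl (P + r + h) (x ω') := e2.1
      have g6 : S (r + h) ω = S (r + h) ω' := e1.1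
      rw [hHg]
      refine (Pool.OCT.floor_diff (L := L + C + 3) ?_).trans (by linarith)
      have hpp : (0 : ℝ) < 2 ^ (P + (r + h)) := by positivity
      have e3 : P + r + h = P + (r + h) := by omega
      have k1 := hx ω hω
      have k2 := hx ω' hω'
      rw [e3] at k1 k2 g5
      have k0 : ∀ j, |x ω j - x ω' j| ≤ 1 / 2 ^ (P + (r + h)) := by
        intro j
        have q1 := congrFun g5 j
        rw [fl_apx, fl_apx] at q1
        have q2 := Pool.OCT.floor_eq_near q1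
        rw [← mul_sub, abs_mul, abs_of_pos hpp] at q2
        rw [le_div_iff₀ hpp, mul_comm]
        exact q2
      have k3 : ∀ j, |tps i₁ x ω j - tps i₁ x ω' j| ≤ 1 / 2 ^ (P + (r + h)) := by
        intro j
        unfold tps
        by_cases hj : j = i₁
        · rw [if_pos hj, if_pos hj, sub_self, abs_zero]
          positivity
        · rw [if_neg hj, if_neg hj]
          exact k0 j
      have q3 := tps_tco i₁ a x ω
      have q4 := tps_tco i₁ a x ω'
      have q5 : tco i₁ a x ω = tco i₁ a x ω' := tco_eq i₁ x g2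
      have k4 := hLip ω' hω' (tps i₁ x ω) (tps i₁ x ω') (by rw [← q5]; exact q3) q4 _ k3
      have k5 := hS (r + h) hrX ω ω' hω hω' g1 g2 g6 (tps i₁ x ω) (fun j => (q3 j).trans hρ)
      have k6 := k0 i₁
      rw [← mul_sub, abs_mul, abs_of_pos hpp]
      have k8 : |G ω (tco i₁ a x ω) - G ω' (tco i₁ a x ω')| ≤
          (L + C + 3) / 2 ^ (P + (r + h)) := by
        have e5 : (L + C + 3) / 2 ^ (P + (r + h)) = 1 / 2 ^ (P + (r + h)) +
            1 / 2 ^ (P + (r + h)) + 1 / 2 ^ (P + (r + h)) + C / 2 ^ (P + (r + h)) +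
            L * (1 / 2 ^ (P + (r + h))) := by
          field_simp
          ring
        rw [e5]
        rw [abs_le] at k1 k2 k4 k5 k6 ⊢
        constructor <;> linarith [k1.1, k1.2, k2.1, k2.2, k4.1, k4.2, k5.1, k5.2, k6.1, k6.2]
      calc (2 : ℝ) ^ (P + (r + h)) * |G ω (tco i₁ a x ω) - G ω' (tco i₁ a x ω')| ≤
          2 ^ (P + (r + h)) * ((L + C + 3) / 2 ^ (P + (r + h))) :=
            mul_le_mul_of_nonneg_left k8 hpp.le
        _ = L + C + 3 := by field_simp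
    · rw [Ex_const hp.sum_one]
  -- the shape from the coarse box
  have hSB : ∀ s ≤ X, CH p (S s) (sbx i₁ a P x G W S 0) ≤ e := by
    intro s hs
    refine le_trans ?_ hFR
    refine CH_mono_left hnn ?_
    intro ω ω' hω hω' he
    exact hSd s X hs le_rfl ω ω' hω hω' (Prod.ext_iff.1 he).1
  -- (5) the fine box
  have h5 : CH p (sbx i₁ a P x G W S (r + h)) (fun ω => (Pool.STK.fl (P + r + h) (x ω),
      sbx i₁ a P x G W S r ω)) ≤ e + Real.log (2 * (L + C + 4) + 1) := by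
    have c1 : CH p (sbx i₁ a P x G W S (r + h)) (fun ω => (Pool.STK.fl (P + r + h) (x ω),
        sbx i₁ a P x G W S r ω)) ≤ CH p (fun ω => (Hg (r + h) ω, S (r + h) ω))
        (fun ω => (Pool.STK.fl (P + r + h) (x ω), sbx i₁ a P x G W S r ω)) := by
      refine CH_mono_left hnn ?_
      intro ω ω' _ _ he
      have e1 := Prod.ext_iff.1 he
      have e2 := Prod.ext_iff.1 e1.1
      have e3 := Prod.ext_iff.1 e1.2
      obtain ⟨g1, g2, -, -⟩ := hsb r ω ω' e3.2
      exact hsb' (r + h) ω ω' g1 g2 e2.1 e2.2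
    have c2 := CH_chain hnn (Hg (r + h)) (S (r + h))
      (fun ω => (Pool.STK.fl (P + r + h) (x ω), sbx i₁ a P x G W S r ω))
    have c3 : CH p (S (r + h)) (fun ω => (Pool.STK.fl (P + r + h) (x ω),
        sbx i₁ a P x G W S r ω)) ≤ CH p (S (r + h)) (sbx i₁ a P x G W S 0) := by
      refine CH_mono_cond hnn ?_
      intro ω ω' hω hω' he
      exact hBB 0 r (Nat.zero_le _) (by omega) ω ω' hω hω' (Prod.ext_iff.1 he).2
    have c4 := hSB (r + h) hrX
    linarith
  -- (6) the coarse box in the context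
  have h6 : CH p (sbx i₁ a P x G W S r) (fun ω => (⌊(2 : ℝ) ^ r * N ω⌋, b ω, W ω)) ≤
      e₀ + e + Real.log (2 * (L + C + 4) + 1) := by
    have c1 := CH_le_add hnn (sbx i₁ a P x G W S r) (sbx i₁ a P x G W S 0)
      (fun ω => (⌊(2 : ℝ) ^ r * N ω⌋, b ω, W ω))
    have c2 : CH p (sbx i₁ a P x G W S 0) (fun ω => (⌊(2 : ℝ) ^ r * N ω⌋, b ω, W ω)) ≤
        CH p (sbx i₁ a P x G W S 0) (fun ω => (b ω, W ω)) := by
      refine CH_mono_cond hnn ?_
      intro ω ω' _ _ he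
      exact (Prod.ext_iff.1 he).2
    have c3 := CH_le_add hnn (sbx i₁ a P x G W S r) (S r)
      (fun ω => (sbx i₁ a P x G W S 0 ω, (⌊(2 : ℝ) ^ r * N ω⌋, b ω, W ω)))
    have c4 : CH p (S r) (fun ω => (sbx i₁ a P x G W S 0 ω, (⌊(2 : ℝ) ^ r * N ω⌋, b ω, W ω))) ≤
        CH p (S r) (sbx i₁ a P x G W S 0) := by
      refine CH_mono_cond hnn ?_
      intro ω ω' _ _ he
      exact (Prod.ext_iff.1 he).1
    have c5 := hSB r (by omega)
    have c6 : CH p (sbx i₁ a P x G W S r) (fun ω => (S r ω, (sbx i₁ a P x G W S 0 ω,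
        (⌊(2 : ℝ) ^ r * N ω⌋, b ω, W ω)))) ≤ Real.log (2 * (L + C + 4) + 1) := by
      have d1 : CH p (sbx i₁ a P x G W S r) (fun ω => (S r ω, (sbx i₁ a P x G W S 0 ω,
          (⌊(2 : ℝ) ^ r * N ω⌋, b ω, W ω)))) ≤ CH p (Hg r) (fun ω => (S r ω,
          (sbx i₁ a P x G W S 0 ω, (⌊(2 : ℝ) ^ r * N ω⌋, b ω, W ω)))) := by
        refine CH_mono_left hnn ?_
        intro ω ω' _ _ he
        have e1 := Prod.ext_iff.1 he
        have e2 := Prod.ext_iff.1 e1.2
        have e3 := Prod.ext_iff.1 e2.2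
        obtain ⟨g1, g2, -, -⟩ := hsb 0 ω ω' e3.1
        exact hsb' r ω ω' g1 g2 e1.1 e2.1
      refine d1.trans ((CH_le_int hnn hp.sum_one _ _ (fun _ => L + C + 4) ?_).trans ?_)
      · intro ω ω' hω hω' he
        have e2 := Prod.ext_iff.1 he
        have e3 := Prod.ext_iff.1 e2.2
        have e4 := Prod.ext_iff.1 e3.2
        have e5 := Prod.ext_iff.1 e4.2
        obtain ⟨g4, g5, -, -⟩ := hsb 0 ω ω' e3.1
        have g0 : S r ω = S r ω' := e2.1
        have g1 : ⌊(2 : ℝ) ^ r * N ω⌋ = ⌊(2 : ℝ) ^ r * N ω'⌋ := e4.1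
        have g2 : b ω = b ω' := e5.1
        rw [hHg]
        refine (Pool.OCT.floor_diff (L := 1 + C) ?_).trans (by linarith)
        have q1 := Pool.OCT.floor_eq_near g1
        rw [hN] at q1
        simp only [g2, g4] at q1
        have hpp : (0 : ℝ) < 2 ^ (P + r) := by positivity
        have q2 := hS r (by omega) ω ω' hω hω' g4 g5 g0 (c₀ (b ω') (W ω')) (by
          have := hc₀ ω hω
          rw [g2, g4] at this
          exact this)
        have e6 : (2 : ℝ) ^ r * (2 ^ P * (G ω (c₀ (b ω') (W ω')) - f (b ω') (W ω'))) -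
            2 ^ r * (2 ^ P * (G ω' (c₀ (b ω') (W ω')) - f (b ω') (W ω'))) =
            2 ^ (P + r) * (G ω (c₀ (b ω') (W ω')) - G ω' (c₀ (b ω') (W ω'))) := by
          rw [pow_add]
          ring
        rw [e6, abs_mul, abs_of_pos hpp] at q1
        have q3 : |G ω (c₀ (b ω') (W ω')) - G ω' (c₀ (b ω') (W ω'))| ≤ 1 / 2 ^ (P + r) := by
          rw [le_div_iff₀ hpp, mul_comm]
          exact q1
        rw [← mul_sub, abs_mul, abs_of_pos hpp]
        have q4 : |G ω (tco i₁ a x ω) - G ω' (tco i₁ a x ω')| ≤ (1 + C) / 2 ^ (P + r) := by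
          have e7 : (1 + C) / 2 ^ (P + r) = 1 / 2 ^ (P + r) + C / 2 ^ (P + r) := by ring
          rw [e7]
          rw [abs_le] at q2 q3 ⊢
          constructor <;> linarith [q2.1, q2.2, q3.1, q3.2]
        calc (2 : ℝ) ^ (P + r) * |G ω (tco i₁ a x ω) - G ω' (tco i₁ a x ω')| ≤
            2 ^ (P + r) * ((1 + C) / 2 ^ (P + r)) := mul_le_mul_of_nonneg_left q4 hpp.le
          _ = 1 + C := by field_simp
      · rw [Ex_const hp.sum_one]
    linarith
  -- (7) the fine height in the context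
  have h7 : CH p (fun ω => ⌊(2 : ℝ) ^ (r + h) * N ω⌋)
      (fun ω => (sbx i₁ a P x G W S (r + h) ω, b ω, W ω)) ≤
      Real.log (2 * (L + C + 4) + 1) := by
    refine (CH_le_int hnn hp.sum_one _ _ (fun _ => L + C + 4) ?_).trans ?_
    · intro ω ω' hω hω' he
      have e3 := Prod.ext_iff.1 he
      have e5 := Prod.ext_iff.1 e3.2
      obtain ⟨g1, g2, g3, g4⟩ := hsb (r + h) ω ω' e3.1
      have g5 : b ω = b ω' := e5.1
      refine (Pool.OCT.floor_diff (L := 1 + C) ?_).trans (by linarith)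
      rw [hHg] at g3
      have q1 := Pool.OCT.floor_eq_near g3
      have hpp : (0 : ℝ) < 2 ^ (P + (r + h)) := by positivity
      have q2 := hS (r + h) hrX ω ω' hω hω' g1 g2 g4 (c₀ (b ω') (W ω')) (by
        have := hc₀ ω hω
        rw [g5, g1] at this
        exact this)
      rw [← mul_sub, abs_mul, abs_of_pos hpp] at q1
      have q3 : |G ω (tco i₁ a x ω) - G ω' (tco i₁ a x ω')| ≤ 1 / 2 ^ (P + (r + h)) := by
        rw [le_div_iff₀ hpp, mul_comm]
        exact q1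
      rw [hN]
      simp only [g5, g1]
      have e6 : (2 : ℝ) ^ (r + h) * (2 ^ P * (G ω (c₀ (b ω') (W ω')) - f (b ω') (W ω'))) -
          2 ^ (r + h) * (2 ^ P * (G ω' (c₀ (b ω') (W ω')) - f (b ω') (W ω'))) =
          2 ^ (P + (r + h)) * (G ω (c₀ (b ω') (W ω')) - G ω' (c₀ (b ω') (W ω'))) := by
        rw [pow_add 2 P (r + h)]
        ring
      rw [e6, abs_mul, abs_of_pos hpp]
      have q4 : |G ω (c₀ (b ω') (W ω')) - G ω' (c₀ (b ω') (W ω'))| ≤
          (1 + C) / 2 ^ (P + (r + h)) := by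
        have e7 : (1 + C) / 2 ^ (P + (r + h)) = 1 / 2 ^ (P + (r + h)) + C / 2 ^ (P + (r + h)) := by
          ring
        rw [e7]
        rw [abs_le] at q2 q3 ⊢
        constructor <;> linarith [q2.1, q2.2, q3.1, q3.2]
      calc (2 : ℝ) ^ (P + (r + h)) * |G ω (c₀ (b ω') (W ω')) - G ω' (c₀ (b ω') (W ω'))| ≤
          2 ^ (P + (r + h)) * ((1 + C) / 2 ^ (P + (r + h))) :=
            mul_le_mul_of_nonneg_left q4 hpp.le
        _ = 1 + C := by field_simp
    · rw [Ex_const hp.sum_one]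
  -- (3) tangential digits
  have h3 := tdg_ch hp i₁ x (a := a) (r := P + r) (by omega) (sbx i₁ a P x G W S r)
    (fun ω ω' _ _ he => (hsb r ω ω' he).2.1)
  have key := h5_acc hnn W b (fun ω => Pool.STK.fl (P + r) (x ω))
    (fun ω => Pool.STK.fl (P + r + h) (x ω)) (tdg i₁ (P + r) x) (tdg i₁ (P + r + h) x)
    (sbx i₁ a P x G W S r) (sbx i₁ a P x G W S (r + h)) (fun ω => ⌊(2 : ℝ) ^ r * N ω⌋)
    (fun ω => ⌊(2 : ℝ) ^ (r + h) * N ω⌋)
    (fun ω ω' _ _ he => tdg_of_fl i₁ x he) (fun ω ω' _ _ he => (hsb r ω ω' he).1)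
    (hBB r (r + h) (by omega) hrX) hrow hfull h3 h4 h5 h6 h7
  rw [hN] at key
  refine key.trans (le_of_eq ?_)
  push_cast
  ring

end Pool.SLP
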