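import Pool.Agent.H29.LP.Star

/-!
# Backward rows for arbitrary displacement functions

One value of the context. `A` is the normal coordinate at the base time, `X` at another time,
`o` the data of the line, `g` the displacement: `X = A + g (o)`. If both normal coordinates are
nearly independent of the data and the rows of the block below `κ` are not full, then two typical
values of the data whose displacements differ by at most `2 ^ κ` have displacements which differ
by less than `2 ^ β`.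
-/

set_option autoImplicit false

namespace Pool.SLP

open Finset Real
open Pool.Agent.H49.Ent Pool.Agent.H32.Dense Pool.STK Pool.KVA Pool.KX Pool.KAL Pool.KAF Pool.LP

/-- The product of a law with the uniform law of a box is a law. -/
theorem smp_isLaw {Ω : Type} [Fintype Ω] {p : Ω → ℝ} (hp : IsLaw p) (N : ℕ) (hN : 0 < N) :
    IsLaw (smp 1 N p) := by
  constructor
  · intro w
    unfold smp
    exact div_nonneg (hp.nonneg _) (by positivity)
  · unfold smp
    rw [Fintype.sum_prod_type]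
    have hNr : (0 : ℝ) < N := by exact_mod_cast hN
    have e1 : ∀ ω : Ω, ∑ _t : Fin 1 → Fin N, p ω / (N : ℝ) ^ 1 = p ω := by
      intro ω
      rw [Finset.sum_const, Finset.card_univ, Fintype.card_fun, Fintype.card_fin,
        Fintype.card_fin, nsmul_eq_mul]
      push_cast
      field_simp
    simp only [e1]
    exact hp.sum_one

/-- Nonnegativity of a probability. -/
theorem Pr_nonneg' {Ω : Type} [Fintype Ω] {p : Ω → ℝ} (hp : IsLaw p) (B : Set Ω) :
    0 ≤ Pr p B := by
  unfold Pr law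
  refine Finset.sum_nonneg fun ω _ => ?_
  split_ifs
  · exact hp.nonneg ω
  · exact le_rfl

/-- **Backward rows.** -/
theorem brg {Z Ω : Type} [Fintype Ω] {p : Ω → ℝ} (hp : IsLaw p) (A X : Ω → ℤ) (o : Ω → Z)
    (g : Z → ℤ) (B : Set Ω) (κ L β N : ℕ) (R e₁ e₂ ρ e : ℝ)
    (hκ : κ ≤ L) (hN : 0 < N) (hR : 0 ≤ R) (hρ : 0 < ρ)
    (he : (2 * (2 * Real.sqrt e₁ + e₂)) / ρ + 2 * (R / N) ≤ e) (he0 : 0 ≤ e)
    (he2 : 9 * 4 ^ (L - β) * e ≤ 1)
    (hX : ∀ ω, ω ∉ B → |((X ω - A ω - g (o ω) : ℤ) : ℝ)| ≤ R) (hB : Pr p B ≤ e₂)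
    (hA : H p A + H p o - H p (fun ω => (A ω, o ω)) ≤ e₁)
    (hXo : H p X + H p o - H p (fun ω => (X ω, o ω)) ≤ e₁)
    (hent : CH (smp 1 N p) (fun w => (A w.1 + ((w.2 0 : ℕ) : ℤ)) / ((2 ^ κ : ℕ) : ℤ))
      (fun w => ((A w.1 + ((w.2 0 : ℕ) : ℤ)) / ((2 ^ L : ℕ) : ℤ), ())) <
      ((L : ℝ) - κ) * Real.log 2 - 5)
    (z z' : Z) (hz : ρ ≤ law p o z) (hz' : ρ ≤ law p o z') (hap : |g z - g z'| ≤ 2 ^ κ) :
    |g z - g z'| < 2 ^ β := by
  classical
  have hsmp := smp_isLaw hp N hN
  have hTIV : TIV (smp 1 N p) (fun w => A w.1 + ((w.2 0 : ℕ) : ℤ)) (fun _ => ())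
      (g z - g z') e := by
    have ht := ti1_thm 1 N Ω Z Unit p (fun ω _ => A ω) (fun ω _ => X ω) (fun _ => ())
      o (fun w _ => -g w) B R e₁ e₁ z' z hp hN hR ?_ ?_ ?_ (lt_of_lt_of_le hρ hz')
      (lt_of_lt_of_le hρ hz)
    · have ht' := tiv_scalar _ _ _ _ ht
      intro E
      have h1 := ht' E
      have e0 : ((fun _ : Fin 1 => -g z') - fun _ : Fin 1 => -g z) 0 = g z - g z' := by
        show -g z' - -g z = _
        ring
      rw [e0] at h1
      refine h1.trans (le_trans ?_ he)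
      have hq : 0 ≤ Real.sqrt e₁ + Real.sqrt e₁ + Pr p B := by
        have h2 := Real.sqrt_nonneg e₁
        have h3 := Pr_nonneg' hp B
        linarith
      have h4 : ∀ s, ρ ≤ law p o s → (Real.sqrt e₁ + Real.sqrt e₁ + Pr p B) / law p o s ≤
          (2 * Real.sqrt e₁ + e₂) / ρ := by
        intro s hs
        refine div_le_div₀ ?_ ?_ hρ hs
        · linarith
        · linarith
      have h5 := h4 z hz
      have h6 := h4 z' hz'
      have e1 : (2 * (2 * Real.sqrt e₁ + e₂)) / ρ =
          (2 * Real.sqrt e₁ + e₂) / ρ + (2 * Real.sqrt e₁ + e₂) / ρ := by ring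
      have e3 : (2 : ℝ) * (((1 : ℕ) : ℝ) * R / N) = 2 * (R / N) := by
        push_cast
        ring
      rw [e1, e3]
      linarith
    · intro ω hω i
      have h1 := hX ω hω
      have e1 : ((A ω - X ω - -g (o ω) : ℤ) : ℝ) = -((X ω - A ω - g (o ω) : ℤ) : ℝ) := by
        push_cast
        ring
      show |((A ω - X ω - -g (o ω) : ℤ) : ℝ)| ≤ R
      rw [e1, abs_neg]
      exact h1
    · refine le_trans (le_of_eq ?_) hA
      rw [H_wrap hp A, H_wrap' hp A o]
    · refine le_trans (le_of_eq ?_) hXo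
      rw [H_wrap hp X, H_wrap' hp X o]
  by_contra hne
  push Not at hne
  exact absurd (full_of_tiv hsmp _ _ κ L β _ e hκ hne hap he0 he2 hTIV) (not_le.2 hent)

end Pool.SLP
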