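import Pool.Agent.H81.SLP.Ctx
import Pool.Agent.H10.KAL.SVP
import Mathlib.LinearAlgebra.Lagrange

/-!
# Taylor polynomials of polynomials, and interpolation in the time slot

`tay_tr`: a polynomial of degree at most `D` is within `C M d ^ (K + 1)` of its Taylor polynomial of
total degree `K` on the cube of radius `d ≤ 1`. `tim_ball`: a polynomial which is small at `K + 1`
separated times of a ball is small at all times of the ball.
-/

set_option autoImplicit false

namespace Pool.SLP

open Finset MvPolynomial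
open Pool.KAL Pool.SLO

section tay

variable {n : ℕ}

/-- The part of degree at most `K`. -/
noncomputable def trn (K : ℕ) (P : MvPolynomial (Fin n) ℝ) : MvPolynomial (Fin n) ℝ :=
  ∑ s ∈ P.support.filter (fun s => s.sum (fun _ e => e) ≤ K), monomial s (coeff s P)

/-- The Taylor polynomial of total degree `K` at the point `x₀`. -/
noncomputable def tay (K : ℕ) (x₀ : Fin n → ℝ) (R : MvPolynomial (Fin n) ℝ) :
    MvPolynomial (Fin n) ℝ := shf (trn K (shf R 1 x₀)) 1 (fun i => -x₀ i)

theorem totalDegree_trn (K : ℕ) (P : MvPolynomial (Fin n) ℝ) : (trn K P).totalDegree ≤ K := by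
  classical
  unfold trn
  refine (totalDegree_finsetSum _ _).trans (Finset.sup_le fun s hs => ?_)
  exact (totalDegree_monomial_le _ _).trans (Finset.mem_filter.1 hs).2

theorem totalDegree_tay (K : ℕ) (x₀ : Fin n → ℝ) (R : MvPolynomial (Fin n) ℝ) :
    (tay K x₀ R).totalDegree ≤ K :=
  (totalDegree_shf_le _ _ _).trans (totalDegree_trn _ _)

theorem eval_trn_sub (K : ℕ) (P : MvPolynomial (Fin n) ℝ) (u : Fin n → ℝ) {d : ℝ} (hd : 0 ≤ d)
    (hd1 : d ≤ 1) (hu : ∀ i, |u i| ≤ d) :
    |eval u P - eval u (trn K P)| ≤ coefSum P * d ^ (K + 1) := by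
  classical
  have h1 : eval u P = ∑ s ∈ P.support, coeff s P * ∏ i, u i ^ s i := eval_eq' _ _
  have h2 : eval u (trn K P) =
      ∑ s ∈ P.support.filter (fun s => s.sum (fun _ e => e) ≤ K),
        coeff s P * ∏ i, u i ^ s i := by
    unfold trn
    rw [map_sum]
    refine Finset.sum_congr rfl fun s _ => ?_
    rw [eval_monomial, Finsupp.prod_fintype]
    intro i
    exact pow_zero _
  rw [h1, h2, Finset.sum_filter, ← Finset.sum_sub_distrib]
  refine (Finset.abs_sum_le_sum_abs _ _).trans ?_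
  unfold coefSum
  rw [Finset.sum_mul]
  refine Finset.sum_le_sum fun s _ => ?_
  by_cases h3 : s.sum (fun _ e => e) ≤ K
  · rw [if_pos h3, sub_self, abs_zero]
    positivity
  · rw [if_neg h3, sub_zero, abs_mul]
    refine mul_le_mul_of_nonneg_left ?_ (abs_nonneg _)
    rw [Finset.abs_prod]
    have h5 : ∏ i, |u i ^ s i| ≤ ∏ i, d ^ s i := by
      refine Finset.prod_le_prod (fun i _ => abs_nonneg _) fun i _ => ?_
      rw [abs_pow]
      exact pow_le_pow_left₀ (abs_nonneg _) (hu i) _
    refine h5.trans ?_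
    rw [Finset.prod_pow_eq_pow_sum]
    refine pow_le_pow_of_le_one hd hd1 ?_
    rw [Finsupp.sum_fintype _ _ (fun _ => rfl)] at h3
    omega

/-- **Taylor truncation.** -/
theorem tay_tr (n D : ℕ) (A : ℝ) (hA : 0 ≤ A) : ∃ C : ℝ, 1 ≤ C ∧ ∀ (K : ℕ)
    (R : MvPolynomial (Fin n) ℝ) (x₀ : Fin n → ℝ) (d : ℝ), R.totalDegree ≤ D →
    (∀ i, |x₀ i| ≤ A) → 0 ≤ d → d ≤ 1 → ∀ y : Fin n → ℝ, (∀ i, |y i - x₀ i| ≤ d) →
      |eval y R - eval y (tay K x₀ R)| ≤ C * coefSum R * d ^ (K + 1) := by
  refine ⟨(1 + A) ^ D, one_le_pow₀ (by linarith), ?_⟩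
  intro K R x₀ d hR hx hd hd1 y hy
  have h1 := eval_trn_sub K (shf R 1 x₀) (fun i => y i - x₀ i) hd hd1 hy
  have e1 : eval (fun i => y i - x₀ i) (shf R 1 x₀) = eval y R := by
    rw [eval_shf]
    congr 2
    funext i
    ring
  have e2 : eval (fun i => y i - x₀ i) (trn K (shf R 1 x₀)) = eval y (tay K x₀ R) := by
    unfold tay
    rw [eval_shf]
    congr 2
    funext i
    ring
  rw [e1, e2] at h1
  refine h1.trans (mul_le_mul_of_nonneg_right ?_ (pow_nonneg hd _))
  have h2 := Psi_le_of_dist R 1 A one_pos hA (fun _ => 0) x₀ (by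
    intro i
    rw [sub_zero, mul_one]
    exact hx i)
  have e3 : Psi R 1 (fun _ => 0) = coefSum R := by
    unfold Psi
    rw [shf_zero_one]
  rw [e3] at h2
  refine h2.trans (mul_le_mul_of_nonneg_right ?_ (coefSum_nonneg _))
  exact pow_le_pow_right₀ (by linarith) hR

end tay

/-- **Interpolation.** -/
theorem lag_ball {K : ℕ} (p : Polynomial ℝ) (hp : p.natDegree ≤ K) (θ : Fin (K + 1) → ℝ)
    {t₀ r c e : ℝ} (hr : 0 < r) (hc : 0 < c) (hθ : ∀ i, |θ i - t₀| ≤ r)
    (hs : ∀ i j, i ≠ j → c * r ≤ |θ i - θ j|) (he : ∀ i, |p.eval (θ i)| ≤ e) {t : ℝ}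
    (ht : |t - t₀| ≤ r) : |p.eval t| ≤ (K + 1) * (2 / c) ^ K * e := by
  classical
  have hinj : Set.InjOn θ (univ : Finset (Fin (K + 1))) := by
    intro i _ j _ hij
    by_contra hne
    have h1 := hs i j hne
    rw [hij, sub_self, abs_zero] at h1
    have : 0 < c * r := mul_pos hc hr
    linarith
  have he0 : 0 ≤ e := (abs_nonneg _).trans (he 0)
  have hdeg : p.degree < (univ : Finset (Fin (K + 1))).card := by
    rw [Finset.card_univ, Fintype.card_fin]
    refine lt_of_le_of_lt Polynomial.degree_le_natDegree ?_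
    exact_mod_cast Nat.lt_succ_of_le hp
  have h2 : p = Lagrange.interpolate univ θ (fun i => p.eval (θ i)) :=
    Lagrange.eq_interpolate_of_eval_eq _ hinj hdeg (fun i _ => rfl)
  have h3 : p.eval t = ∑ i, p.eval (θ i) * (Lagrange.basis univ θ i).eval t := by
    conv_lhs => rw [h2]
    rw [Lagrange.interpolate_apply, Polynomial.eval_finsetSum]
    refine Finset.sum_congr rfl fun i _ => ?_
    rw [Polynomial.eval_mul, Polynomial.eval_C]
  have h4 : ∀ i, |(Lagrange.basis univ θ i).eval t| ≤ (2 / c) ^ K := by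
    intro i
    unfold Lagrange.basis
    rw [Polynomial.eval_prod, Finset.abs_prod]
    have h5 : ∀ j ∈ univ.erase i, |(Lagrange.basisDivisor (θ i) (θ j)).eval t| ≤ 2 / c := by
      intro j hj
      have hne : i ≠ j := fun h => (Finset.mem_erase.1 hj).1 h.symm
      unfold Lagrange.basisDivisor
      rw [Polynomial.eval_mul, Polynomial.eval_C, Polynomial.eval_sub, Polynomial.eval_X,
        Polynomial.eval_C, abs_mul, abs_inv]
      have h6 := hs i j hne
      have h7 : 0 < c * r := mul_pos hc hr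
      have h8 : |t - θ j| ≤ 2 * r := by
        have a1 := abs_le.1 ht
        have a2 := abs_le.1 (hθ j)
        rw [abs_le]
        constructor <;> linarith [a1.1, a1.2, a2.1, a2.2]
      rw [inv_mul_eq_div]
      calc |t - θ j| / |θ i - θ j| ≤ (2 * r) / (c * r) :=
            div_le_div₀ (by positivity) h8 h7 h6
        _ = 2 / c := by field_simp
    calc ∏ j ∈ univ.erase i, |(Lagrange.basisDivisor (θ i) (θ j)).eval t| ≤
        ∏ _j ∈ univ.erase i, 2 / c := Finset.prod_le_prod (fun _ _ => abs_nonneg _) h5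
      _ = (2 / c) ^ K := by
        rw [Finset.prod_const, Finset.card_erase_of_mem (Finset.mem_univ _), Finset.card_univ,
          Fintype.card_fin, Nat.add_sub_cancel]
  rw [h3]
  refine (Finset.abs_sum_le_sum_abs _ _).trans ?_
  calc ∑ i, |p.eval (θ i) * (Lagrange.basis univ θ i).eval t| ≤
      ∑ _i : Fin (K + 1), e * (2 / c) ^ K := by
        refine Finset.sum_le_sum fun i _ => ?_
        rw [abs_mul]
        exact mul_le_mul (he i) (h4 i) (abs_nonneg _) he0
    _ = (K + 1) * (2 / c) ^ K * e := by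
        rw [Finset.sum_const, Finset.card_univ, Fintype.card_fin, nsmul_eq_mul]
        push_cast
        ring

/-- **Interpolation in the time slot.** -/
theorem tim_ball {m K : ℕ} (i₁ : Fin m) (G : MvPolynomial (Fin m) ℝ) (hG : G.totalDegree ≤ K)
    (θ : Fin (K + 1) → ℝ) (z : Fin m → ℝ) {t₀ r c e : ℝ} (hr : 0 < r) (hc : 0 < c)
    (hθ : ∀ i, |θ i - t₀| ≤ r) (hs : ∀ i j, i ≠ j → c * r ≤ |θ i - θ j|)
    (he : ∀ i, |eval (Function.update z i₁ (θ i)) G| ≤ e) {t : ℝ} (ht : |t - t₀| ≤ r) :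
    |eval (Function.update z i₁ t) G| ≤ (K + 1) * (2 / c) ^ K * e := by
  have key : ∀ s : ℝ, (lin i₁ z 0 G).eval s = eval (Function.update z i₁ s) G := by
    intro s
    rw [eval_lin]
    congr 2
    funext i
    unfold pnt
    by_cases hi : i = i₁
    · subst hi
      rw [if_pos rfl, Function.update_self]
    · rw [if_neg hi, Function.update_of_ne hi, Pi.zero_apply, mul_zero, add_zero]
  rw [← key]
  exact lag_ball (lin i₁ z 0 G) ((natDegree_lin_le _ _ _ _).trans hG) θ hr hc hθ hs
    (fun i => by rw [key]; exact he i) ht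

end Pool.SLP
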