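import Mathlib

/-!
# Linear systems with polynomial coefficients: Taylor approximation of the solutions

`M t * s t = P t + O(ε)` with `M, P` polynomial in `t`, bounded coefficients, `M 0` boundedly
invertible. Then `s t` is, for `|t| ≤ δ`, within `C * (|t| ^ n + ε)` of a vector of polynomials of
degree `< n` with bounded coefficients. All constants depend only on the bounds.
-/

set_option autoImplicit false

namespace Pool.SLP

open Finset Polynomial

/-- degree at most `D` and coefficients at most `B`. -/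
def CB (D : ℕ) (B : ℝ) (p : ℝ[X]) : Prop := p.natDegree ≤ D ∧ ∀ i, |p.coeff i| ≤ B

theorem CB.nonneg {D : ℕ} {B : ℝ} {p : ℝ[X]} (h : CB D B p) : 0 ≤ B :=
  le_trans (abs_nonneg _) (h.2 0)

theorem CB.eval_le {D : ℕ} {B : ℝ} {p : ℝ[X]} (h : CB D B p) {t : ℝ} (ht : |t| ≤ 1) :
    |p.eval t| ≤ (D + 1) * B := by
  rw [Polynomial.eval_eq_sum_range' (Nat.lt_succ_of_le h.1) t]
  refine le_trans (Finset.abs_sum_le_sum_abs _ _) ?_
  have h1 : ∀ i ∈ range (D + 1), |p.coeff i * t ^ i| ≤ B := by
    intro i _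
    rw [abs_mul, abs_pow]
    have h2 : |t| ^ i ≤ 1 := pow_le_one₀ (abs_nonneg t) ht
    calc |p.coeff i| * |t| ^ i ≤ B * 1 :=
          mul_le_mul (h.2 i) h2 (by positivity) h.nonneg
      _ = B := mul_one B
  refine le_trans (Finset.sum_le_sum h1) ?_
  simp

theorem CB.divX {D : ℕ} {B : ℝ} {p : ℝ[X]} (h : CB D B p) : CB D B p.divX := by
  refine ⟨?_, fun i => ?_⟩
  · rw [Polynomial.natDegree_divX_eq_natDegree_tsub_one]
    have := h.1
    omega
  · rw [Polynomial.coeff_divX]
    exact h.2 (i + 1)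

theorem CB.lip {D : ℕ} {B : ℝ} {p : ℝ[X]} (h : CB D B p) {t : ℝ} (ht : |t| ≤ 1) :
    |p.eval t - p.coeff 0| ≤ (D + 1) * B * |t| := by
  have h1 : p.eval t = p.divX.eval t * t + p.coeff 0 := by
    conv_lhs => rw [← Polynomial.divX_mul_X_add p]
    simp
  rw [h1, add_sub_cancel_right, abs_mul]
  exact mul_le_mul_of_nonneg_right (h.divX.eval_le ht) (abs_nonneg t)

theorem CB.mono {D D' : ℕ} {B B' : ℝ} {p : ℝ[X]} (h : CB D B p) (hD : D ≤ D') (hB : B ≤ B') :
    CB D' B' p := ⟨h.1.trans hD, fun i => (h.2 i).trans hB⟩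

variable {ι : Type*} [Fintype ι]

/-- **Approximate solution** of the system by a polynomial vector of degree `< n`. -/
theorem tay_sol (D : ℕ) (BM A : ℝ) (hBM : 0 ≤ BM) (hA : 0 ≤ A) (n : ℕ) :
    ∀ B : ℝ, 0 ≤ B → ∃ C : ℝ, 0 ≤ C ∧ ∀ (M : ι → ι → ℝ[X]) (P : ι → ℝ[X]) (N : ι → ι → ℝ),
      (∀ i j, CB D BM (M i j)) → (∀ i, CB D B (P i)) →
      (∀ i j, |N i j| ≤ A) →
      (∀ v : ι → ℝ, ∀ i, ∑ j, (M i j).coeff 0 * ∑ l, N j l * v l = v i) →
      ∃ r : ι → ℕ → ℝ, (∀ i m, |r i m| ≤ C) ∧
        ∀ t : ℝ, |t| ≤ 1 → ∀ i,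
          |∑ j, (M i j).eval t * ∑ m ∈ range n, r j m * t ^ m - (P i).eval t| ≤ C * |t| ^ n := by
  induction n with
  | zero =>
    intro B hB
    refine ⟨(D + 1) * B, by positivity, fun M P N hM hP hN hinv => ?_⟩
    refine ⟨fun _ _ => 0, fun i m => ?_, fun t ht i => ?_⟩
    · rw [abs_zero]; positivity
    · simp only [range_zero, sum_empty, mul_zero, sum_const_zero, zero_sub, abs_neg, pow_zero,
        mul_one]
      exact (hP i).eval_le ht
  | succ n ih =>
    intro B hB
    set ca : ℝ := (Fintype.card ι : ℝ) with hca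
    have hca0 : 0 ≤ ca := by rw [hca]; positivity
    set B' : ℝ := B + ca * (BM * (ca * (A * B))) with hB'
    have hB'0 : 0 ≤ B' := by rw [hB']; positivity
    obtain ⟨C, hC0, hC⟩ := ih B' hB'0
    refine ⟨C + ca * (A * B), by positivity, fun M P N hM hP hN hinv => ?_⟩
    set a : ι → ℝ := fun j => ∑ l, N j l * (P l).coeff 0 with ha
    have hab : ∀ j, |a j| ≤ ca * (A * B) := by
      intro j
      refine le_trans (Finset.abs_sum_le_sum_abs _ _) ?_
      have h1 : ∀ l ∈ univ, |N j l * (P l).coeff 0| ≤ A * B := by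
        intro l _
        rw [abs_mul]
        exact mul_le_mul (hN j l) ((hP l).2 0) (abs_nonneg _) hA
      refine le_trans (Finset.sum_le_sum h1) ?_
      simp [hca]
    set Q : ι → ℝ[X] := fun i => P i - ∑ j, M i j * Polynomial.C (a j) with hQ
    have hQc : ∀ i m, (Q i).coeff m = (P i).coeff m - ∑ j, (M i j).coeff m * a j := by
      intro i m
      simp only [hQ, Polynomial.coeff_sub, Polynomial.finsetSum_coeff, Polynomial.coeff_mul_C]
    have hQ0 : ∀ i, (Q i).coeff 0 = 0 := by
      intro i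
      rw [hQc, ha, hinv (fun l => (P l).coeff 0) i, sub_self]
    have hQB : ∀ i, CB D B' (Q i) := by
      intro i
      refine ⟨?_, fun m => ?_⟩
      · refine le_trans (Polynomial.natDegree_sub_le _ _) (max_le (hP i).1 ?_)
        refine Polynomial.natDegree_sum_le_of_forall_le _ _ fun j _ => ?_
        exact le_trans (Polynomial.natDegree_mul_C_le _ _) (hM i j).1
      · rw [hQc]
        refine le_trans (abs_sub _ _) (add_le_add ((hP i).2 m) ?_)
        refine le_trans (Finset.abs_sum_le_sum_abs _ _) ?_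
        have h1 : ∀ j ∈ univ, |(M i j).coeff m * a j| ≤ BM * (ca * (A * B)) := by
          intro j _
          rw [abs_mul]
          exact mul_le_mul ((hM i j).2 m) (hab j) (abs_nonneg _) hBM
        refine le_trans (Finset.sum_le_sum h1) ?_
        simp [hca]
    obtain ⟨r', hr', hr⟩ := hC M (fun i => (Q i).divX) N hM (fun i => (hQB i).divX) hN hinv
    refine ⟨fun i m => if m = 0 then a i else r' i (m - 1), fun i m => ?_, fun t ht i => ?_⟩
    · show |if m = 0 then a i else r' i (m - 1)| ≤ _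
      split_ifs with h0
      · exact le_trans (hab i) (by linarith)
      · exact le_trans (hr' i _) (by
          have : 0 ≤ ca * (A * B) := by positivity
          linarith)
    · have h1 : ∀ j, ∑ m ∈ range (n + 1), (if m = 0 then a j else r' j (m - 1)) * t ^ m =
          t * (∑ m ∈ range n, r' j m * t ^ m) + a j := by
        intro j
        rw [Finset.sum_range_succ']
        simp only [if_true, pow_zero, mul_one, Nat.add_sub_cancel]
        congr 1
        rw [Finset.mul_sum]
        refine Finset.sum_congr rfl fun m _ => ?_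
        rw [if_neg (Nat.succ_ne_zero m)]
        ring
      have h2 : (P i).eval t = (∑ j, (M i j).eval t * a j) + t * ((Q i).divX).eval t := by
        have h3 : (Q i).eval t = (P i).eval t - ∑ j, (M i j).eval t * a j := by
          simp only [hQ, Polynomial.eval_sub, Polynomial.eval_finsetSum, Polynomial.eval_mul,
            Polynomial.eval_C]
        have h4 : (Q i).eval t = t * ((Q i).divX).eval t := by
          conv_lhs => rw [← Polynomial.divX_mul_X_add (Q i)]
          simp [hQ0, mul_comm]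
        linarith
      have h5 : ∑ j, (M i j).eval t *
            ∑ m ∈ range (n + 1), (if m = 0 then a j else r' j (m - 1)) * t ^ m - (P i).eval t =
          t * (∑ j, (M i j).eval t * ∑ m ∈ range n, r' j m * t ^ m - ((Q i).divX).eval t) := by
        rw [h2]
        have h6 : ∑ j, (M i j).eval t *
            ∑ m ∈ range (n + 1), (if m = 0 then a j else r' j (m - 1)) * t ^ m =
            t * (∑ j, (M i j).eval t * ∑ m ∈ range n, r' j m * t ^ m) +
              ∑ j, (M i j).eval t * a j := by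
          rw [Finset.mul_sum, ← Finset.sum_add_distrib]
          refine Finset.sum_congr rfl fun j _ => ?_
          rw [h1 j]
          ring
        rw [h6]
        ring
      rw [h5, abs_mul, pow_succ]
      have h7 := hr t ht i
      have h8 : 0 ≤ ca * (A * B) * |t| ^ n := by positivity
      calc |t| * _ ≤ |t| * (C * |t| ^ n) := mul_le_mul_of_nonneg_left h7 (abs_nonneg t)
        _ ≤ (C + ca * (A * B)) * (|t| ^ n * |t|) := by
            nlinarith [abs_nonneg t]

/-- **Stability**: for small `t` the system at time `t` is boundedly injective. -/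
theorem tay_stab (D : ℕ) (BM A : ℝ) (hBM : 0 ≤ BM) (hA : 0 ≤ A) :
    ∃ δ : ℝ, 0 < δ ∧ δ ≤ 1 ∧ ∀ (M : ι → ι → ℝ[X]) (N : ι → ι → ℝ),
      (∀ i j, CB D BM (M i j)) → (∀ i j, |N i j| ≤ A) →
      (∀ v : ι → ℝ, ∀ i, ∑ j, N i j * ∑ l, (M j l).coeff 0 * v l = v i) →
      ∀ t : ℝ, |t| ≤ δ → ∀ (v : ι → ℝ) (η : ℝ),
        (∀ i, |∑ j, (M i j).eval t * v j| ≤ η) →
        ∀ i, |v i| ≤ 2 * ((Fintype.card ι : ℝ) * A) * η := by
  set ca : ℝ := (Fintype.card ι : ℝ) with hca
  have hca0 : 0 ≤ ca := by rw [hca]; positivity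
  set Λ : ℝ := ca * A * (ca * ((D + 1) * BM)) with hΛ
  have hΛ0 : 0 ≤ Λ := by rw [hΛ]; positivity
  refine ⟨1 / (2 * (Λ + 1)), by positivity, ?_, fun M N hM hN hinv t ht v η hη => ?_⟩
  · rw [div_le_one (by positivity)]
    linarith
  · have ht1 : |t| ≤ 1 := le_trans ht (by
      rw [div_le_one (by positivity)]
      linarith)
    rcases isEmpty_or_nonempty ι with he | hne
    · intro i
      exact (he.false i).elim
    · have hη0 : 0 ≤ η := le_trans (abs_nonneg _) (hη (Classical.arbitrary ι))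
      obtain ⟨i0, hi0⟩ := Finite.exists_max fun i => |v i|
      have hV : ∀ i, |v i| ≤ |v i0| := hi0
      set V : ℝ := |v i0| with hVdef
      have hV0 : 0 ≤ V := abs_nonneg _
      have h1 : ∀ j, |∑ l, (M j l).coeff 0 * v l| ≤ η + ca * ((D + 1) * BM * |t| * V) := by
        intro j
        have h2 : ∑ l, (M j l).coeff 0 * v l =
            ∑ l, (M j l).eval t * v l - ∑ l, ((M j l).eval t - (M j l).coeff 0) * v l := by
          rw [← Finset.sum_sub_distrib]
          refine Finset.sum_congr rfl fun l _ => ?_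
          ring
        rw [h2]
        refine le_trans (abs_sub _ _) (add_le_add (hη j) ?_)
        refine le_trans (Finset.abs_sum_le_sum_abs _ _) ?_
        have h3 : ∀ l ∈ univ, |((M j l).eval t - (M j l).coeff 0) * v l| ≤
            (D + 1) * BM * |t| * V := by
          intro l _
          rw [abs_mul]
          exact mul_le_mul ((hM j l).lip ht1) (hV l) (abs_nonneg _) (by positivity)
        refine le_trans (Finset.sum_le_sum h3) ?_
        simp [hca]
      have h4 : V ≤ ca * (A * (η + ca * ((D + 1) * BM * |t| * V))) := by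
        have h5 : |v i0| ≤ ca * (A * (η + ca * ((D + 1) * BM * |t| * V))) := by
          rw [← hinv v i0]
          refine le_trans (Finset.abs_sum_le_sum_abs _ _) ?_
          have h6 : ∀ j ∈ univ, |N i0 j * ∑ l, (M j l).coeff 0 * v l| ≤
              A * (η + ca * ((D + 1) * BM * |t| * V)) := by
            intro j _
            rw [abs_mul]
            exact mul_le_mul (hN i0 j) (h1 j) (abs_nonneg _) hA
          refine le_trans (Finset.sum_le_sum h6) ?_
          simp [hca]
        exact h5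
      have h7 : Λ * |t| ≤ 1 / 2 := by
        have h8 : Λ * |t| ≤ Λ * (1 / (2 * (Λ + 1))) := mul_le_mul_of_nonneg_left ht hΛ0
        have h9 : Λ * (1 / (2 * (Λ + 1))) ≤ 1 / 2 := by
          rw [mul_one_div, div_le_div_iff₀ (by positivity) (by norm_num)]
          linarith
        linarith
      have h10 : V ≤ ca * A * η + Λ * |t| * V := by
        calc V ≤ ca * (A * (η + ca * ((D + 1) * BM * |t| * V))) := h4
          _ = ca * A * η + Λ * |t| * V := by rw [hΛ]; ring
      have h11 : Λ * |t| * V ≤ 1 / 2 * V := mul_le_mul_of_nonneg_right h7 hV0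
      intro i
      have := hV i
      have h12 : V ≤ 2 * (ca * A) * η := by nlinarith
      linarith

/-- **Taylor approximation** of the solutions of a polynomial linear system. -/
theorem tay (D : ℕ) (BM BP A : ℝ) (hBM : 0 ≤ BM) (hBP : 0 ≤ BP) (hA : 0 ≤ A) (n : ℕ) :
    ∃ C δ : ℝ, 0 ≤ C ∧ 0 < δ ∧ δ ≤ 1 ∧
      ∀ (M : ι → ι → ℝ[X]) (P : ι → ℝ[X]) (N : ι → ι → ℝ),
      (∀ i j, CB D BM (M i j)) → (∀ i, CB D BP (P i)) → (∀ i j, |N i j| ≤ A) →
      (∀ v : ι → ℝ, ∀ i, ∑ j, (M i j).coeff 0 * ∑ l, N j l * v l = v i) →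
      (∀ v : ι → ℝ, ∀ i, ∑ j, N i j * ∑ l, (M j l).coeff 0 * v l = v i) →
      ∃ r : ι → ℕ → ℝ, (∀ i m, |r i m| ≤ C) ∧
        ∀ t : ℝ, |t| ≤ δ → ∀ (s : ι → ℝ) (ε : ℝ),
          (∀ i, |∑ j, (M i j).eval t * s j - (P i).eval t| ≤ ε) →
          ∀ i, |s i - ∑ m ∈ range n, r i m * t ^ m| ≤ C * (|t| ^ n + ε) := by
  obtain ⟨C1, hC1, h1⟩ := tay_sol (ι := ι) D BM A hBM hA n BP hBP
  obtain ⟨δ, hδ0, hδ1, h2⟩ := tay_stab (ι := ι) D BM A hBM hA
  set ca : ℝ := (Fintype.card ι : ℝ) with hca
  have hca0 : 0 ≤ ca := by rw [hca]; positivity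
  set K : ℝ := 2 * (ca * A) with hK
  have hK0 : 0 ≤ K := by rw [hK]; positivity
  refine ⟨C1 + K * C1 + K, δ, by positivity, hδ0, hδ1, fun M P N hM hP hN hr hl => ?_⟩
  obtain ⟨r, hrb, hrt⟩ := h1 M P N hM hP hN hr
  refine ⟨r, fun i m => le_trans (hrb i m) (by nlinarith [mul_nonneg hK0 hC1]),
    fun t ht s ε hs i => ?_⟩
  have ht1 : |t| ≤ 1 := ht.trans hδ1
  have hε : 0 ≤ ε := le_trans (abs_nonneg _) (hs i)
  have h3 := h2 M N hM hN hl t ht (fun j => s j - ∑ m ∈ range n, r j m * t ^ m)
    (C1 * |t| ^ n + ε) (fun j => by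
      have h4 : ∑ l, (M j l).eval t * (s l - ∑ m ∈ range n, r l m * t ^ m) =
          (∑ l, (M j l).eval t * s l - (P j).eval t) -
            (∑ l, (M j l).eval t * ∑ m ∈ range n, r l m * t ^ m - (P j).eval t) := by
        have h5 : ∑ l, (M j l).eval t * (s l - ∑ m ∈ range n, r l m * t ^ m) =
            ∑ l, (M j l).eval t * s l - ∑ l, (M j l).eval t * ∑ m ∈ range n, r l m * t ^ m := by
          rw [← Finset.sum_sub_distrib]
          refine Finset.sum_congr rfl fun l _ => ?_
          ring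
        rw [h5]
        ring
      show |∑ l, (M j l).eval t * (s l - ∑ m ∈ range n, r l m * t ^ m)| ≤ _
      rw [h4]
      refine le_trans (abs_sub _ _) ?_
      have := hrt t ht1 j
      have := hs j
      linarith) i
  have hp : 0 ≤ |t| ^ n := by positivity
  calc |s i - ∑ m ∈ range n, r i m * t ^ m| ≤ K * (C1 * |t| ^ n + ε) := h3
    _ ≤ (C1 + K * C1 + K) * (|t| ^ n + ε) := by
        nlinarith [mul_nonneg hC1 hp, mul_nonneg hC1 hε, mul_nonneg hK0 hp, mul_nonneg hK0 hε,
          mul_nonneg (mul_nonneg hK0 hC1) hε]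

end Pool.SLP
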